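import Mathlib
import Pool.Agent.H13.Q1.FourG

set_option autoImplicit false

/-! Route W, S4: the map of the half plane onto the equilateral triangle with the corners at the images
of `a1 < a2 < a3` (primitive of `((z-a1)(z-a2)(z-a3))^(-2/3)`, integral over the horizontal ray). -/

open Complex Metric Set Topology Filter MeasureTheory

noncomputable section

namespace Pool.Agent.H74.W

open H87.FM (CH)
open Pool.Agent.H13.Q1.Four (cpow_cont slit_of_HP rho_int rho sig sig_eq bet arc_mid arc_left cardy)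

/-- the density on the real line -/
def sg3 (a : Fin 3 → ℝ) (u : ℝ) : ℝ := ∏ k, |u - a k| ^ (-2 / 3 : ℝ)

lemma sg3_nonneg (a : Fin 3 → ℝ) (u : ℝ) : 0 ≤ sg3 a u :=
  Finset.prod_nonneg fun _ _ => Real.rpow_nonneg (abs_nonneg _) _

/-- the integrand -/
def f3 (a : Fin 3 → ℝ) (z : ℂ) : ℂ := ∏ k, (z - a k) ^ ((-2 / 3 : ℝ) : ℂ)

lemma norm_f3 (a : Fin 3 → ℝ) (z : ℂ) : ‖f3 a z‖ = ∏ k, ‖z - a k‖ ^ (-2 / 3 : ℝ) := by
  unfold f3
  rw [norm_prod]
  exact Finset.prod_congr rfl fun k _ => norm_cpow_real _ _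

lemma norm_f3_le (a : Fin 3 → ℝ) {z : ℂ} (hz : ∀ k, z.re ≠ a k) : ‖f3 a z‖ ≤ sg3 a z.re := by
  rw [norm_f3]
  unfold sg3
  apply Finset.prod_le_prod
  · intro k _
    positivity
  · intro k _
    have h1 : |z.re - a k| ≤ ‖z - a k‖ := by
      have := Complex.abs_re_le_norm (z - a k)
      simpa using this
    have h2 : 0 < |z.re - a k| := abs_pos.2 (sub_ne_zero.2 (hz k))
    exact Real.rpow_le_rpow_of_nonpos h2 h1 (by norm_num)

lemma f3_diff (a : Fin 3 → ℝ) {z : ℂ} (hz : 0 < z.im) : DifferentiableAt ℂ (f3 a) z := by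
  unfold f3
  simp only [Fin.prod_univ_three]
  have h : ∀ k, DifferentiableAt ℂ (fun z : ℂ => (z - a k) ^ ((-2 / 3 : ℝ) : ℂ)) z := by
    intro k
    apply DifferentiableAt.cpow (by fun_prop) (by fun_prop)
    apply slit_of_HP
    simpa using hz
  exact ((h 0).mul (h 1)).mul (h 2)

lemma f3_cont (a : Fin 3 → ℝ) {z : ℂ} (hz : 0 ≤ z.im) (hk : ∀ k, z ≠ a k) :
    ContinuousWithinAt (f3 a) CH z := by
  unfold f3
  simp only [Fin.prod_univ_three]
  have h : ∀ k, ContinuousWithinAt (fun z : ℂ => (z - a k) ^ ((-2 / 3 : ℝ) : ℂ)) CH z := by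
    intro k
    have h1 := cpow_cont ((-2 / 3 : ℝ) : ℂ) (z := z - a k) (sub_ne_zero.2 (hk k))
    refine ContinuousWithinAt.comp (f := fun z : ℂ => z - a k) h1 ?_ ?_
    · exact (continuous_id.sub continuous_const).continuousWithinAt
    · intro w hw
      have hw' : 0 ≤ w.im := hw
      show 0 ≤ (w - a k).im
      simpa using hw'
  exact ((h 0).mul (h 1)).mul (h 2)

/-! ### Integrability -/

lemma sg3_int_loc (a : Fin 3 → ℝ) (ha : Function.Injective a) (p q : ℝ) :
    IntervalIntegrable (sg3 a) volume p q := by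
  set b : ℝ := |a 0| + |a 1| + |a 2| + 1 with hb
  have hx : Function.Injective (![b, a 0, a 1, a 2] : Fin 4 → ℝ) := by
    have hb0 : a 0 < b := by
      have := le_abs_self (a 0); have := abs_nonneg (a 1); have := abs_nonneg (a 2); linarith
    have hb1 : a 1 < b := by
      have := le_abs_self (a 1); have := abs_nonneg (a 0); have := abs_nonneg (a 2); linarith
    have hb2 : a 2 < b := by
      have := le_abs_self (a 2); have := abs_nonneg (a 0); have := abs_nonneg (a 1); linarith
    have h01 : a 0 ≠ a 1 := fun h => absurd (ha h) (by decide)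
    have h02 : a 0 ≠ a 2 := fun h => absurd (ha h) (by decide)
    have h12 : a 1 ≠ a 2 := fun h => absurd (ha h) (by decide)
    intro i j h
    fin_cases i <;> fin_cases j <;> simp at h ⊢ <;> first
      | exact absurd h hb0.ne' | exact absurd h hb1.ne' | exact absurd h hb2.ne'
      | exact absurd h hb0.ne | exact absurd h hb1.ne | exact absurd h hb2.ne
      | exact absurd h h01 | exact absurd h h02 | exact absurd h h12
      | exact absurd h h01.symm | exact absurd h h02.symm | exact absurd h h12.symm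
  have h1 := rho_int hx p q
  have h2 : IntervalIntegrable (fun u => rho ![b, a 0, a 1, a 2] u * |u - b| ^ (2 / 3 : ℝ)) volume p q := by
    apply h1.mul_continuousOn
    apply Continuous.continuousOn
    apply Continuous.rpow_const (by fun_prop)
    intro u
    right
    norm_num
  refine h2.congr_ae ?_
  have h3 : ∀ᵐ u : ℝ, u ≠ b := by
    simp [ae_iff, measure_singleton]
  apply Filter.EventuallyEq.filter_mono (l := ae volume) ?_ (ae_mono Measure.restrict_le_self)
  filter_upwards [h3] with u hu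
  unfold rho sg3
  rw [Fin.prod_univ_four, Fin.prod_univ_three]
  have h4 : 0 < |u - b| := abs_pos.2 (sub_ne_zero.2 hu)
  have h5 : |u - b| ^ (-2 / 3 : ℝ) * |u - b| ^ (2 / 3 : ℝ) = 1 := by
    rw [← Real.rpow_add h4]
    norm_num
  simp only [Matrix.cons_val_zero, Matrix.cons_val_one, Matrix.cons_val]
  linear_combination (|u - a 0| ^ (-2 / 3 : ℝ) * |u - a 1| ^ (-2 / 3 : ℝ) * |u - a 2| ^ (-2 / 3 : ℝ)) * h5

lemma sg3_tail (a : Fin 3 → ℝ) {M : ℝ} (hM : ∀ k, a k < M) : IntegrableOn (sg3 a) (Ioi M) := by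
  obtain ⟨m, hm, hmM⟩ : ∃ m, (∀ k, a k < m) ∧ m < M := by
    have : ∃ m, (a 0 < m ∧ a 1 < m ∧ a 2 < m) ∧ m < M := by
      obtain ⟨m, h1, h2⟩ := exists_between (show max (a 0) (max (a 1) (a 2)) < M by
        rw [max_lt_iff, max_lt_iff]; exact ⟨hM 0, hM 1, hM 2⟩)
      rw [max_lt_iff, max_lt_iff] at h1
      exact ⟨m, h1, h2⟩
    obtain ⟨m, ⟨h0, h1, h2⟩, h3⟩ := this
    exact ⟨m, fun k => by fin_cases k <;> assumption, h3⟩
  have h1 : IntegrableOn (fun u : ℝ => (u + (-m)) ^ (-2 : ℝ)) (Ioi M) :=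
    integrableOn_add_rpow_Ioi_of_lt (by norm_num) (by linarith)
  refine Integrable.mono' h1 ?_ ?_
  · apply Measurable.aestronglyMeasurable
    unfold sg3
    fun_prop
  · rw [ae_restrict_iff' measurableSet_Ioi]
    refine Eventually.of_forall fun u hu => ?_
    rw [Real.norm_of_nonneg (sg3_nonneg a u)]
    have hu' : M < u := hu
    have hum : 0 < u - m := by linarith
    have h2 : ∀ k, |u - a k| ^ (-2 / 3 : ℝ) ≤ (u - m) ^ (-2 / 3 : ℝ) := by
      intro k
      apply Real.rpow_le_rpow_of_nonpos hum _ (by norm_num)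
      rw [abs_of_pos (by linarith [hm k])]
      linarith [hm k]
    calc sg3 a u ≤ ∏ _k : Fin 3, (u - m) ^ (-2 / 3 : ℝ) :=
          Finset.prod_le_prod (fun k _ => Real.rpow_nonneg (abs_nonneg _) _) fun k _ => h2 k
      _ = (u + -m) ^ (-2 : ℝ) := by
          rw [Finset.prod_const, Finset.card_univ, Fintype.card_fin, ← Real.rpow_natCast,
            ← Real.rpow_mul hum.le, ← sub_eq_add_neg]
          norm_num

lemma sg3_neg (a : Fin 3 → ℝ) (u : ℝ) : sg3 a (-u) = sg3 (fun k => -a k) u := by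
  unfold sg3
  refine Finset.prod_congr rfl fun k _ => ?_
  rw [show -u - a k = -(u - -a k) by ring, abs_neg]

lemma sg3_integrable (a : Fin 3 → ℝ) (ha : Function.Injective a) : Integrable (sg3 a) := by
  set M : ℝ := |a 0| + |a 1| + |a 2| + 1 with hM
  have hk : ∀ k, |a k| < M := by
    intro k
    have h0 := abs_nonneg (a 0); have h1 := abs_nonneg (a 1); have h2 := abs_nonneg (a 2)
    fin_cases k
    · show |a 0| < M; linarith
    · show |a 1| < M; linarith
    · show |a 2| < M; linarith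
  have h1 : IntegrableOn (sg3 a) (Ioi M) := sg3_tail a fun k => lt_of_le_of_lt (le_abs_self _) (hk k)
  have h2 : IntegrableOn (sg3 a) (Iio (-M)) := by
    have h3 : IntegrableOn (sg3 fun k => -a k) (Ioi M) :=
      sg3_tail _ fun k => lt_of_le_of_lt (neg_le_abs _) (hk k)
    have h4 := h3.comp_neg
    rw [neg_Ioi] at h4
    refine h4.congr_fun (fun u _ => ?_) measurableSet_Iio
    show sg3 (fun k => -a k) (-u) = sg3 a u
    rw [sg3_neg]
    simp
  have h3 : IntegrableOn (sg3 a) (Icc (-M) M) := by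
    rw [integrableOn_Icc_iff_integrableOn_Ioc]
    have hMM : -M ≤ M := by
      have := hk 0; have := abs_nonneg (a 0); linarith
    exact (intervalIntegrable_iff_integrableOn_Ioc_of_le hMM).1 (sg3_int_loc a ha _ _)
  have h5 : IntegrableOn (sg3 a) ((Iio (-M) ∪ Icc (-M) M) ∪ Ioi M) := (h2.union h3).union h1
  rw [← integrableOn_univ]
  refine h5.mono_set fun u _ => ?_
  rcases lt_or_ge u (-M) with h | h
  · exact Or.inl (Or.inl h)
  · rcases le_or_gt u M with h' | h'
    · exact Or.inl (Or.inr ⟨h, h'⟩)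
    · exact Or.inr h'

end Pool.Agent.H74.W
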