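import Mathlib
import Pool.Agent.H74.W.Tri1

set_option autoImplicit false

/-! Route W, S4: the triangle map, continuity, analyticity, boundary values. -/

open Complex Metric Set Topology Filter MeasureTheory

noncomputable section

namespace Pool.Agent.H74.W

open H87.FM (CH)
open Pool.Agent.H13.Q1.Four (cpow_cont slit_of_HP rho_int rho sig sig_eq bet arc_mid arc_left cardy)

/-- the triangle map -/
def F3 (a : Fin 3 → ℝ) (z : ℂ) : ℂ := -∫ u in Ioi z.re, f3 a ((u : ℂ) + z.im * I)

/-- the integrand at height `y` -/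
lemma ae_ne (a : Fin 3 → ℝ) : ∀ᵐ u : ℝ, ∀ k, u ≠ a k := by
  rw [ae_all_iff]
  intro k
  simp [ae_iff, measure_singleton]

lemma f3_meas (a : Fin 3 → ℝ) (y : ℝ) : AEStronglyMeasurable (fun u : ℝ => f3 a ((u : ℂ) + y * I)) volume := by
  apply Measurable.aestronglyMeasurable
  unfold f3
  apply Finset.measurable_prod
  intro k _
  apply Measurable.pow_const
  fun_prop

lemma norm_f3_le' (a : Fin 3 → ℝ) (y : ℝ) {u : ℝ} (hu : ∀ k, u ≠ a k) :
    ‖f3 a ((u : ℂ) + y * I)‖ ≤ sg3 a u := by
  have h := norm_f3_le a (z := (u : ℂ) + y * I) (by intro k; simpa using hu k)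
  simpa using h

lemma f3_integrable (a : Fin 3 → ℝ) (ha : Function.Injective a) (y : ℝ) :
    Integrable (fun u : ℝ => f3 a ((u : ℂ) + y * I)) := by
  refine Integrable.mono' (sg3_integrable a ha) (f3_meas a y) ?_
  filter_upwards [ae_ne a] with u hu
  exact norm_f3_le' a y hu

lemma F3_eq (a : Fin 3 → ℝ) (z : ℂ) :
    F3 a z = -∫ u : ℝ, (Ioi z.re).indicator (fun u : ℝ => f3 a ((u : ℂ) + z.im * I)) u := by
  unfold F3
  rw [integral_indicator measurableSet_Ioi]

/-- continuity on the closed half plane -/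
lemma F3_cont (a : Fin 3 → ℝ) (ha : Function.Injective a) : ContinuousOn (F3 a) CH := by
  have h0 : F3 a = fun z => -∫ u : ℝ, (Ioi z.re).indicator
      (fun u : ℝ => f3 a ((u : ℂ) + z.im * I)) u := funext (F3_eq a)
  rw [h0]
  apply ContinuousOn.neg
  intro z0 hz0
  apply tendsto_integral_filter_of_dominated_convergence (sg3 a)
  · refine Eventually.of_forall fun z => ?_
    exact (f3_meas a z.im).indicator measurableSet_Ioi
  · refine Eventually.of_forall fun z => ?_
    filter_upwards [ae_ne a] with u hu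
    refine (norm_indicator_le_norm_self _ _).trans ?_
    exact norm_f3_le' a z.im hu
  · exact sg3_integrable a ha
  · have h1 : ∀ᵐ u : ℝ, u ≠ z0.re := by simp [ae_iff, measure_singleton]
    filter_upwards [ae_ne a, h1] with u hu hu0
    -- pointwise limit
    have hc : Tendsto (fun z : ℂ => f3 a ((u : ℂ) + z.im * I)) (𝓝[CH] z0)
        (𝓝 (f3 a ((u : ℂ) + z0.im * I))) := by
      have h2 : ContinuousWithinAt (f3 a) CH ((u : ℂ) + z0.im * I) := by
        apply f3_cont
        · have : 0 ≤ z0.im := hz0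
          simpa using this
        · intro k h
          have := congrArg Complex.re h
          simp at this
          exact hu k this
      refine h2.tendsto.comp (tendsto_nhdsWithin_iff.2 ⟨?_, ?_⟩)
      · have : Continuous (fun z : ℂ => (u : ℂ) + z.im * I) := by fun_prop
        exact (this.tendsto z0).mono_left nhdsWithin_le_nhds
      · filter_upwards [self_mem_nhdsWithin] with z hz
        have hz' : 0 ≤ z.im := hz
        show 0 ≤ ((u : ℂ) + z.im * I).im
        simpa using hz'
    rcases lt_or_gt_of_ne hu0 with h | h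
    · have h3 : ∀ᶠ z : ℂ in 𝓝[CH] z0, u < z.re :=
        nhdsWithin_le_nhds ((isOpen_lt continuous_const Complex.continuous_re).mem_nhds h)
      have hm0 : u ∉ Ioi z0.re := by
        simp only [mem_Ioi, not_lt]
        exact h.le
      have e0 : (Ioi z0.re).indicator (fun u : ℝ => f3 a ((u : ℂ) + z0.im * I)) u = 0 :=
        indicator_of_notMem hm0 _
      rw [e0]
      refine (tendsto_const_nhds (x := (0 : ℂ))).congr' ?_
      filter_upwards [h3] with z hz
      have hm : u ∉ Ioi z.re := by
        simp only [mem_Ioi, not_lt]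
        exact hz.le
      exact (indicator_of_notMem hm (fun u : ℝ => f3 a ((u : ℂ) + z.im * I))).symm
    · have h3 : ∀ᶠ z : ℂ in 𝓝[CH] z0, z.re < u :=
        nhdsWithin_le_nhds ((isOpen_lt Complex.continuous_re continuous_const).mem_nhds h)
      have e0 : (Ioi z0.re).indicator (fun u : ℝ => f3 a ((u : ℂ) + z0.im * I)) u =
          f3 a ((u : ℂ) + z0.im * I) := indicator_of_mem (show u ∈ Ioi z0.re from h) _
      rw [e0]
      refine hc.congr' ?_
      filter_upwards [h3] with z hz
      have hm : u ∈ Ioi z.re := hz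
      exact (indicator_of_mem hm (fun u : ℝ => f3 a ((u : ℂ) + z.im * I))).symm

/-- boundedness -/
lemma F3_bdd (a : Fin 3 → ℝ) (ha : Function.Injective a) (z : ℂ) : ‖F3 a z‖ ≤ ∫ u, sg3 a u := by
  rw [F3_eq, norm_neg]
  apply norm_integral_le_of_norm_le (sg3_integrable a ha)
  filter_upwards [ae_ne a] with u hu
  exact (norm_indicator_le_norm_self _ _).trans (norm_f3_le' a z.im hu)

/-! ### Analyticity -/

lemma F3_ray (a : Fin 3 → ℝ) (z : ℂ) : F3 a z = -∫ s in Ioi (0 : ℝ), f3 a (z + s) := by
  unfold F3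
  congr 1
  have h := integral_comp_add_right_Ioi' a z
  exact h
where
  integral_comp_add_right_Ioi' (a : Fin 3 → ℝ) (z : ℂ) :
      ∫ u in Ioi z.re, f3 a ((u : ℂ) + z.im * I) = ∫ s in Ioi (0 : ℝ), f3 a (z + s) := by
    rw [← integral_indicator measurableSet_Ioi, ← integral_indicator measurableSet_Ioi,
      ← integral_add_right_eq_self _ z.re]
    congr 1
    funext s
    have e : (((s + z.re : ℝ) : ℂ) + z.im * I) = z + s := by
      apply Complex.ext <;> simp [add_comm]
    by_cases h : 0 < s
    · rw [indicator_of_mem (show s + z.re ∈ Ioi z.re by simpa using h),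
        indicator_of_mem (show s ∈ Ioi (0 : ℝ) from h), e]
    · rw [indicator_of_notMem (show s + z.re ∉ Ioi z.re by simpa using h),
        indicator_of_notMem (show s ∉ Ioi (0 : ℝ) from h)]

/-- lower bound of the distances along the ray -/
lemma ray_low {ε C s : ℝ} (hε : 0 < ε) (hC : 0 ≤ C) (hs : 0 ≤ s) {w : ℂ} {b : ℝ} (h1 : ε ≤ w.im)
    (h2 : s - C ≤ w.re - b) : ε / (1 + C + ε) * (1 + s) ≤ ‖w - b‖ := by
  have h3 : ε ≤ ‖w - b‖ := by
    have := Complex.abs_im_le_norm (w - b)
    have h4 : (w - b).im = w.im := by simp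
    rw [h4] at this
    exact h1.trans ((le_abs_self _).trans this)
  have h5 : s - C ≤ ‖w - b‖ := by
    have := Complex.abs_re_le_norm (w - b)
    have h4 : (w - b).re = w.re - b := by simp
    rw [h4] at this
    exact h2.trans ((le_abs_self _).trans this)
  have hp : 0 < 1 + C + ε := by linarith
  rw [div_mul_eq_mul_div, div_le_iff₀ hp]
  rcases le_total s (C + ε) with h | h
  · nlinarith
  · nlinarith

lemma f3_ray_bound (a : Fin 3 → ℝ) {z0 : ℂ} {ε : ℝ} (hε : 0 < ε) (hz0 : 2 * ε ≤ z0.im) :
    ∃ K : ℝ, 0 ≤ K ∧ ∀ z ∈ closedBall z0 ε, ∀ s : ℝ, 0 ≤ s → ‖f3 a (z + s)‖ ≤ K * (s + 1) ^ (-2 : ℝ) := by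
  set C : ℝ := ‖z0‖ + ε + (|a 0| + |a 1| + |a 2|) with hC
  have hC0 : 0 ≤ C := by positivity
  set c : ℝ := ε / (1 + C + ε) with hc
  have hc0 : 0 < c := by positivity
  refine ⟨c ^ (-2 : ℝ), by positivity, fun z hz s hs => ?_⟩
  rw [norm_f3]
  have h1 : ∀ k, ‖z + s - a k‖ ^ (-2 / 3 : ℝ) ≤ (c * (1 + s)) ^ (-2 / 3 : ℝ) := by
    intro k
    have hzd : ‖z - z0‖ ≤ ε := by simpa [dist_eq_norm] using hz
    have h2 : c * (1 + s) ≤ ‖z + s - a k‖ := by
      apply ray_low hε hC0 hs
      · have h3 := Complex.abs_im_le_norm (z - z0)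
        have h4 : (z - z0).im = z.im - z0.im := by simp
        rw [h4] at h3
        have h5 := neg_abs_le (z.im - z0.im)
        have h6 : (z + (s : ℂ)).im = z.im := by simp
        rw [h6]
        linarith
      · have h3 := Complex.abs_re_le_norm (z - z0)
        have h4 : (z - z0).re = z.re - z0.re := by simp
        rw [h4] at h3
        have h5 := neg_abs_le (z.re - z0.re)
        have h6 : (z + (s : ℂ)).re = z.re + s := by simp
        have h7 := Complex.abs_re_le_norm z0
        have h8 := neg_abs_le z0.re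
        have h9 : a k ≤ |a 0| + |a 1| + |a 2| := by
          have h0 := abs_nonneg (a 0); have h1 := abs_nonneg (a 1); have h2 := abs_nonneg (a 2)
          have := le_abs_self (a k)
          fin_cases k
          · show a 0 ≤ _
            have := le_abs_self (a 0); linarith
          · show a 1 ≤ _
            have := le_abs_self (a 1); linarith
          · show a 2 ≤ _
            have := le_abs_self (a 2); linarith
        rw [h6]
        linarith
    exact Real.rpow_le_rpow_of_nonpos (by positivity) h2 (by norm_num)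
  calc ∏ k, ‖z + s - a k‖ ^ (-2 / 3 : ℝ) ≤ ∏ _k : Fin 3, (c * (1 + s)) ^ (-2 / 3 : ℝ) :=
        Finset.prod_le_prod (fun k _ => by positivity) fun k _ => h1 k
    _ = (c * (1 + s)) ^ (-2 : ℝ) := by
        rw [Finset.prod_const, Finset.card_univ, Fintype.card_fin, ← Real.rpow_natCast,
          ← Real.rpow_mul (by positivity)]
        norm_num
    _ = c ^ (-2 : ℝ) * (s + 1) ^ (-2 : ℝ) := by
        rw [Real.mul_rpow hc0.le (by linarith), add_comm]

lemma pow_integrable : IntegrableOn (fun s : ℝ => (s + 1) ^ (-2 : ℝ)) (Ioi 0) :=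
  integrableOn_add_rpow_Ioi_of_lt (by norm_num) (by norm_num)

lemma F3_diff (a : Fin 3 → ℝ) {z0 : ℂ} (hz0 : 0 < z0.im) : DifferentiableAt ℂ (F3 a) z0 := by
  have h0 : F3 a = fun z => -∫ s in Ioi (0 : ℝ), f3 a (z + s) := funext (F3_ray a)
  rw [h0]
  apply DifferentiableAt.neg
  set ε : ℝ := z0.im / 4 with hε
  have hε0 : 0 < ε := by positivity
  obtain ⟨K, hK, hb⟩ := f3_ray_bound a (z0 := z0) (ε := 2 * ε) (by positivity) (by rw [hε]; linarith)
  have him : ∀ z ∈ closedBall z0 (2 * ε), ∀ s : ℝ, 0 < (z + s).im := by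
    intro z hz s
    have h1 : ‖z - z0‖ ≤ 2 * ε := by simpa [dist_eq_norm] using hz
    have h3 := Complex.abs_im_le_norm (z - z0)
    have h4 : (z - z0).im = z.im - z0.im := by simp
    rw [h4] at h3
    have h5 := neg_abs_le (z.im - z0.im)
    have h6 : (z + (s : ℂ)).im = z.im := by simp
    rw [h6]
    linarith
  have hmeas : ∀ z ∈ closedBall z0 (2 * ε), AEStronglyMeasurable (fun s : ℝ => f3 a (z + s))
      (volume.restrict (Ioi 0)) := by
    intro z _
    apply Measurable.aestronglyMeasurable
    unfold f3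
    apply Finset.measurable_prod
    intro k _
    apply Measurable.pow_const
    fun_prop
  have hz0m : z0 ∈ closedBall z0 (2 * ε) := mem_closedBall_self (by positivity)
  have key := hasDerivAt_integral_of_dominated_loc_of_deriv_le (𝕜 := ℂ) (μ := volume.restrict (Ioi (0 : ℝ)))
    (F := fun z s => f3 a (z + s)) (F' := fun z s => deriv (f3 a) (z + s)) (x₀ := z0)
    (s := ball z0 ε) (bound := fun s : ℝ => K / ε * (s + 1) ^ (-2 : ℝ)) (ball_mem_nhds z0 hε0) ?_ ?_ ?_ ?_ ?_ ?_
  · exact key.2.differentiableAt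
  · filter_upwards [ball_mem_nhds z0 hε0] with z hz
    exact hmeas z (ball_subset_closedBall (ball_subset_ball (by linarith) hz))
  · refine Integrable.mono' (pow_integrable.const_mul K) (hmeas z0 hz0m) ?_
    rw [ae_restrict_iff' measurableSet_Ioi]
    exact Eventually.of_forall fun s hs => hb z0 hz0m s (le_of_lt hs)
  · apply Measurable.aestronglyMeasurable
    exact (measurable_deriv (f3 a)).comp (by fun_prop)
  · rw [ae_restrict_iff' measurableSet_Ioi]
    refine Eventually.of_forall fun s hs z hz => ?_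
    have hcl : ∀ w ∈ closedBall (z + s) ε, (w - s) ∈ closedBall z0 (2 * ε) := by
      intro w hw
      have h1 : ‖w - (z + s)‖ ≤ ε := by simpa [dist_eq_norm] using hw
      have h2 : ‖z - z0‖ < ε := by simpa [dist_eq_norm] using hz
      rw [mem_closedBall, dist_eq_norm]
      calc ‖w - s - z0‖ = ‖(w - (z + s)) + (z - z0)‖ := by congr 1; ring
        _ ≤ ‖w - (z + s)‖ + ‖z - z0‖ := norm_add_le _ _
        _ ≤ 2 * ε := by linarith
    have h3 : DiffContOnCl ℂ (f3 a) (ball (z + s) ε) := by
      apply DifferentiableOn.diffContOnCl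
      rw [closure_ball _ hε0.ne']
      intro w hw
      have h4 := him _ (hcl w hw) s
      rw [sub_add_cancel] at h4
      exact (f3_diff a h4).differentiableWithinAt
    have h5 := Complex.norm_deriv_le_of_forall_mem_sphere_norm_le (c := z + s) (R := ε) (f := f3 a)
      (C := K * (s + 1) ^ (-2 : ℝ)) hε0 h3 (by
        intro w hw
        have h6 := hb (w - s) (hcl w (sphere_subset_closedBall hw)) s (le_of_lt hs)
        rw [sub_add_cancel] at h6
        exact h6)
    calc ‖deriv (f3 a) (z + s)‖ ≤ K * (s + 1) ^ (-2 : ℝ) / ε := h5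
      _ = K / ε * (s + 1) ^ (-2 : ℝ) := by ring
  · exact pow_integrable.const_mul _
  · rw [ae_restrict_iff' measurableSet_Ioi]
    refine Eventually.of_forall fun s hs z hz => ?_
    have h4 := him z (ball_subset_closedBall (ball_subset_ball (by linarith) hz)) s
    have h5 := (f3_diff a h4).hasDerivAt
    exact h5.comp_add_const z (s : ℂ)

end Pool.Agent.H74.W
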