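import Mathlib
import Pool.Agent.H74.W.Tri2
import Pool.Agent.H13.Q1.FourH

set_option autoImplicit false

/-! Route W, S4: the triangle map on the real line; the triangle is equilateral; Cardy's function. -/

open Complex Metric Set Topology Filter MeasureTheory

noncomputable section

namespace Pool.Agent.H74.W

open H87.FM (CH)
open Pool.Agent.H13.Q1.Four (cpow_cont slit_of_HP rho_int rho sig sig_eq bet arc_mid arc_left cardy)

/-- `exp (-2πi/3)` -/
def om : ℂ := Complex.exp (Real.pi * I * ((-2 / 3 : ℝ) : ℂ))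

lemma om_cube : om ^ 3 = 1 := by
  unfold om
  rw [← Complex.exp_nat_mul]
  rw [show ((3 : ℕ) : ℂ) * (Real.pi * I * ((-2 / 3 : ℝ) : ℂ)) = -(2 * Real.pi * I) by push_cast; ring]
  rw [Complex.exp_neg, Complex.exp_two_pi_mul_I]
  simp

lemma om_re : om.re = -1 / 2 := by
  unfold om
  rw [show (Real.pi * I * ((-2 / 3 : ℝ) : ℂ)) = ((-(2 * Real.pi / 3) : ℝ) : ℂ) * I by push_cast; ring]
  rw [Complex.exp_ofReal_mul_I_re, Real.cos_neg]
  have : Real.cos (2 * Real.pi / 3) = -1 / 2 := by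
    rw [show 2 * Real.pi / 3 = Real.pi - Real.pi / 3 by ring, Real.cos_pi_sub, Real.cos_pi_div_three]
    ring
  exact this

lemma om_im : om.im = -(Real.sqrt 3 / 2) := by
  unfold om
  rw [show (Real.pi * I * ((-2 / 3 : ℝ) : ℂ)) = ((-(2 * Real.pi / 3) : ℝ) : ℂ) * I by push_cast; ring]
  rw [Complex.exp_ofReal_mul_I_im, Real.sin_neg]
  have : Real.sin (2 * Real.pi / 3) = Real.sqrt 3 / 2 := by
    rw [show 2 * Real.pi / 3 = Real.pi - Real.pi / 3 by ring, Real.sin_pi_sub, Real.sin_pi_div_three]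
  rw [this]

lemma om_im_ne : om.im ≠ 0 := by
  rw [om_im]
  have : 0 < Real.sqrt 3 := Real.sqrt_pos.2 (by norm_num)
  intro h
  linarith

lemma om_ne_one : om ≠ 1 := by
  intro h
  apply om_im_ne
  rw [h]
  simp

lemma om_sum : 1 + om + om ^ 2 = 0 := by
  have h : (om - 1) * (1 + om + om ^ 2) = 0 := by linear_combination om_cube
  rcases mul_eq_zero.1 h with h | h
  · exact absurd (sub_eq_zero.1 h) om_ne_one
  · exact h

/-- value of one factor on the real line -/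
lemma factor_pos {u b : ℝ} (h : b < u) : ((u : ℂ) - b) ^ ((-2 / 3 : ℝ) : ℂ) = ((|u - b| ^ (-2 / 3 : ℝ) : ℝ) : ℂ) := by
  rw [abs_of_pos (by linarith), Complex.ofReal_cpow (by linarith)]
  push_cast
  rfl

lemma factor_neg {u b : ℝ} (h : u < b) : ((u : ℂ) - b) ^ ((-2 / 3 : ℝ) : ℂ) =
    om * ((|u - b| ^ (-2 / 3 : ℝ) : ℝ) : ℂ) := by
  have h1 : 0 < b - u := by linarith
  rw [show ((u : ℂ) - b) = ((-(b - u) : ℝ) : ℂ) by push_cast; ring]
  rw [Complex.ofReal_cpow_of_nonpos (by linarith)]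
  rw [abs_of_neg (by linarith : u - b < 0)]
  rw [show (-((-(b - u) : ℝ) : ℂ)) = ((b - u : ℝ) : ℂ) by push_cast; ring, ← Complex.ofReal_cpow h1.le]
  rw [show -(u - b) = b - u by ring]
  unfold om
  rw [mul_comm]

variable {a : Fin 3 → ℝ}

lemma f3_gt (h01 : a 0 < a 1) (h12 : a 1 < a 2) {u : ℝ} (hu : a 2 < u) : f3 a u = (sg3 a u : ℂ) := by
  unfold f3 sg3
  rw [Fin.prod_univ_three, Fin.prod_univ_three, factor_pos (by linarith), factor_pos (by linarith),
    factor_pos hu]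
  push_cast
  ring

lemma f3_12 (h01 : a 0 < a 1) {u : ℝ} (hu : a 1 < u) (hu' : u < a 2) :
    f3 a u = om * (sg3 a u : ℂ) := by
  unfold f3 sg3
  rw [Fin.prod_univ_three, Fin.prod_univ_three, factor_pos (by linarith), factor_pos (by linarith),
    factor_neg hu']
  push_cast
  ring

lemma f3_01 (h12 : a 1 < a 2) {u : ℝ} (hu : a 0 < u) (hu' : u < a 1) :
    f3 a u = om ^ 2 * (sg3 a u : ℂ) := by
  unfold f3 sg3
  rw [Fin.prod_univ_three, Fin.prod_univ_three, factor_pos (by linarith), factor_neg (by linarith),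
    factor_neg (by linarith)]
  push_cast
  ring

lemma f3_lt (h01 : a 0 < a 1) (h12 : a 1 < a 2) {u : ℝ} (hu : u < a 0) :
    f3 a u = (sg3 a u : ℂ) := by
  unfold f3 sg3
  rw [Fin.prod_univ_three, Fin.prod_univ_three, factor_neg (by linarith), factor_neg (by linarith),
    factor_neg (by linarith)]
  push_cast
  linear_combination (((|u - a 0| ^ (-2 / 3 : ℝ) : ℝ) : ℂ) * ((|u - a 1| ^ (-2 / 3 : ℝ) : ℝ) : ℂ) *
    ((|u - a 2| ^ (-2 / 3 : ℝ) : ℝ) : ℂ)) * om_cube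

lemma F3_real (a : Fin 3 → ℝ) (x : ℝ) : F3 a x = -∫ u in Ioi x, f3 a u := by
  unfold F3
  simp

lemma F3_sub (ha : Function.Injective a) {p q : ℝ} (hpq : p ≤ q) :
    F3 a q - F3 a p = ∫ u in p..q, f3 a u := by
  have hi : Integrable (fun u : ℝ => f3 a (u : ℂ)) := by
    have := f3_integrable a ha 0
    simpa using this
  rw [F3_real, F3_real, intervalIntegral.integral_of_le hpq]
  have h1 : ∫ u in Ioi p, f3 a (u : ℂ) = (∫ u in Ioc p q, f3 a (u : ℂ)) + ∫ u in Ioi q, f3 a (u : ℂ) := by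
    rw [← setIntegral_union (Ioc_disjoint_Ioi le_rfl) measurableSet_Ioi hi.integrableOn hi.integrableOn,
      Ioc_union_Ioi_eq_Ioi hpq]
  rw [h1]
  ring

/-- increments of the triangle map on an interval where the phase is constant -/
lemma F3_sub_phase (ha : Function.Injective a) {p q : ℝ} (hpq : p ≤ q) {c : ℂ}
    (hc : ∀ u ∈ Ioo p q, f3 a u = c * (sg3 a u : ℂ)) :
    F3 a q - F3 a p = c * ((∫ u in p..q, sg3 a u : ℝ) : ℂ) := by
  rw [F3_sub ha hpq, ← intervalIntegral.integral_ofReal, ← intervalIntegral.integral_const_mul]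
  rw [intervalIntegral.integral_of_le hpq, intervalIntegral.integral_of_le hpq,
    integral_Ioc_eq_integral_Ioo, integral_Ioc_eq_integral_Ioo]
  exact setIntegral_congr_fun measurableSet_Ioo hc

lemma inj_of_lt (h01 : a 0 < a 1) (h12 : a 1 < a 2) : Function.Injective a := by
  have h02 : a 0 < a 2 := h01.trans h12
  intro i j h
  fin_cases i <;> fin_cases j <;> simp at h ⊢ <;> linarith

/-- the real density in the notation of `ratio_cardy` -/
lemma sg3_sig (b0 : ℝ) (u : ℝ) : sg3 a u = sig ![b0, a 0, a 1, a 2] u := by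
  rw [sig_eq]
  unfold sg3
  rw [Fin.prod_univ_three]

lemma int_mid (h01 : a 0 < a 1) (h12 : a 1 < a 2) : ∫ s in (0 : ℝ)..1, bet s =
    ((a 2 - a 1) * (a 2 - a 0) * (a 1 - a 0)) ^ (1 / 3 : ℝ) * ∫ u in a 0..a 1, sg3 a u := by
  rw [arc_mid (a0 := 0) h01 h12]
  congr 1
  exact intervalIntegral.integral_congr fun u _ => (sg3_sig 0 u).symm

lemma int_right (h01 : a 0 < a 1) (h12 : a 1 < a 2) : ∫ s in (0 : ℝ)..1, bet s =
    ((a 2 - a 1) * (a 2 - a 0) * (a 1 - a 0)) ^ (1 / 3 : ℝ) * ∫ u in a 1..a 2, sg3 a u := by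
  have h := arc_mid (a0 := 0) (a1 := -a 2) (a2 := -a 1) (a3 := -a 0) (by linarith) (by linarith)
  rw [h]
  have e1 : ((-a 0 - -a 1) * (-a 0 - -a 2) * (-a 1 - -a 2)) =
      ((a 2 - a 1) * (a 2 - a 0) * (a 1 - a 0)) := by ring
  rw [e1]
  congr 1
  rw [← intervalIntegral.integral_comp_neg]
  apply intervalIntegral.integral_congr
  intro u _
  simp only
  rw [sig_eq]
  unfold sg3
  rw [Fin.prod_univ_three, show -u - -a 2 = -(u - a 2) by ring, show -u - -a 1 = -(u - a 1) by ring,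
    show -u - -a 0 = -(u - a 0) by ring, abs_neg, abs_neg, abs_neg]
  ring

/-- the side of the triangle -/
def sd3 (a : Fin 3 → ℝ) : ℝ := ∫ u in a 0..a 1, sg3 a u

lemma sd3_pos (h01 : a 0 < a 1) (h12 : a 1 < a 2) : 0 < sd3 a := by
  unfold sd3
  have h := int_mid h01 h12
  have hb := Pool.Agent.H13.Q1.Four.bet_total_pos
  have hK : 0 < ((a 2 - a 1) * (a 2 - a 0) * (a 1 - a 0)) ^ (1 / 3 : ℝ) := by
    apply Real.rpow_pos_of_pos
    have h1 : 0 < a 2 - a 1 := by linarith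
    have h2 : 0 < a 2 - a 0 := by linarith
    have h3 : 0 < a 1 - a 0 := by linarith
    positivity
  rw [h] at hb
  exact (mul_pos_iff_of_pos_left hK).1 hb

lemma sd3_right (h01 : a 0 < a 1) (h12 : a 1 < a 2) : ∫ u in a 1..a 2, sg3 a u = sd3 a := by
  have h1 := int_mid h01 h12
  have h2 := int_right h01 h12
  have hK : ((a 2 - a 1) * (a 2 - a 0) * (a 1 - a 0)) ^ (1 / 3 : ℝ) ≠ 0 := by
    apply (Real.rpow_pos_of_pos _ _).ne'
    have h1 : 0 < a 2 - a 1 := by linarith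
    have h2 : 0 < a 2 - a 0 := by linarith
    have h3 : 0 < a 1 - a 0 := by linarith
    positivity
  rw [h1] at h2
  exact (mul_left_cancel₀ hK h2).symm

/-- **corners of the triangle** -/
lemma F3_12 (h01 : a 0 < a 1) (h12 : a 1 < a 2) : F3 a (a 2) - F3 a (a 1) = om * sd3 a := by
  rw [F3_sub_phase (inj_of_lt h01 h12) h12.le (c := om) (fun _ hu => f3_12 h01 hu.1 hu.2),
    sd3_right h01 h12]

lemma F3_01 (h01 : a 0 < a 1) (h12 : a 1 < a 2) : F3 a (a 1) - F3 a (a 0) = om ^ 2 * sd3 a := by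
  rw [F3_sub_phase (inj_of_lt h01 h12) h01.le (c := om ^ 2) (fun _ hu => f3_01 h12 hu.1 hu.2)]
  rfl

lemma F3_02 (h01 : a 0 < a 1) (h12 : a 1 < a 2) : F3 a (a 0) - F3 a (a 2) = sd3 a := by
  have h1 := F3_12 h01 h12
  have h2 := F3_01 h01 h12
  linear_combination -h1 - h2 - (sd3 a : ℂ) * om_sum

/-- the arc left of `a 0` -/
lemma F3_left (h01 : a 0 < a 1) (h12 : a 1 < a 2) {x : ℝ} (hx : x < a 0) :
    F3 a x = F3 a (a 0) + (cardy ((a 0 - x) * (a 2 - a 1) / ((a 1 - x) * (a 2 - a 0))) : ℝ) *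
      (F3 a (a 2) - F3 a (a 0)) := by
  have h1 := F3_sub_phase (inj_of_lt h01 h12) hx.le (c := 1)
    (fun _ hu => by rw [f3_lt h01 h12 hu.2, one_mul])
  have h2 := F3_02 h01 h12
  have h3 : ∫ u in x..a 0, sg3 a u =
      cardy ((a 0 - x) * (a 2 - a 1) / ((a 1 - x) * (a 2 - a 0))) * sd3 a := by
    have h4 := Pool.Agent.H13.Q1.Four.ratio_cardy hx h01 h12
    have h5 : ∫ u in x..a 0, sig ![x, a 0, a 1, a 2] u = ∫ u in x..a 0, sg3 a u :=
      intervalIntegral.integral_congr fun u _ => (sg3_sig x u).symm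
    have h6 : ∫ u in a 0..a 1, sig ![x, a 0, a 1, a 2] u = sd3 a :=
      intervalIntegral.integral_congr fun u _ => (sg3_sig x u).symm
    rw [h5, h6] at h4
    rw [← h4, div_mul_cancel₀ _ (sd3_pos h01 h12).ne']
  rw [h3] at h1
  push_cast at h1
  linear_combination -h1 + (cardy ((a 0 - x) * (a 2 - a 1) / ((a 1 - x) * (a 2 - a 0))) : ℂ) * h2

/-- the arc right of `a 2` -/
lemma F3_right (h01 : a 0 < a 1) (h12 : a 1 < a 2) {x : ℝ} (hx : a 2 < x) :
    F3 a x = F3 a (a 2) + (cardy ((a 1 - a 0) * (x - a 2) / ((a 2 - a 0) * (x - a 1))) : ℝ) *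
      (F3 a (a 0) - F3 a (a 2)) := by
  have h1 := F3_sub_phase (inj_of_lt h01 h12) hx.le (c := 1)
    (fun _ hu => by rw [f3_gt h01 h12 hu.1, one_mul])
  have h2 := F3_02 h01 h12
  have h3 : ∫ u in a 2..x, sg3 a u =
      cardy ((a 1 - a 0) * (x - a 2) / ((a 2 - a 0) * (x - a 1))) * sd3 a := by
    have h4 := Pool.Agent.H13.Q1.Four.ratio_cardy (a0 := -x) (a1 := -a 2) (a2 := -a 1) (a3 := -a 0)
      (by linarith) (by linarith) (by linarith)
    have e : ∀ p q : ℝ, ∫ u in (-q)..(-p), sig ![-x, -a 2, -a 1, -a 0] u = ∫ u in p..q, sg3 a u := by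
      intro p q
      rw [← intervalIntegral.integral_comp_neg]
      apply intervalIntegral.integral_congr
      intro u _
      simp only
      rw [sig_eq]
      unfold sg3
      rw [Fin.prod_univ_three, show -u - -a 2 = -(u - a 2) by ring, show -u - -a 1 = -(u - a 1) by ring,
        show -u - -a 0 = -(u - a 0) by ring, abs_neg, abs_neg, abs_neg]
      ring
    rw [e, e, sd3_right h01 h12] at h4
    have e2 : (-a 2 - -x) * (-a 0 - -a 1) / ((-a 1 - -x) * (-a 0 - -a 2)) =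
        (a 1 - a 0) * (x - a 2) / ((a 2 - a 0) * (x - a 1)) := by
      congr 1 <;> ring
    rw [e2] at h4
    rw [← h4, div_mul_cancel₀ _ (sd3_pos h01 h12).ne']
  rw [h3] at h1
  push_cast at h1
  linear_combination h1 - (cardy ((a 1 - a 0) * (x - a 2) / ((a 2 - a 0) * (x - a 1))) : ℂ) * h2

/-- lines: left of `a 0` -/
lemma F3_line_left (h01 : a 0 < a 1) (h12 : a 1 < a 2) {x : ℝ} (hx : x < a 0) :
    ∃ r : ℝ, F3 a x - F3 a (a 0) = r := by
  refine ⟨-∫ u in x..a 0, sg3 a u, ?_⟩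
  have h1 := F3_sub_phase (inj_of_lt h01 h12) hx.le (c := 1)
    (fun _ hu => by rw [f3_lt h01 h12 hu.2, one_mul])
  push_cast at h1 ⊢
  linear_combination -h1

/-- lines: right of `a 2` -/
lemma F3_line_right (h01 : a 0 < a 1) (h12 : a 1 < a 2) {x : ℝ} (hx : a 2 < x) :
    ∃ r : ℝ, F3 a x - F3 a (a 0) = r := by
  refine ⟨(∫ u in a 2..x, sg3 a u) - sd3 a, ?_⟩
  have h1 := F3_sub_phase (inj_of_lt h01 h12) hx.le (c := 1)
    (fun _ hu => by rw [f3_gt h01 h12 hu.1, one_mul])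
  have h2 := F3_02 h01 h12
  push_cast at h1 ⊢
  linear_combination h1 - h2

lemma F3_line_01 (h01 : a 0 < a 1) (h12 : a 1 < a 2) {x : ℝ} (hx : a 0 < x) (hx' : x < a 1) :
    ∃ r : ℝ, F3 a x - F3 a (a 0) = om ^ 2 * r :=
  ⟨_, F3_sub_phase (inj_of_lt h01 h12) hx.le (c := om ^ 2)
    (fun _ hu => f3_01 h12 hu.1 (hu.2.trans hx'))⟩

lemma F3_line_12 (h01 : a 0 < a 1) (h12 : a 1 < a 2) {x : ℝ} (hx : a 1 < x) (hx' : x < a 2) :
    ∃ r : ℝ, F3 a x - F3 a (a 1) = om * r :=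
  ⟨_, F3_sub_phase (inj_of_lt h01 h12) hx.le (c := om)
    (fun _ hu => f3_12 h01 hu.1 (hu.2.trans hx'))⟩

end Pool.Agent.H74.W
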