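import Mathlib
import Pool.Agent.H74.W.Tri3
import Pool.Agent.H19.RH.Refl

set_option autoImplicit false

/-! Route W, S4: uniqueness in the half plane (cube trick) and Cardy's value. -/

open Complex Metric Set Topology Filter MeasureTheory

noncomputable section

namespace Pool.Agent.H74.W

open H87.FM (CH)
open Pool.Agent.H19.RH (UP isOpen_UP RX rx_of_growth const_of_limits nhdsUP_neBot)
open Pool.Agent.H13.Q1.Four (cardy)

lemma RX_limit {f : ℂ → ℂ} {x : ℝ} (h : RX f x) : ∃ v : ℝ, Tendsto f (𝓝[UP] (x : ℂ)) (𝓝 (v : ℂ)) := by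
  obtain ⟨r, hr, g, hg, h1, h2⟩ := h
  refine ⟨(g x).re, ?_⟩
  have hx : (x : ℂ) ∈ ball (x : ℂ) r := mem_ball_self hr
  have h3 : ((g x).re : ℂ) = g x := by
    apply Complex.ext
    · simp
    · rw [ofReal_im, h2 x hx]
  rw [h3]
  have h4 : Tendsto g (𝓝[UP] (x : ℂ)) (𝓝 (g x)) :=
    ((hg.differentiableAt (isOpen_ball.mem_nhds hx)).continuousAt.tendsto).mono_left nhdsWithin_le_nhds
  refine h4.congr' ?_
  filter_upwards [self_mem_nhdsWithin, mem_nhdsWithin_of_mem_nhds (ball_mem_nhds (x : ℂ) hr)] with z hz hz'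
  exact h1 z hz' hz

lemma isPreconnected_UP : IsPreconnected UP := by
  have : Convex ℝ UP := by
    have h : UP = {z : ℂ | 0 < z.im} := rfl
    rw [h]
    exact convex_halfSpace_im_gt 0
  exact this.isPreconnected

/-- **Uniqueness in the half plane.** -/
theorem half_unique {D : ℂ → ℂ} (hd : DifferentiableOn ℂ D UP) {C : ℝ} (hb : ∀ z ∈ UP, ‖D z‖ ≤ C)
    (E : Finset ℝ) {c : ℂ} (hc : c ≠ 0) {b0 b1 : ℝ} (h01 : b0 < b1)
    (h3 : ∀ y : ℝ, y ∉ E → ∃ w : ℂ, w ^ 3 = 1 ∧ ∃ r : ℝ, Tendsto D (𝓝[UP] (y : ℂ)) (𝓝 (c * w * r)))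
    (hl : ∀ y : ℝ, y ∉ E → y < b0 → ∃ r : ℝ, Tendsto D (𝓝[UP] (y : ℂ)) (𝓝 (c * r)))
    (hm : ∀ y : ℝ, y ∉ E → b0 < y → y < b1 → ∃ r : ℝ, Tendsto D (𝓝[UP] (y : ℂ)) (𝓝 (c * om ^ 2 * r))) :
    ∀ z ∈ UP, D z = 0 := by
  set f : ℂ → ℂ := fun z => (D z / c) ^ 3 with hf
  have hfd : DifferentiableOn ℂ f UP := (hd.div_const c).pow 3
  have hfb : ∀ z ∈ UP, ‖f z‖ ≤ (C / ‖c‖) ^ 3 := by
    intro z hz
    simp only [hf, norm_pow, norm_div]
    have h1 := hb z hz
    have h2 : 0 < ‖c‖ := norm_pos_iff.2 hc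
    gcongr
  have hlim0 : ∀ y : ℝ, y ∉ E → ∃ v : ℝ, Tendsto f (𝓝[UP] (y : ℂ)) (𝓝 (v : ℂ)) := by
    intro y hy
    obtain ⟨w, hw, r, hr⟩ := h3 y hy
    refine ⟨r ^ 3, ?_⟩
    have h4 := (hr.div_const c).pow 3
    have e : (c * w * r / c) ^ 3 = ((r ^ 3 : ℝ) : ℂ) := by
      rw [show c * w * r / c = w * r by field_simp, mul_pow, hw, one_mul]
      push_cast
      rfl
    rw [e] at h4
    exact h4
  have hlim : ∀ y : ℝ, ∃ v : ℝ, Tendsto f (𝓝[UP] (y : ℂ)) (𝓝 (v : ℂ)) := by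
    intro y
    by_cases hy : y ∉ E
    · exact hlim0 y hy
    apply RX_limit
    -- a ball without other exceptional points
    obtain ⟨r, hr, hr'⟩ : ∃ r > 0, ∀ x ∈ E, x ≠ y → r ≤ |x - y| := by
      have h1 : ((↑(E.erase y) : Set ℝ))ᶜ ∈ 𝓝 y :=
        (E.erase y).finite_toSet.isClosed.isOpen_compl.mem_nhds (by simp)
      obtain ⟨r, hr, h2⟩ := Metric.mem_nhds_iff.1 h1
      refine ⟨r, hr, fun x hx hxy => ?_⟩
      by_contra hlt
      have h5 : x ∈ ball y r := by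
        rw [mem_ball, Real.dist_eq]
        linarith
      exact h2 h5 (by simp [hx, hxy])
    refine rx_of_growth hr (hfd.mono inter_subset_right) ?_ ?_
    · intro t ht hty
      apply hlim0
      intro htE
      have h1 := hr' t htE hty
      rw [mem_ball, Complex.dist_eq, ← ofReal_sub, Complex.norm_real, Real.norm_eq_abs] at ht
      linarith
    · have h1 : Tendsto (fun z : ℂ => z - (y : ℂ)) (𝓝[UP] (y : ℂ)) (𝓝 0) := by
        have : Tendsto (fun z : ℂ => z - (y : ℂ)) (𝓝 (y : ℂ)) (𝓝 ((y : ℂ) - y)) :=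
          (continuous_id.sub continuous_const).tendsto _
        rw [sub_self] at this
        exact this.mono_left nhdsWithin_le_nhds
      apply Filter.Tendsto.zero_mul_isBoundedUnder_le h1
      refine ⟨(C / ‖c‖) ^ 3, ?_⟩
      rw [eventually_map]
      filter_upwards [self_mem_nhdsWithin] with z hz
      exact hfb z hz
  obtain ⟨k, hk⟩ := const_of_limits hfd hlim (C := (C / ‖c‖) ^ 3) (R := 0) fun z hz _ => hfb z hz
  -- `D` is constant
  have hconst : ∃ d : ℂ, ∀ z ∈ UP, D z = d := by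
    by_cases hk0 : k = 0
    · refine ⟨0, fun z hz => ?_⟩
      have h1 := hk z hz
      rw [hk0, ofReal_zero] at h1
      have h2 : D z / c = 0 := pow_eq_zero_iff (n := 3) (by norm_num) |>.1 h1
      rcases div_eq_zero_iff.1 h2 with h | h
      · exact h
      · exact absurd h hc
    · have hder : UP.EqOn (deriv D) 0 := by
        intro z hz
        have hDz : DifferentiableAt ℂ D z := hd.differentiableAt (isOpen_UP.mem_nhds hz)
        have h1 : HasDerivAt f (3 * (D z / c) ^ 2 * (deriv D z / c)) z := by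
          have := (hDz.hasDerivAt.div_const c).fun_pow 3
          simpa using this
        have h2 : HasDerivAt f 0 z := by
          have h4 : f =ᶠ[𝓝 z] fun _ => (k : ℂ) := by
            filter_upwards [isOpen_UP.mem_nhds hz] with w hw
            exact hk w hw
          exact (hasDerivAt_const z (k : ℂ)).congr_of_eventuallyEq h4
        have h5 := h1.unique h2
        have h6 : D z / c ≠ 0 := by
          intro h
          have := hk z hz
          simp only [hf] at this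
          rw [h] at this
          apply hk0
          have h7 : (k : ℂ) = 0 := by rw [← this]; norm_num
          exact_mod_cast h7
        have h7 : deriv D z / c = 0 := by
          rcases mul_eq_zero.1 h5 with h | h
          · exact absurd h (mul_ne_zero (by norm_num) (pow_ne_zero 2 h6))
          · exact h
        rcases div_eq_zero_iff.1 h7 with h | h
        · exact h
        · exact absurd h hc
      obtain ⟨d, hd'⟩ := IsOpen.exists_is_const_of_deriv_eq_zero isOpen_UP isPreconnected_UP hd hder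
      exact ⟨d, hd'⟩
  obtain ⟨d, hd'⟩ := hconst
  have hdl : ∀ (y : ℝ) (L : ℂ), Tendsto D (𝓝[UP] (y : ℂ)) (𝓝 L) → d = L := by
    intro y L hL
    have hne : (𝓝[UP] (y : ℂ)).NeBot := nhdsUP_neBot (by simp)
    refine tendsto_nhds_unique (tendsto_const_nhds.congr' ?_) hL
    filter_upwards [self_mem_nhdsWithin] with z hz
    exact (hd' z hz).symm
  obtain ⟨y1, hy1, hy1E⟩ := (Set.Iio_infinite b0).exists_notMem_finset E
  obtain ⟨y2, hy2, hy2E⟩ := (Set.Ioo_infinite h01).exists_notMem_finset E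
  obtain ⟨r1, hr1⟩ := hl y1 hy1E hy1
  obtain ⟨r2, hr2⟩ := hm y2 hy2E hy2.1 hy2.2
  have e1 := hdl _ _ hr1
  have e2 := hdl _ _ hr2
  have e3 : (r1 : ℂ) = om ^ 2 * r2 := by
    apply mul_left_cancel₀ hc
    rw [← e1, e2]
    ring
  have e4 : r2 = 0 := by
    have h1 := congrArg Complex.im e3
    have h2 : om ^ 2 = -1 - om := by linear_combination om_sum
    rw [h2] at h1
    simp at h1
    rcases h1 with h | h
    · exact absurd h om_im_ne
    · exact h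
  intro z hz
  rw [hd' z hz, e2, e4]
  simp

variable {a : Fin 3 → ℝ}

/-- **The solution in the half plane is an affine function of the triangle map.** -/
theorem half_eq (h01 : a 0 < a 1) (h12 : a 1 < a 2) {H : ℂ → ℂ} (hd : DifferentiableOn ℂ H UP)
    {C : ℝ} (hb : ∀ z ∈ UP, ‖H z‖ ≤ C) (E : Finset ℝ) {v0 v1 v2 : ℂ} (hv : v1 - v0 = -om ^ 2 * (v2 - v0))
    (hv0 : v2 ≠ v0)
    (ho : ∀ y : ℝ, y ∉ E → y < a 0 ∨ a 2 < y →
      ∃ r : ℝ, Tendsto H (𝓝[UP] (y : ℂ)) (𝓝 (v0 + (v2 - v0) * r)))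
    (h1 : ∀ y : ℝ, y ∉ E → a 0 < y → y < a 1 →
      ∃ r : ℝ, Tendsto H (𝓝[UP] (y : ℂ)) (𝓝 (v0 + (v1 - v0) * r)))
    (h2 : ∀ y : ℝ, y ∉ E → a 1 < y → y < a 2 →
      ∃ r : ℝ, Tendsto H (𝓝[UP] (y : ℂ)) (𝓝 (v1 + (v2 - v1) * r)))
    {x : ℝ} {L : ℂ} (hL : Tendsto H (𝓝[UP] (x : ℂ)) (𝓝 L)) :
    L = v0 - (v2 - v0) / (sd3 a) * (F3 a x - F3 a (a 0)) := by
  have ha := inj_of_lt h01 h12
  set s : ℝ := sd3 a with hs
  have hs0 : 0 < s := sd3_pos h01 h12
  have hsc : (s : ℂ) ≠ 0 := by exact_mod_cast hs0.ne'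
  set c : ℂ := v2 - v0 with hcdef
  have hc : c ≠ 0 := sub_ne_zero.2 hv0
  set G : ℂ → ℂ := fun z => v0 - c / s * (F3 a z - F3 a (a 0)) with hG
  have hGd : DifferentiableOn ℂ G UP := by
    intro z hz
    have h3 := F3_diff a (z0 := z) hz
    exact (((h3.sub_const _).const_mul _).const_sub v0).differentiableWithinAt
  have hGlim : ∀ y : ℝ, Tendsto G (𝓝[UP] (y : ℂ)) (𝓝 (G y)) := by
    intro y
    have h3 : ContinuousWithinAt (F3 a) CH (y : ℂ) := F3_cont a ha _ (show 0 ≤ (y : ℂ).im by simp)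
    have h4 : Tendsto (F3 a) (𝓝[UP] (y : ℂ)) (𝓝 (F3 a y)) :=
      h3.tendsto.mono_left (nhdsWithin_mono _ fun z hz => le_of_lt (show 0 < z.im from hz))
    exact ((h4.sub_const _).const_mul _).const_sub v0
  have hFb := F3_bdd a ha
  set D : ℂ → ℂ := fun z => H z - G z with hD
  have hDd : DifferentiableOn ℂ D UP := hd.sub hGd
  set B : ℝ := ∫ u, sg3 a u with hB
  have hDb : ∀ z ∈ UP, ‖D z‖ ≤ C + (‖v0‖ + ‖c / s‖ * (B + B)) := by
    intro z hz
    refine (norm_sub_le _ _).trans (add_le_add (hb z hz) ?_)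
    refine (norm_sub_le _ _).trans (add_le_add le_rfl ?_)
    rw [norm_mul]
    apply mul_le_mul_of_nonneg_left _ (norm_nonneg _)
    exact (norm_sub_le _ _).trans (add_le_add (hFb z) (hFb _))
  have key1 : ∀ y : ℝ, y ∉ E → y < a 0 ∨ a 2 < y → ∃ r : ℝ, Tendsto D (𝓝[UP] (y : ℂ)) (𝓝 (c * r)) := by
    intro y hy hy'
    obtain ⟨r, hr⟩ := ho y hy hy'
    obtain ⟨ρ, hρ⟩ : ∃ ρ : ℝ, F3 a y - F3 a (a 0) = ρ := by
      rcases hy' with h | h
      · exact F3_line_left h01 h12 h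
      · exact F3_line_right h01 h12 h
    refine ⟨r + ρ / s, ?_⟩
    have h3 := hr.sub (hGlim y)
    have e : v0 + c * r - G y = c * ((r + ρ / s : ℝ) : ℂ) := by
      simp only [hG]
      rw [hρ]
      push_cast
      field_simp
      ring
    rw [e] at h3
    exact h3
  have key2 : ∀ y : ℝ, y ∉ E → a 0 < y → y < a 1 →
      ∃ r : ℝ, Tendsto D (𝓝[UP] (y : ℂ)) (𝓝 (c * om ^ 2 * r)) := by
    intro y hy hy0 hy1
    obtain ⟨r, hr⟩ := h1 y hy hy0 hy1
    obtain ⟨ρ, hρ⟩ := F3_line_01 h01 h12 hy0 hy1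
    refine ⟨-r + ρ / s, ?_⟩
    have h3 := hr.sub (hGlim y)
    have e : v0 + (v1 - v0) * r - G y = c * om ^ 2 * ((-r + ρ / s : ℝ) : ℂ) := by
      simp only [hG]
      rw [hρ, hv]
      push_cast
      field_simp
      ring
    rw [e] at h3
    exact h3
  have key3 : ∀ y : ℝ, y ∉ E → a 1 < y → y < a 2 →
      ∃ r : ℝ, Tendsto D (𝓝[UP] (y : ℂ)) (𝓝 (c * om * r)) := by
    intro y hy hy0 hy1
    obtain ⟨r, hr⟩ := h2 y hy hy0 hy1
    obtain ⟨ρ, hρ⟩ := F3_line_12 h01 h12 hy0 hy1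
    refine ⟨-r + ρ / s, ?_⟩
    have h3 := hr.sub (hGlim y)
    have h4 := F3_01 h01 h12
    have h5 : F3 a y - F3 a (a 0) = om ^ 2 * s + om * ρ := by
      linear_combination hρ + h4
    have h6 : v1 = v0 - om ^ 2 * c := by linear_combination hv
    have h7 : v2 = v0 + c := by rw [hcdef]; ring
    have e : v1 + (v2 - v1) * r - G y = c * om * ((-r + ρ / s : ℝ) : ℂ) := by
      simp only [hG]
      rw [h5, h6, h7]
      push_cast
      field_simp
      linear_combination c * (s : ℂ) * r * om_sum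
    rw [e] at h3
    exact h3
  have hzero := half_unique hDd hDb (E ∪ {a 0, a 1, a 2}) hc h01 ?_ ?_ ?_
  · have hne : (𝓝[UP] (x : ℂ)).NeBot := nhdsUP_neBot (by simp)
    have h3 : Tendsto G (𝓝[UP] (x : ℂ)) (𝓝 L) := by
      refine hL.congr' ?_
      filter_upwards [self_mem_nhdsWithin] with z hz
      have := hzero z hz
      simp only [hD] at this
      exact sub_eq_zero.1 this
    exact tendsto_nhds_unique h3 (hGlim x)
  · intro y hy
    simp only [Finset.mem_union, Finset.mem_insert, Finset.mem_singleton, not_or] at hy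
    obtain ⟨hyE, hy0, hy1, hy2⟩ := hy
    rcases lt_trichotomy y (a 0) with h | h | h
    · obtain ⟨r, hr⟩ := key1 y hyE (Or.inl h)
      exact ⟨1, by norm_num, r, by simpa using hr⟩
    · exact absurd h hy0
    rcases lt_trichotomy y (a 1) with h' | h' | h'
    · obtain ⟨r, hr⟩ := key2 y hyE h h'
      exact ⟨om ^ 2, by rw [← pow_mul, mul_comm, pow_mul, om_cube, one_pow], r, hr⟩
    · exact absurd h' hy1
    rcases lt_trichotomy y (a 2) with h'' | h'' | h''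
    · obtain ⟨r, hr⟩ := key3 y hyE h' h''
      exact ⟨om, om_cube, r, hr⟩
    · exact absurd h'' hy2
    · obtain ⟨r, hr⟩ := key1 y hyE (Or.inr h'')
      exact ⟨1, by norm_num, r, by simpa using hr⟩
  · intro y hy hy'
    simp only [Finset.mem_union, not_or] at hy
    exact key1 y hy.1 (Or.inl hy')
  · intro y hy hy0 hy1
    simp only [Finset.mem_union, not_or] at hy
    exact key2 y hy.1 hy0 hy1

/-- **Cardy's value in the half plane**, left of the corners. -/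
theorem half_value (h01 : a 0 < a 1) (h12 : a 1 < a 2) {H : ℂ → ℂ} (hd : DifferentiableOn ℂ H UP)
    {C : ℝ} (hb : ∀ z ∈ UP, ‖H z‖ ≤ C) (E : Finset ℝ) {v0 v1 v2 : ℂ} (hv : v1 - v0 = -om ^ 2 * (v2 - v0))
    (hv0 : v2 ≠ v0)
    (ho : ∀ y : ℝ, y ∉ E → y < a 0 ∨ a 2 < y →
      ∃ r : ℝ, Tendsto H (𝓝[UP] (y : ℂ)) (𝓝 (v0 + (v2 - v0) * r)))
    (h1 : ∀ y : ℝ, y ∉ E → a 0 < y → y < a 1 →
      ∃ r : ℝ, Tendsto H (𝓝[UP] (y : ℂ)) (𝓝 (v0 + (v1 - v0) * r)))
    (h2 : ∀ y : ℝ, y ∉ E → a 1 < y → y < a 2 →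
      ∃ r : ℝ, Tendsto H (𝓝[UP] (y : ℂ)) (𝓝 (v1 + (v2 - v1) * r)))
    {x : ℝ} (hx : x < a 0) {L : ℂ} (hL : Tendsto H (𝓝[UP] (x : ℂ)) (𝓝 L)) :
    L = v0 + (v2 - v0) * (cardy ((a 0 - x) * (a 2 - a 1) / ((a 1 - x) * (a 2 - a 0))) : ℝ) := by
  rw [half_eq h01 h12 hd hb E hv hv0 ho h1 h2 hL]
  have hsc : (sd3 a : ℂ) ≠ 0 := by exact_mod_cast (sd3_pos h01 h12).ne'
  have h5 := F3_left h01 h12 hx
  have h6 := F3_02 h01 h12
  rw [h5, show F3 a (a 2) = F3 a (a 0) - sd3 a by linear_combination -h6]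
  field_simp
  ring

/-- **Cardy's value in the half plane**, right of the corners. -/
theorem half_value_right (h01 : a 0 < a 1) (h12 : a 1 < a 2) {H : ℂ → ℂ} (hd : DifferentiableOn ℂ H UP)
    {C : ℝ} (hb : ∀ z ∈ UP, ‖H z‖ ≤ C) (E : Finset ℝ) {v0 v1 v2 : ℂ} (hv : v1 - v0 = -om ^ 2 * (v2 - v0))
    (hv0 : v2 ≠ v0)
    (ho : ∀ y : ℝ, y ∉ E → y < a 0 ∨ a 2 < y →
      ∃ r : ℝ, Tendsto H (𝓝[UP] (y : ℂ)) (𝓝 (v0 + (v2 - v0) * r)))
    (h1 : ∀ y : ℝ, y ∉ E → a 0 < y → y < a 1 →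
      ∃ r : ℝ, Tendsto H (𝓝[UP] (y : ℂ)) (𝓝 (v0 + (v1 - v0) * r)))
    (h2 : ∀ y : ℝ, y ∉ E → a 1 < y → y < a 2 →
      ∃ r : ℝ, Tendsto H (𝓝[UP] (y : ℂ)) (𝓝 (v1 + (v2 - v1) * r)))
    {x : ℝ} (hx : a 2 < x) {L : ℂ} (hL : Tendsto H (𝓝[UP] (x : ℂ)) (𝓝 L)) :
    L = v2 + (v0 - v2) * (cardy ((a 1 - a 0) * (x - a 2) / ((a 2 - a 0) * (x - a 1))) : ℝ) := by
  rw [half_eq h01 h12 hd hb E hv hv0 ho h1 h2 hL]
  have hsc : (sd3 a : ℂ) ≠ 0 := by exact_mod_cast (sd3_pos h01 h12).ne'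
  have h5 := F3_right h01 h12 hx
  have h6 := F3_02 h01 h12
  rw [h5, show F3 a (a 2) = F3 a (a 0) - sd3 a by linear_combination -h6]
  field_simp
  ring

end Pool.Agent.H74.W
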