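import Mathlib
import Pool.Agent.H74.W.Tri4
import Pool.Agent.H19.RH.Back
import Pool.Agent.H35.W.Fin

set_option autoImplicit false

/-! Route W, S4: Cardy's value for the solution of the Smirnov boundary problem on a polygon. -/

open Complex Metric Set Topology Filter MeasureTheory

noncomputable section

namespace Pool.Agent.H74.W

open Pool.Agent.Q1.M4
open Pool.Agent.H19.RH
open Pool.Agent.H19.RH.Cht
open Pool.Agent.H69.Car (IsHalf HC HO)
open Pool.Agent.H13.Q1.Four (cardy)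
open Pool.Agent.H35.W (Cl OnSides)

variable {P : PType} {x y : ℤ → ℝ} {φ : ℂ → ℂ} {m2 m3 m4 : ℕ}

/-- the part of the boundary with parameters in `(p, q)` -/
def arcO (P : PType) (x y : ℤ → ℝ) (p q : ℝ) : Set ℂ := crv P x y '' Ioo p q

/-- limit of `H ∘ φ` at a real point -/
lemma comp_limit (C : Cht P x y φ) {H : ℂ → ℂ} {F : Finset ℂ} (hc : ContinuousOn H (Cl (Om P.Q x y) F))
    {t : ℝ} (ht : φ t ∉ F) : Tendsto (fun z => H (φ z)) (𝓝[UP] (t : ℂ)) (𝓝 (H (φ t))) := by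
  have h1 : φ t ∈ frontier (Om P.Q x y) := (C.half.mapsTo_real (isOpen_Om _ _ _) (x := t)).1
  have h2 : φ t ∈ Cl (Om P.Q x y) F := Or.inr ⟨h1, ht⟩
  have h3 := (hc _ h2).tendsto
  refine h3.comp (tendsto_nhdsWithin_iff.2 ⟨C.chart_limit t, ?_⟩)
  filter_upwards [self_mem_nhdsWithin] with z hz
  exact Or.inl (C.up_mem hz)

/-- **Cardy's value on a polygon.** `v0`, `v1`, `v2` = values at the marks `m2`, `m3`, `m4`. -/
theorem poly_value (C : Cht P x y φ) (h23 : m2 < m3) (h34 : m3 < m4) (h4N : m4 < P.N) {H : ℂ → ℂ}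
    {F : Finset ℂ} (hd : DifferentiableOn ℂ H (Om P.Q x y)) {C0 : ℝ}
    (hb : ∀ z ∈ Om P.Q x y, ‖H z‖ ≤ C0) (hc : ContinuousOn H (Cl (Om P.Q x y) F)) {v0 v1 v2 : ℂ}
    (hv : v1 - v0 = -om ^ 2 * (v2 - v0)) (hv0 : v2 ≠ v0)
    (h0 : ∀ z ∈ arcO P x y m2 m3, z ∉ F → ∃ r : ℝ, H z = v0 + (v1 - v0) * r)
    (h1 : ∀ z ∈ arcO P x y m3 m4, z ∉ F → ∃ r : ℝ, H z = v1 + (v2 - v1) * r)
    (h2 : ∀ z ∈ arcO P x y m4 (P.N + m2), z ∉ F → ∃ r : ℝ, H z = v0 + (v2 - v0) * r)
    (hp : pt x y (P.vert 0) ∉ F) (hm2 : 0 < m2) :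
    H (pt x y (P.vert 0)) = v0 + (v2 - v0) * (cardy (lam P x y m2 m3 m4 φ) : ℝ) := by
  classical
  have hN := two_le_N P
  have hNr : (2 : ℝ) ≤ P.N := by exact_mod_cast hN
  have r23 : (m2 : ℝ) < m3 := by exact_mod_cast h23
  have r34 : (m3 : ℝ) < m4 := by exact_mod_cast h34
  have r4N : (m4 : ℝ) + 1 ≤ P.N := by exact_mod_cast h4N
  have r2 : (0 : ℝ) < m2 := by exact_mod_cast hm2
  -- parameters
  have mem : ∀ k : ℕ, k + 1 ≤ P.N → ((P.N : ℝ) + k) ∈ Ioo (bt P) (bt P + P.N) := by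
    intro k hk
    have : (k : ℝ) + 1 ≤ P.N := by exact_mod_cast hk
    have hk0 : (0 : ℝ) ≤ k := Nat.cast_nonneg k
    unfold bt
    constructor <;> linarith
  have memN : (P.N : ℝ) ∈ Ioo (bt P) (bt P + P.N) := by simpa using mem 0 (by omega)
  have mem2 := mem m2 (by omega)
  have mem3 := mem m3 (by omega)
  have mem4 := mem m4 (by omega)
  set a : Fin 3 → ℝ := ![sg P x y φ (P.N + m2), sg P x y φ (P.N + m3), sg P x y φ (P.N + m4)] with ha
  have a0 : a 0 = sg P x y φ (P.N + m2) := rfl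
  have a1 : a 1 = sg P x y φ (P.N + m3) := rfl
  have a2 : a 2 = sg P x y φ (P.N + m4) := rfl
  have hmono := C.sg_mono
  have h01 : a 0 < a 1 := by
    rw [a0, a1]
    exact hmono mem2 mem3 (by linarith)
  have h12 : a 1 < a 2 := by
    rw [a1, a2]
    exact hmono mem3 mem4 (by linarith)
  set x0 : ℝ := sg P x y φ P.N with hx0
  have hx : x0 < a 0 := by
    rw [a0, hx0]
    exact hmono memN mem2 (by linarith)
  obtain ⟨E, hEm⟩ : ∃ E : Finset ℝ, ∀ t : ℝ, t ∉ E → φ t ∉ F := by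
    have hinj : InjOn (fun t : ℝ => φ t) ((fun t : ℝ => φ t) ⁻¹' (F : Set ℂ)) :=
      fun s _ t _ h => C.half.inj_real h
    refine ⟨F.preimage (fun t : ℝ => φ t) hinj, fun t ht h => ht ?_⟩
    rw [Finset.mem_preimage]
    exact h
  have hHd : DifferentiableOn ℂ (fun z => H (φ z)) UP := by
    have h1 : DifferentiableOn ℂ φ UP := C.half.diff
    exact hd.comp h1 fun z hz => C.up_mem hz
  have hHb : ∀ z ∈ UP, ‖H (φ z)‖ ≤ C0 := fun z hz => hb _ (C.up_mem hz)
  -- order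
  have lt_iff : ∀ {u v : ℝ}, u ∈ Ioo (bt P) (bt P + P.N) → v ∈ Ioo (bt P) (bt P + P.N) →
      (sg P x y φ u < sg P x y φ v ↔ u < v) := fun hu hv => hmono.lt_iff_lt hu hv
  have hcrv0 : pt x y (P.vert 0) = crv P x y P.N := by
    have h := crv_add_N P (x := x) (y := y) (u := 0) le_rfl
    rw [zero_add] at h
    rw [h, crv_eq P (n := 0) (by simp) (by simp)]
    simp [P.sidePt_zero]
  have hφ0 : φ x0 = pt x y (P.vert 0) := by
    rw [hcrv0, hx0]
    exact C.sg_spec memN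
  have key := half_value (a := a) h01 h12 hHd hHb E hv hv0 ?_ ?_ ?_ hx
    (L := H (pt x y (P.vert 0))) (by
      have := comp_limit C hc (t := x0) (by rw [hφ0]; exact hp)
      rw [hφ0] at this
      exact this)
  · rw [key]
    congr 3
    unfold lam cc cc.sg'
    rw [a0, a1, a2, hx0]
    push_cast
    rfl
  · intro t ht ht'
    have htF := hEm t ht
    obtain ⟨u, hu, hut⟩ := C.sg_surj t
    have hlim := comp_limit C hc htF
    have hφt : φ t = crv P x y u := by rw [← hut]; exact C.sg_spec hu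
    have hmem : φ t ∈ arcO P x y m4 (P.N + m2) := by
      rcases ht' with h | h
      · rw [a0, ← hut, lt_iff hu mem2] at h
        rw [hφt]
        refine ⟨u, ⟨?_, h⟩, rfl⟩
        have := hu.1
        unfold bt at this
        linarith
      · rw [a2, ← hut, lt_iff mem4 hu] at h
        have h5 := hu.2
        unfold bt at h5
        refine ⟨u - P.N, ⟨by linarith, by linarith⟩, ?_⟩
        rw [hφt, ← crv_add_N P (by have := Nat.cast_nonneg (α := ℝ) m4; linarith : 0 ≤ u - P.N), sub_add_cancel]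
    obtain ⟨r, hr⟩ := h2 _ hmem htF
    refine ⟨r, ?_⟩
    rw [← hr]
    exact hlim
  · intro t ht ht0 ht1
    have htF := hEm t ht
    obtain ⟨u, hu, hut⟩ := C.sg_surj t
    have hlim := comp_limit C hc htF
    have hφt : φ t = crv P x y u := by rw [← hut]; exact C.sg_spec hu
    rw [a0, ← hut, lt_iff mem2 hu] at ht0
    rw [a1, ← hut, lt_iff hu mem3] at ht1
    have hmem : φ t ∈ arcO P x y m2 m3 := by
      refine ⟨u - P.N, ⟨by linarith, by linarith⟩, ?_⟩
      rw [hφt, ← crv_add_N P (by linarith : 0 ≤ u - P.N), sub_add_cancel]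
    obtain ⟨r, hr⟩ := h0 _ hmem htF
    refine ⟨r, ?_⟩
    rw [← hr]
    exact hlim
  · intro t ht ht0 ht1
    have htF := hEm t ht
    obtain ⟨u, hu, hut⟩ := C.sg_surj t
    have hlim := comp_limit C hc htF
    have hφt : φ t = crv P x y u := by rw [← hut]; exact C.sg_spec hu
    rw [a1, ← hut, lt_iff mem3 hu] at ht0
    rw [a2, ← hut, lt_iff hu mem4] at ht1
    have hmem : φ t ∈ arcO P x y m3 m4 := by
      refine ⟨u - P.N, ⟨by linarith, by linarith⟩, ?_⟩
      rw [hφt, ← crv_add_N P (by linarith : 0 ≤ u - P.N), sub_add_cancel]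
    obtain ⟨r, hr⟩ := h1 _ hmem htF
    refine ⟨r, ?_⟩
    rw [← hr]
    exact hlim

end Pool.Agent.H74.W
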