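import Mathlib
import Pool.Agent.H74.W.Tri5
import Pool.Agent.H35.W.Geo

set_option autoImplicit false

/-! Route W, D9: the value of the solution of the Smirnov problem with the corners at the vertices `0`,
`m2`, `m3` of a polygon at the vertex `m4`, in the form of `glue_poly`. -/

open Complex Metric Set Topology Filter MeasureTheory

noncomputable section

namespace Pool.Agent.H74.W

open Pool.Agent.Q1.M4
open Pool.Agent.H19.RH
open Pool.Agent.H19.RH.Cht
open Pool.Agent.H69.Car (IsHalf HC HO)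
open Pool.Agent.H13.Q1.Four (cardy)
open Pool.Agent.H35.W (Cl OnSides arcs)

/-- `exp (2πi/3)` -/
def tau : ℂ := Complex.exp (2 * Real.pi / 3 * I)

lemma tau_eq : tau = om ^ 2 := by
  unfold tau om
  rw [← Complex.exp_nat_mul]
  rw [show 2 * (Real.pi : ℂ) / 3 * I = ((2 : ℕ) : ℂ) * (Real.pi * I * ((-2 / 3 : ℝ) : ℂ)) + 2 * Real.pi * I by
    push_cast; ring]
  rw [Complex.exp_add, Complex.exp_two_pi_mul_I, mul_one]

lemma tau_cube : tau ^ 3 = 1 := by
  rw [tau_eq, ← pow_mul, mul_comm, pow_mul, om_cube, one_pow]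

lemma tau_sq : tau ^ 2 = om := by
  rw [tau_eq]
  linear_combination om * om_cube

lemma tau_ne_one : tau ≠ 1 := by
  intro h
  have := tau_sq
  rw [h, one_pow] at this
  exact om_ne_one this.symm

lemma tau_im_pos : 0 < tau.im := by
  have h : tau = -1 - om := by rw [tau_eq]; linear_combination om_sum
  rw [h]
  simp only [sub_im, neg_im, one_im, neg_zero, zero_sub, om_im, neg_neg]
  have : 0 < Real.sqrt 3 := Real.sqrt_pos.2 (by norm_num)
  positivity

variable {P : PType} {x y : ℤ → ℝ} {φ : ℂ → ℂ} {m2 m3 m4 : ℕ}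

/-- points of the boundary curve lie on the arcs -/
lemma crv_mem_arcs {F : Finset ℂ} {u : ℝ} {n : ℕ} (h1 : (n : ℝ) ≤ u) (h2 : u ≤ n + 1) {a b : ℕ} {j : Fin 3}
    (hj : if j = 0 then n < a else if j = 1 then a ≤ n ∧ n < b else b ≤ n ∧ n < P.N)
    (hF : crv P x y u ∉ F) : crv P x y u ∈ arcs P x y F a b j := by
  refine ⟨hF, n, hj, u - n, ⟨by linarith, by linarith⟩, ?_⟩
  rw [crv_eq P h1 h2]

/-- **Cardy's value on a polygon**, corners at the vertices `0`, `m2`, `m3`, value at the vertex `m4`. -/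
theorem arcs_value (C : Cht P x y φ) (h02 : 0 < m2) (h23 : m2 < m3) (h34 : m3 < m4) (h4N : m4 < P.N)
    {H : ℂ → ℂ} {F : Finset ℂ} (hd : DifferentiableOn ℂ H (Om P.Q x y)) {C0 : ℝ}
    (hb : ∀ z ∈ Om P.Q x y, ‖H z‖ ≤ C0) (hc : ContinuousOn H (Cl (Om P.Q x y) F))
    (hS : OnSides tau (arcs P x y F m2 m3) H) (hp : pt x y (P.vert m4) ∉ F) :
    H (pt x y (P.vert m4)) = tau ^ 2 + (1 - tau ^ 2) * (cardy (lam P x y m2 m3 m4 φ) : ℝ) := by
  classical
  have hN := two_le_N P
  have r2 : (0 : ℝ) < m2 := by exact_mod_cast h02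
  have r23 : (m2 : ℝ) < m3 := by exact_mod_cast h23
  have r34 : (m3 : ℝ) < m4 := by exact_mod_cast h34
  have r4N : (m4 : ℝ) + 1 ≤ P.N := by exact_mod_cast h4N
  have mem : ∀ k : ℕ, k + 1 ≤ P.N → ((P.N : ℝ) + k) ∈ Ioo (bt P) (bt P + P.N) := by
    intro k hk
    have : (k : ℝ) + 1 ≤ P.N := by exact_mod_cast hk
    have hk0 : (0 : ℝ) ≤ k := Nat.cast_nonneg k
    unfold bt
    constructor <;> linarith
  have memN : (P.N : ℝ) ∈ Ioo (bt P) (bt P + P.N) := by simpa using mem 0 (by omega)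
  have mem2 := mem m2 (by omega)
  have mem3 := mem m3 (by omega)
  have mem4 := mem m4 (by omega)
  set a : Fin 3 → ℝ := ![sg P x y φ P.N, sg P x y φ (P.N + m2), sg P x y φ (P.N + m3)] with ha
  have a0 : a 0 = sg P x y φ P.N := rfl
  have a1 : a 1 = sg P x y φ (P.N + m2) := rfl
  have a2 : a 2 = sg P x y φ (P.N + m3) := rfl
  have hmono := C.sg_mono
  have h01 : a 0 < a 1 := by
    rw [a0, a1]
    exact hmono memN mem2 (by linarith)
  have h12 : a 1 < a 2 := by
    rw [a1, a2]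
    exact hmono mem2 mem3 (by linarith)
  set x0 : ℝ := sg P x y φ (P.N + m4) with hx0
  have hx : a 2 < x0 := by
    rw [a2, hx0]
    exact hmono mem3 mem4 (by linarith)
  obtain ⟨E, hEm⟩ : ∃ E : Finset ℝ, ∀ t : ℝ, t ∉ E → φ t ∉ F := by
    have hinj : InjOn (fun t : ℝ => φ t) ((fun t : ℝ => φ t) ⁻¹' (F : Set ℂ)) :=
      fun s _ t _ h => C.half.inj_real h
    refine ⟨F.preimage (fun t : ℝ => φ t) hinj, fun t ht h => ht ?_⟩
    rw [Finset.mem_preimage]
    exact h
  have hHd : DifferentiableOn ℂ (fun z => H (φ z)) UP := by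
    have h1 : DifferentiableOn ℂ φ UP := C.half.diff
    exact hd.comp h1 fun z hz => C.up_mem hz
  have hHb : ∀ z ∈ UP, ‖H (φ z)‖ ≤ C0 := fun z hz => hb _ (C.up_mem hz)
  have lt_iff : ∀ {u v : ℝ}, u ∈ Ioo (bt P) (bt P + P.N) → v ∈ Ioo (bt P) (bt P + P.N) →
      (sg P x y φ u < sg P x y φ v ↔ u < v) := fun hu hv => hmono.lt_iff_lt hu hv
  have hcrv4 : pt x y (P.vert m4) = crv P x y (P.N + m4) := by
    have h := crv_add_N P (x := x) (y := y) (u := (m4 : ℝ)) (Nat.cast_nonneg _)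
    rw [add_comm] at h
    rw [h, crv_eq P (n := m4) le_rfl (by linarith)]
    simp [P.sidePt_zero]
  have hφ0 : φ x0 = pt x y (P.vert m4) := by
    rw [hcrv4, hx0]
    exact C.sg_spec mem4
  -- a point with parameter `u - N` in `[0, N)`
  have side_of : ∀ {t : ℝ}, t ∉ E → ∀ {v : ℝ} {p q : ℕ}, φ t = crv P x y v → (p : ℝ) < v → v < q →
      ∀ (j : Fin 3), (∀ n, p ≤ n → n < q →
        (if j = 0 then n < m2 else if j = 1 then m2 ≤ n ∧ n < m3 else m3 ≤ n ∧ n < P.N)) →
      φ t ∈ arcs P x y F m2 m3 j := by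
    intro t ht v p q hv hp' hq j hj
    have hv0 : 0 ≤ v := (Nat.cast_nonneg p).trans hp'.le
    have h1 : (⌊v⌋₊ : ℝ) ≤ v := Nat.floor_le hv0
    have h2 : v < ⌊v⌋₊ + 1 := Nat.lt_floor_add_one v
    have h3 : p ≤ ⌊v⌋₊ := Nat.le_floor hp'.le
    have h4 : ⌊v⌋₊ < q := by
      have : (⌊v⌋₊ : ℝ) < q := lt_of_le_of_lt h1 hq
      exact_mod_cast this
    have h5 := hEm t ht
    rw [hv] at h5 ⊢
    exact crv_mem_arcs h1 h2.le (hj _ h3 h4) h5
  have hv : tau ^ 1 - tau ^ 0 = -om ^ 2 * (tau ^ 2 - tau ^ 0) := by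
    rw [tau_eq]
    linear_combination (om ^ 3 + 1) * om_cube
  have hv0 : tau ^ 2 ≠ tau ^ 0 := by
    rw [tau_sq, pow_zero]
    exact om_ne_one
  have key := half_value_right (a := a) h01 h12 hHd hHb E hv hv0 ?_ ?_ ?_ hx
    (L := H (pt x y (P.vert m4))) (by
      have := comp_limit C hc (t := x0) (by rw [hφ0]; exact hp)
      rw [hφ0] at this
      exact this)
  · rw [key]
    unfold lam cc cc.sg'
    rw [a0, a1, a2, hx0]
    push_cast
    ring_nf
  · intro t ht ht'
    obtain ⟨u, hu, hut⟩ := C.sg_surj t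
    have hlim := comp_limit C hc (hEm t ht)
    have hφt : φ t = crv P x y u := by rw [← hut]; exact C.sg_spec hu
    have hmem : φ t ∈ arcs P x y F m2 m3 2 := by
      rcases ht' with h | h
      · rw [a0, ← hut, lt_iff hu memN] at h
        have h5 := hu.1
        unfold bt at h5
        refine side_of ht hφt (p := m3) (q := P.N) (by linarith) h 2 ?_
        intro n h1 h2
        simpa using ⟨h1, h2⟩
      · rw [a2, ← hut, lt_iff mem3 hu] at h
        have h5 := hu.2
        unfold bt at h5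
        have h6 : φ t = crv P x y (u - P.N) := by
          rw [hφt, ← crv_add_N P (by linarith : 0 ≤ u - P.N), sub_add_cancel]
        refine side_of ht h6 (p := m3) (q := P.N) (by linarith) (by linarith) 2 ?_
        intro n h1 h2
        simpa using ⟨h1, h2⟩
    obtain ⟨r, hr⟩ := hS 2 _ hmem
    refine ⟨1 - r, ?_⟩
    have e : tau ^ 0 + (tau ^ 2 - tau ^ 0) * ((1 - r : ℝ) : ℂ) = H (φ t) := by
      rw [hr]
      have h3 : tau ^ (((2 : Fin 3) : ℕ) + 1) = 1 := tau_cube
      rw [h3]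
      push_cast
      show _ = tau ^ 2 + r * (1 - tau ^ 2)
      ring
    rw [e]
    exact hlim
  · intro t ht ht0 ht1
    obtain ⟨u, hu, hut⟩ := C.sg_surj t
    have hlim := comp_limit C hc (hEm t ht)
    have hφt : φ t = crv P x y u := by rw [← hut]; exact C.sg_spec hu
    rw [a0, ← hut, lt_iff memN hu] at ht0
    rw [a1, ← hut, lt_iff hu mem2] at ht1
    have h6 : φ t = crv P x y (u - P.N) := by
      rw [hφt, ← crv_add_N P (by linarith : 0 ≤ u - P.N), sub_add_cancel]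
    have hmem : φ t ∈ arcs P x y F m2 m3 0 := by
      refine side_of ht h6 (p := 0) (q := m2) (by simpa using ht0) (by linarith) 0 ?_
      intro n _ h2
      simpa using h2
    obtain ⟨r, hr⟩ := hS 0 _ hmem
    refine ⟨r, ?_⟩
    have e : tau ^ 0 + (tau ^ 1 - tau ^ 0) * (r : ℂ) = H (φ t) := by
      rw [hr]
      show _ = tau ^ 0 + r * (tau ^ (0 + 1) - tau ^ 0)
      ring
    rw [e]
    exact hlim
  · intro t ht ht0 ht1
    obtain ⟨u, hu, hut⟩ := C.sg_surj t
    have hlim := comp_limit C hc (hEm t ht)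
    have hφt : φ t = crv P x y u := by rw [← hut]; exact C.sg_spec hu
    rw [a1, ← hut, lt_iff mem2 hu] at ht0
    rw [a2, ← hut, lt_iff hu mem3] at ht1
    have h6 : φ t = crv P x y (u - P.N) := by
      rw [hφt, ← crv_add_N P (by linarith : 0 ≤ u - P.N), sub_add_cancel]
    have hmem : φ t ∈ arcs P x y F m2 m3 1 := by
      refine side_of ht h6 (p := m2) (q := m3) (by linarith) (by linarith) 1 ?_
      intro n h1 h2
      simpa using ⟨h1, h2⟩
    obtain ⟨r, hr⟩ := hS 1 _ hmem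
    refine ⟨r, ?_⟩
    have e : tau ^ 1 + (tau ^ 2 - tau ^ 1) * (r : ℂ) = H (φ t) := by
      rw [hr]
      show _ = tau ^ 1 + r * (tau ^ (1 + 1) - tau ^ 1)
      ring
    rw [e]
    exact hlim

end Pool.Agent.H74.W
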