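import Mathlib
import Pool.Agent.H13.W.Top
import Pool.Agent.H37.W.Bridge
import Pool.Agent.H44.W.CloseDef
import Pool.Agent.H74.W.Tri6

set_option autoImplicit false
open Finset

/-! # Route W, D9 (S4): the glued world of a shape and its observable; interface

World of the shape `S` at scale `h` with the half row from the tile `p` to the right wall deleted
(13's strand graph `SG Λ D w`):
* `Lam3 S h` : random tiles, wall layers, diagonal tiles at the convex vertices except the marks `0`, `m2`, `m3`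
  (the vertex `m4` is not a mark);
* `Del Q n p` : the deleted tiles: the tile `p`, everything to the right of it up to and including the tile of
  the wall layer (`p` itself may be the tile of the wall layer: end on a right wall);
* `Wp S h p` : open labels of the wall layers: arc `[m2, m3)` open, the arcs `[0, m2)` and `[m3, N)` closed,
  all colours flipped behind the exit of the deleted row (counterclockwise from the exit to the vertex `N = 0`);
* far ends `yy S h p 0, 1, 2` : the loose corners at the marks `0`, `m2`, `m3`; interior end `eW (lt p)`.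
`hf S h pl p = ∑ⱼ τ^j P(eW (lt p) is joined to yy j)`, coins of 50's `bk` (plates `pl`, natural elsewhere).
`HF S b k h p` : the same for the refinement by `k.1 * k.2` and 58's fine plates `plV (chG Q) b k.1 k.2`;
one coarse unit = `RR k h` tiles. -/

namespace Pool.Agent.H74.W

open Pool.Agent.H75.Perc hiding WL CT hh PB
open Pool.Agent.H75.TwoArm Pool.Agent.H75.Four Pool.Agent.Q1
open Pool.Agent.Q1.M4 (Cell Good IsSide nextSide tail head PType lat Om pt)
open Pool.Agent.H5.Q1 (oc)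
open Pool.Agent.H33.Q1 Pool.Agent.H21.FM
open Pool.Agent.H13.W Pool.Agent.H58.W
open Pool.Agent.H37.W (dg)
open Pool.Agent.H50.W (bk rf qpl)

/-- **The deleted half row** from the tile `p` to the right, with the tile of the wall layer. -/
def Del (Q : Finset Cell) (n : ℤ) (p : ℤ × ℤ) : Set (ℤ × ℤ) :=
  {e | (e.1 + e.2) % 2 = 1 ∧ (tt e).2 = p.2 ∧ p.1 ≤ (tt e).1 ∧
    ∀ x, p.1 ≤ x → x < (tt e).1 → ct n (x, p.2) ∈ Q}

/-- `t` is the side through which the deleted half row leaves the polygon -/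
def Ex (S : Shape) (h : ℕ) (p : ℤ × ℤ) (t : ℕ) : Prop :=
  t < S.N ∧ S.k t % 4 = 1 ∧ ∃ e ∈ Del S.P.Q (2 * h) p, e ∈ LY (2 * h) (S.P.side t)

/-- the tile `e` of the layer of the side `i` comes after the exit -/
def Aft (S : Shape) (h : ℕ) (p : ℤ × ℤ) (i : ℕ) (e : ℤ × ℤ) : Prop :=
  ∃ t, Ex S h p t ∧ (t < i ∨ (t = i ∧ p.2 < (tt e).2))

/-- the vertex `i + 1` is convex and it is not one of the three marks -/
def Cv (S : Shape) (i : ℕ) : Prop :=
  S.P.side (i + 1) = ((S.P.side i).1, (S.P.side i).2 + 1) ∧ i + 1 ≠ S.m2 ∧ i + 1 ≠ S.m3 ∧ i + 1 ≠ S.N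

open Classical in
/-- **The tiles which a strand can use.** -/
noncomputable def Lam3 (S : Shape) (h : ℕ) : Finset (ℤ × ℤ) :=
  EE S h ∪ ((range S.N).biUnion fun i => LY (2 * h) (S.P.side i)) ∪
    ((range S.N).filter (Cv S)).image (dg S h)

open Classical in
/-- **Open labels of the wall layers.** -/
noncomputable def Wp (S : Shape) (h : ℕ) (p : ℤ × ℤ) : Finset (ℤ × ℤ) :=
  (range S.N).biUnion fun i => (LY (2 * h) (S.P.side i)).filter fun e =>
    ¬ ((S.m2 ≤ i ∧ i < S.m3) ↔ Aft S h p i e)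

open Classical in
/-- **The far ends**: loose corners at the marks `0`, `m2`, `m3`. -/
noncomputable def yy (S : Shape) (h : ℕ) (p : ℤ × ℤ) (j : Fin 3) : ℤ × ℤ :=
  if j = 0 then r1 S h
  else if j = 1 then
    oc (wv h (S.P.side S.m2) 0) (S.k S.m2 + if ∃ t, Ex S h p t ∧ t < S.m2 then 1 else 0)
  else oc (wv h (S.P.side S.m3) 0) (S.k S.m3 + if ∃ t, Ex S h p t ∧ t < S.m3 then 0 else 1)

/-- **The glued world**: strand graph for the labels `ω` of the polygon. -/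
noncomputable def GW (S : Shape) (h : ℕ) (p : ℤ × ℤ) (ω : Finset (ℤ × ℤ)) : SimpleGraph (ℤ × ℤ) :=
  SG (Lam3 S h : Set (ℤ × ℤ)) (Del S.P.Q (2 * h) p) (ω ∪ Wp S h p)

section

variable {κ : Type*} [DecidableEq κ]

/-- probability that the interior end is joined to the far end `j` -/
noncomputable def pj (S : Shape) (h : ℕ) (pl : Cell → Option κ) (p : ℤ × ℤ) (j : Fin 3) : ℝ :=
  PB (EE S h) (bk (2 * (h : ℤ)) pl) fun ω => (GW S h p ω).Reachable (eW (lt p)) (yy S h p j)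

/-- **The observable.** -/
noncomputable def hf (S : Shape) (h : ℕ) (pl : Cell → Option κ) (p : ℤ × ℤ) : ℂ :=
  ∑ j : Fin 3, tau ^ (j : ℕ) * (pj S h pl p j : ℂ)

end

/-- **The observable of the glued world**: `k = (N, M')`. -/
noncomputable def HF (S : Shape) (b : ℤ) (k : ℕ × ℕ) (h : ℕ) (p : ℤ × ℤ) : ℂ :=
  if hM : 0 < k.1 * k.2 then hf (rf S (k.1 * k.2) hM) h (plV (chG S.P.Q) b k.1 k.2) p else 0

/-- probability that II and IV are not connected in the glued world -/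
noncomputable def qF (S : Shape) (b : ℤ) (k : ℕ × ℕ) (h : ℕ) : ℝ :=
  if hM : 0 < k.1 * k.2 then qpl (rf S (k.1 * k.2) hM) h (plV (chG S.P.Q) b k.1 k.2) else 0

/-- number of tiles of a coarse unit -/
noncomputable def RR (k : ℕ × ℕ) (h : ℕ) : ℝ := 2 * (h : ℝ) * ((k.1 : ℝ) * (k.2 : ℝ))

/-- position of the tile `p` in coarse coordinates -/
noncomputable def ps (k : ℕ × ℕ) (h : ℕ) (p : ℤ × ℤ) : ℂ := lat p / (RR k h : ℂ)

/-- the filter of the pairs `(N, M')`: for all large `N`, for all large `M'` -/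
def lK : Filter (ℕ × ℕ) := Filter.curry Filter.atTop Filter.atTop

/-- the chords in coarse coordinates -/
def chU (Q : Finset Cell) : Set ℂ :=
  {z | ∃ c ∈ chG Q, z.im = c.2 ∧ (c.1 : ℝ) ≤ z.re ∧ z.re ≤ c.1 + 1}

open Filter Metric
open Pool.Agent.H5.C3 (Gen)
open Pool.Agent.H14.FM (ic)
open Pool.Agent.H35.W (arcs)
open Pool.Agent.H44.W (WLim)

/-- **(P-S)** Analyticity away from the chords (rooms, room form, S-theorem). -/
def StHol : Prop := ∀ S : Shape, Gen S.P.Q → ∀ b : ℤ, (∀ c ∈ chG S.P.Q, c.1 < b) → ∃ F : Finset ℂ,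
  ∀ z0 ∈ Om S.P.Q ic ic, z0 ∉ chU S.P.Q → z0 ∉ F → ∃ r > (0 : ℝ), ∀ᶠ k in lK,
    ∀ U : Ultrafilter ℕ, (U : Filter ℕ) ≤ atTop → ∃ g : ℂ → ℂ, DifferentiableOn ℂ g (ball z0 r) ∧
      WLim (RR k) (U : Filter ℕ) (ball z0 r) (HF S b k) g

/-- **(P-C)** Transparency of the chords: comparison on a vertical line. -/
def StChd : Prop := ∀ S : Shape, Gen S.P.Q → ∀ b : ℤ, (∀ c ∈ chG S.P.Q, c.1 < b) → ∃ F : Finset ℂ,
  ∀ z0 ∈ chU S.P.Q, z0 ∉ F → ∀ ε > (0 : ℝ), ∃ δ > (0 : ℝ), ∀ z ∈ ball z0 δ, ∀ z' ∈ ball z0 δ,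
    z.re = z'.re → z.im < z0.im → z0.im < z'.im → ∃ r > (0 : ℝ), ∀ᶠ k in lK, ∀ᶠ h : ℕ in atTop,
      ∀ p p' : ℤ × ℤ, p.1 = p'.1 → dist (ps k h p) z < r → dist (ps k h p') z' < r →
        ‖HF S b k h p - HF S b k h p'‖ ≤ ε

/-- **(P-B)** Side condition: near the arc `j` the value is near the line through `τ^j`, `τ^(j+1)`. -/
def StSide : Prop := ∀ S : Shape, Gen S.P.Q → ∀ b : ℤ, (∀ c ∈ chG S.P.Q, c.1 < b) → ∃ F : Finset ℂ,
  ∀ j : Fin 3, ∀ z0 ∈ arcs S.P ic ic F S.m2 S.m3 j, ∀ ε > (0 : ℝ), ∃ δ > (0 : ℝ), ∀ z ∈ ball z0 δ,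
    z ∈ Om S.P.Q ic ic → z ∉ chU S.P.Q → ∃ r > (0 : ℝ), ∀ᶠ k in lK, ∀ᶠ h : ℕ in atTop,
      ∀ p : ℤ × ℤ, dist (ps k h p) z < r → ∃ s : ℝ,
        ‖HF S b k h p - (tau ^ (j : ℕ) + s * (tau ^ ((j : ℕ) + 1) - tau ^ (j : ℕ)))‖ ≤ ε

/-- the vertex `m4` is a right convex corner (the side after it goes up or to the left) -/
def RgtM (S : Shape) : Prop := S.k S.m4 % 4 = 1 ∨ S.k S.m4 % 4 = 2

/-- **(P-4)** Value near the vertex `m4`, if it is a right convex corner. -/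
def StCor : Prop := ∀ S : Shape, Gen S.P.Q → RgtM S → ∀ b : ℤ, (∀ c ∈ chG S.P.Q, c.1 < b) →
  ∀ ε > (0 : ℝ), ∀ δ > (0 : ℝ), ∃ z ∈ Om S.P.Q ic ic, z ∉ chU S.P.Q ∧
    dist z (pt ic ic (S.P.vert S.m4)) < δ ∧ ∃ r > (0 : ℝ), ∀ᶠ k in lK, ∀ᶠ h : ℕ in atTop,
      ∀ p : ℤ × ℤ, dist (ps k h p) z < r →
        ‖HF S b k h p - ((qF S b k h : ℂ) + (1 - (qF S b k h : ℂ)) * tau ^ 2)‖ ≤ ε

end Pool.Agent.H74.W
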