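import Mathlib
import Pool.Agent.H74.W.World
import Pool.Agent.H50.W.RefShape

set_option autoImplicit false
set_option linter.unusedSimpArgs false
open Finset

/-! # Route W, D9: the glued world is invariant under refinement

For `S' = rf S M hM` (every cell is cut into `M × M` cells): the world of `S'` at scale `h` is the world of
`S` at scale `M h` (same tiles, same deleted row, same open labels, same far ends). -/

namespace Pool.Agent.H74.W

open Pool.Agent.H75.Perc hiding WL CT hh PB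
open Pool.Agent.H75.TwoArm Pool.Agent.H75.Four Pool.Agent.Q1
open Pool.Agent.Q1.M4 (Cell Good IsSide nextSide tail head PType lat Om pt)
open Pool.Agent.H5.Q1 (oc)
open Pool.Agent.H33.Q1 Pool.Agent.H21.FM
open Pool.Agent.H13.W Pool.Agent.H58.W
open Pool.Agent.H37.W (dg)
open Pool.Agent.H50.W
open Pool.Agent.H48.Q1 (fl fl_eq fl_spec co ref mem_ref st len fsd fsd_snd co_fsd)

section

variable (S : Shape) {M : ℕ} (hM : 0 < M) {h : ℕ}

lemma rf_side (i : ℕ) {j : ℕ} (hj : j < M) :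
    (rf S M hM).P.side (i * M + j) = fsd (mu M) (mu M) (S.P.side i) j := side_mul S.P hM i hj

lemma rf_side0 (i : ℕ) : (rf S M hM).P.side (i * M) = fsd (mu M) (mu M) (S.P.side i) 0 := by
  have := rf_side S hM i (j := 0) hM
  rwa [add_zero] at this

lemma rf_k (i : ℕ) {j : ℕ} (hj : j < M) : (rf S M hM).k (i * M + j) = S.k i := by
  unfold Shape.k
  rw [rf_side S hM i hj, fsd_snd]

lemma rf_k0 (i : ℕ) : (rf S M hM).k (i * M) = S.k i := by
  have := rf_k S hM i (j := 0) hM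
  rwa [add_zero] at this

lemma rf_m2 : (rf S M hM).m2 = S.m2 * M := rfl

lemma rf_m3 : (rf S M hM).m3 = S.m3 * M := rfl

lemma rf_m4 : (rf S M hM).m4 = S.m4 * M := L_mu S.P S.P.m

lemma rf_N : (rf S M hM).N = S.N * M := L_mu S.P S.P.N

omit S in
include hM in
lemma mul_le_iff (a i : ℕ) {j : ℕ} (hj : j < M) : a * M ≤ i * M + j ↔ a ≤ i := by
  have e1 : (i * M + j) / M = i := by
    rw [Nat.add_comm, Nat.add_mul_div_right _ _ hM, Nat.div_eq_of_lt hj, Nat.zero_add]
  rw [← Nat.le_div_iff_mul_le hM, e1]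

omit S in
include hM in
lemma lt_mul_iff (a i : ℕ) {j : ℕ} (hj : j < M) : i * M + j < a * M ↔ i < a := by
  rw [← not_le, mul_le_iff hM a i hj, not_le]

/-! ### The deleted row -/

omit S in
include hM in
lemma Del_ref (Q : Finset Cell) (p : ℤ × ℤ) :
    Del (ref (mu M) (mu M) Q) (2 * (h : ℤ)) p = Del Q (2 * ((M * h : ℕ) : ℤ)) p := by
  ext e
  simp only [Del, Set.mem_ofPred_eq, mem_ref_mu hM, ct_ct]

lemma Del_rf (p : ℤ × ℤ) :
    Del (rf S M hM).P.Q (2 * (h : ℤ)) p = Del S.P.Q (2 * ((M * h : ℕ) : ℤ)) p :=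
  Del_ref hM S.P.Q p

/-! ### The exit -/

lemma ct_LY {n : ℤ} (hn : 0 < n) {s : Cell × ℤ} (hk : s.2 % 4 = 1) {e : ℤ × ℤ} (he : e ∈ LY n s) :
    (tt e).2 / n = s.1.2 := by
  rw [mem_LY hn] at he
  have hd : dir (s.2 - 1) = (1, 0) := by
    rcases dir_cases (s.2 - 1) with ⟨b, e'⟩ | ⟨b, e'⟩ | ⟨b, e'⟩ | ⟨b, e'⟩
    · exact e'
    all_goals exfalso; omega
  have h1 := congrArg Prod.snd he.2.1
  rw [hd] at h1
  unfold ct at h1
  simpa using h1

/-- the row of the exit -/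
lemma row_Ex {i l : ℕ} (hh : 0 < h) (hl : l < M)
    (ht : S.k i % 4 = 1) {e : ℤ × ℤ} (he : e ∈ LY (2 * (h : ℤ)) ((rf S M hM).P.side (i * M + l))) :
    (tt e).2 / (2 * (h : ℤ)) = M * (S.P.side i).1.2 + l := by
  have hn : (0 : ℤ) < 2 * (h : ℤ) := by positivity
  rw [rf_side S hM i hl] at he
  have hk : (fsd (mu M) (mu M) (S.P.side i) l).2 % 4 = 1 := by rw [fsd_snd]; exact ht
  rw [ct_LY hn hk he]
  have hs : S.P.side i = (((S.P.side i).1.1, (S.P.side i).1.2), (S.P.side i).2) := rfl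
  rw [hs, fsd_fst]
  have h1 : (S.P.side i).2 % 4 = 1 := ht
  simp only [h1]
  norm_num

/-- the exit in the refinement, with its row -/
lemma Ex_rf (hh : 0 < h) (p : ℤ × ℤ) (t j : ℕ) (hj : j < M) :
    Ex (rf S M hM) h p (t * M + j) ↔
      Ex S (M * h) p t ∧ p.2 / (2 * (h : ℤ)) = M * (S.P.side t).1.2 + j := by
  have hn : (0 : ℤ) < 2 * (h : ℤ) := by positivity
  unfold Ex
  rw [rf_N, lt_mul_iff hM _ _ hj, rf_k S hM t hj, Del_rf S hM]
  constructor
  · rintro ⟨h1, h2, e, h3, h4⟩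
    have hr := row_Ex S hM hh hj h2 h4
    refine ⟨⟨h1, h2, e, h3, ?_⟩, ?_⟩
    · rw [mem_LY_fine hM hh]
      exact ⟨j, hj, by rwa [rf_side S hM t hj] at h4⟩
    · rw [← hr, h3.2.1]
  · rintro ⟨⟨h1, h2, e, h3, h4⟩, h5⟩
    refine ⟨h1, h2, e, h3, ?_⟩
    rw [mem_LY_fine hM hh] at h4
    obtain ⟨l, hl, h6⟩ := h4
    have h7 := h6
    rw [← rf_side S hM t hl] at h7
    have hr := row_Ex S hM hh hl h2 h7
    rw [h3.2.1, h5] at hr
    have : j = l := by omega
    rw [this]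
    exact h7

lemma Ex_rf_ex (hh : 0 < h) {p : ℤ × ℤ} {t : ℕ} (ht : Ex S (M * h) p t) :
    ∃ j < M, Ex (rf S M hM) h p (t * M + j) := by
  obtain ⟨h1, h2, e, h3, h4⟩ := ht
  rw [mem_LY_fine hM hh] at h4
  obtain ⟨l, hl, h6⟩ := h4
  have h7 := h6
  rw [← rf_side S hM t hl] at h7
  have hr := row_Ex S hM hh hl h2 h7
  rw [h3.2.1] at hr
  refine ⟨l, hl, ?_⟩
  rw [Ex_rf S hM hh p t l hl]
  refine ⟨⟨h1, h2, e, h3, ?_⟩, hr⟩
  rw [mem_LY_fine hM hh]
  exact ⟨l, hl, h6⟩

lemma Ex_rf_lt (hh : 0 < h) (p : ℤ × ℤ) (a : ℕ) :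
    (∃ t, Ex (rf S M hM) h p t ∧ t < a * M) ↔ ∃ t, Ex S (M * h) p t ∧ t < a := by
  constructor
  · rintro ⟨t, h1, h2⟩
    have hd : t = t / M * M + t % M := (Nat.div_add_mod' t M).symm
    have hj : t % M < M := Nat.mod_lt _ hM
    rw [hd, Ex_rf S hM hh p _ _ hj] at h1
    rw [hd, lt_mul_iff hM _ _ hj] at h2
    exact ⟨_, h1.1, h2⟩
  · rintro ⟨t, h1, h2⟩
    obtain ⟨j, hj, h3⟩ := Ex_rf_ex S hM hh h1
    exact ⟨_, h3, (lt_mul_iff hM _ _ hj).2 h2⟩

/-! ### Behind the exit -/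

/-- on the wall layer of a fine side behind the exit means the same -/
lemma Aft_rf (hh : 0 < h) (p : ℤ × ℤ) (i l : ℕ) (hl : l < M) {e : ℤ × ℤ}
    (he : e ∈ LY (2 * (h : ℤ)) ((rf S M hM).P.side (i * M + l))) :
    Aft (rf S M hM) h p (i * M + l) e ↔ Aft S (M * h) p i e := by
  have hn : (0 : ℤ) < 2 * (h : ℤ) := by positivity
  unfold Aft
  constructor
  · rintro ⟨t, h1, h2⟩
    have hd : t = t / M * M + t % M := (Nat.div_add_mod' t M).symm
    have hj : t % M < M := Nat.mod_lt _ hM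
    rw [hd] at h2
    rw [hd, Ex_rf S hM hh p _ _ hj] at h1
    obtain ⟨h1, h3⟩ := h1
    refine ⟨t / M, h1, ?_⟩
    rcases h2 with h2 | ⟨h2, h4⟩
    · rcases lt_or_ge (t / M) i with h5 | h5
      · exact Or.inl h5
      · have h6 : t / M = i := by
          refine le_antisymm ?_ h5
          by_contra h6
          have : (i + 1) * M ≤ t / M * M := Nat.mul_le_mul_right _ (by omega)
          have h7 : (i + 1) * M = i * M + M := by ring
          omega
        right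
        refine ⟨h6, ?_⟩
        rw [h6] at h2 h3
        have hk : S.k i % 4 = 1 := by rw [← h6]; exact h1.2.1
        have hr := row_Ex S hM hh hl hk he
        by_contra h8
        have h9 : (tt e).2 / (2 * (h : ℤ)) ≤ p.2 / (2 * (h : ℤ)) :=
          Int.ediv_le_ediv hn (not_lt.1 h8)
        rw [hr, h3] at h9
        omega
    · right
      constructor
      · have h5 : (t / M * M + t % M) / M = (i * M + l) / M := by rw [h2]
        have e1 : ∀ a b : ℕ, b < M → (a * M + b) / M = a := fun a b hb => by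
          rw [Nat.add_comm, Nat.add_mul_div_right _ _ hM, Nat.div_eq_of_lt hb, Nat.zero_add]
        rw [e1 _ _ hj, e1 _ _ hl] at h5
        exact h5
      · exact h4
  · rintro ⟨t, h1, h2⟩
    obtain ⟨j, hj, h3⟩ := Ex_rf_ex S hM hh h1
    refine ⟨t * M + j, h3, ?_⟩
    rcases h2 with h2 | ⟨h2, h4⟩
    · left
      have : (t + 1) * M ≤ i * M := Nat.mul_le_mul_right _ (by omega)
      have h7 : (t + 1) * M = t * M + M := by ring
      omega
    · subst h2
      rw [Ex_rf S hM hh p _ _ hj] at h3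
      have hk : S.k t % 4 = 1 := h1.2.1
      have hr := row_Ex S hM hh hl hk he
      have h9 : p.2 / (2 * (h : ℤ)) ≤ (tt e).2 / (2 * (h : ℤ)) :=
        Int.ediv_le_ediv hn h4.le
      rw [hr, h3.2] at h9
      rcases Nat.lt_or_ge j l with h5 | h5
      · exact Or.inl (by omega)
      · exact Or.inr ⟨by omega, h4⟩

/-! ### The wall layers -/

lemma mem_Wp (S : Shape) (h : ℕ) (p e : ℤ × ℤ) : e ∈ Wp S h p ↔
    ∃ i < S.N, e ∈ LY (2 * (h : ℤ)) (S.P.side i) ∧
      ¬ ((S.m2 ≤ i ∧ i < S.m3) ↔ Aft S h p i e) := by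
  classical
  unfold Wp
  simp only [mem_biUnion, mem_range, mem_filter]

lemma Wp_rf (hh : 0 < h) (p : ℤ × ℤ) : Wp (rf S M hM) h p = Wp S (M * h) p := by
  ext e
  rw [mem_Wp, mem_Wp]
  constructor
  · rintro ⟨i, h1, h2, h3⟩
    have hd : i = i / M * M + i % M := (Nat.div_add_mod' i M).symm
    have hj : i % M < M := Nat.mod_lt _ hM
    rw [hd] at h1 h2 h3
    rw [rf_N, lt_mul_iff hM _ _ hj] at h1
    rw [rf_m2, rf_m3, mul_le_iff hM _ _ hj, lt_mul_iff hM _ _ hj, Aft_rf S hM hh p _ _ hj h2] at h3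
    refine ⟨i / M, h1, ?_, h3⟩
    rw [mem_LY_fine hM hh]
    exact ⟨_, hj, by rwa [rf_side S hM _ hj] at h2⟩
  · rintro ⟨i, h1, h2, h3⟩
    rw [mem_LY_fine hM hh] at h2
    obtain ⟨j, hj, h2⟩ := h2
    rw [← rf_side S hM i hj] at h2
    refine ⟨i * M + j, ?_, h2, ?_⟩
    · rw [rf_N, lt_mul_iff hM _ _ hj]
      exact h1
    · rw [rf_m2, rf_m3, mul_le_iff hM _ _ hj, lt_mul_iff hM _ _ hj, Aft_rf S hM hh p _ _ hj h2]
      exact h3

/-! ### The tiles -/

lemma mem_Lam3 (S : Shape) (h : ℕ) (e : ℤ × ℤ) : e ∈ Lam3 S h ↔ e ∈ EE S h ∨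
    (∃ i < S.N, e ∈ LY (2 * (h : ℤ)) (S.P.side i)) ∨ ∃ i < S.N, Cv S i ∧ dg S h i = e := by
  classical
  unfold Lam3
  rw [mem_union, mem_union, mem_biUnion, mem_image, or_assoc]
  simp only [mem_range, mem_filter, and_assoc]

lemma Cv_rf_last (i : ℕ) : Cv (rf S M hM) (i * M + (M - 1)) ↔ Cv S i := by
  have h1 : i * M + (M - 1) + 1 = (i + 1) * M := by
    have : (i + 1) * M = i * M + M := by ring
    omega
  unfold Cv
  rw [h1, rf_side0, rf_side S hM i (show M - 1 < M by omega), rf_m2, rf_m3, rf_N]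
  have hc : ∀ a b : ℕ, a * M ≠ b * M ↔ a ≠ b := fun a b =>
    not_congr ⟨fun h => Nat.eq_of_mul_eq_mul_right hM h, fun h => by rw [h]⟩
  rw [hc, hc, hc]
  refine and_congr_left fun _ => ?_
  constructor
  · intro h2
    have h3 := congrArg Prod.snd h2
    rw [fsd_snd] at h3
    simp only [fsd_snd] at h3
    have h4 := congrArg (fun z => co (mu M) (mu M) z.1) h2
    simp only at h4
    rw [co_fsd (mu_mono hM) (mu_mono hM) (by rw [len_mu]; exact hM),
      co_fsd (mu_mono hM) (mu_mono hM) (by rw [len_mu]; omega)] at h4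
    exact Prod.ext h4 h3
  · intro h2
    rw [h2]
    exact fsd_corner _ _ (by omega)

lemma Cv_rf_mid (i : ℕ) {j : ℕ} (hj : j + 1 < M) : ¬ Cv (rf S M hM) (i * M + j) := by
  unfold Cv
  rintro ⟨h2, -⟩
  rw [add_assoc, rf_side S hM i hj, rf_side S hM i (show j < M by omega)] at h2
  have h3 := congrArg Prod.snd h2
  simp only [fsd_snd] at h3
  omega

lemma dg_rf (i : ℕ) : dg (rf S M hM) h (i * M + (M - 1)) = dg S (M * h) i := by
  have h1 : i * M + (M - 1) + 1 = (i + 1) * M := by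
    have : (i + 1) * M = i * M + M := by ring
    omega
  unfold dg
  rw [h1, rf_side0, wv_mul, rf_k S hM i (show M - 1 < M by omega)]

lemma Lam3_rf (hh : 0 < h) : Lam3 (rf S M hM) h = Lam3 S (M * h) := by
  ext e
  rw [mem_Lam3, mem_Lam3, EE_rf S hM hh]
  refine or_congr Iff.rfl (or_congr ?_ ?_)
  · constructor
    · rintro ⟨i, h1, h2⟩
      have hd : i = i / M * M + i % M := (Nat.div_add_mod' i M).symm
      have hj : i % M < M := Nat.mod_lt _ hM
      rw [hd] at h1 h2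
      rw [rf_N, lt_mul_iff hM _ _ hj] at h1
      refine ⟨i / M, h1, ?_⟩
      rw [mem_LY_fine hM hh]
      exact ⟨_, hj, by rwa [rf_side S hM _ hj] at h2⟩
    · rintro ⟨i, h1, h2⟩
      rw [mem_LY_fine hM hh] at h2
      obtain ⟨j, hj, h2⟩ := h2
      rw [← rf_side S hM i hj] at h2
      refine ⟨i * M + j, ?_, h2⟩
      rw [rf_N, lt_mul_iff hM _ _ hj]
      exact h1
  · constructor
    · rintro ⟨i, h1, h2, h3⟩
      have hd : i = i / M * M + i % M := (Nat.div_add_mod' i M).symm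
      have hj : i % M < M := Nat.mod_lt _ hM
      rcases Nat.lt_or_ge (i % M + 1) M with h4 | h4
      · rw [hd] at h2
        exact absurd h2 (Cv_rf_mid S hM _ h4)
      · have h5 : i % M = M - 1 := by omega
        rw [h5] at hd
        rw [hd] at h1 h2 h3
        rw [rf_N, lt_mul_iff hM _ _ (by omega)] at h1
        rw [Cv_rf_last] at h2
        rw [dg_rf] at h3
        exact ⟨_, h1, h2, h3⟩
    · rintro ⟨i, h1, h2, h3⟩
      refine ⟨i * M + (M - 1), ?_, (Cv_rf_last S hM i).2 h2, by rw [dg_rf]; exact h3⟩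
      rw [rf_N, lt_mul_iff hM _ _ (by omega)]
      exact h1

/-! ### The far ends -/

lemma r1_rf : r1 (rf S M hM) h = r1 S (M * h) := by
  unfold r1
  rw [v1_rf]
  have := rf_k0 S hM 0
  rw [zero_mul] at this
  rw [this]

omit S in
lemma ite_iff {a b : Prop} {da : Decidable a} {db : Decidable b} (h : a ↔ b) (x y : ℤ) :
    @ite ℤ a da x y = @ite ℤ b db x y := if_congr h rfl rfl

lemma yy_rf (hh : 0 < h) (p : ℤ × ℤ) (j : Fin 3) : yy (rf S M hM) h p j = yy S (M * h) p j := by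
  unfold yy
  rw [r1_rf, rf_m2, rf_m3, rf_side0, rf_side0, wv_mul, wv_mul, rf_k0, rf_k0]
  have h2 := Ex_rf_lt S hM hh p S.m2
  have h3 := Ex_rf_lt S hM hh p S.m3
  refine if_congr Iff.rfl rfl (if_congr Iff.rfl ?_ ?_)
  · exact congrArg (fun z => oc _ (_ + z)) (ite_iff h2 _ _)
  · exact congrArg (fun z => oc _ (_ + z)) (ite_iff h3 _ _)

/-! ### The world -/

/-- **The glued world is invariant under refinement.** -/
theorem GW_rf (hh : 0 < h) (p : ℤ × ℤ) (ω : Finset (ℤ × ℤ)) :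
    GW (rf S M hM) h p ω = GW S (M * h) p ω := by
  unfold GW
  rw [Lam3_rf S hM hh, Del_rf S hM, Wp_rf S hM hh]

/-- **The observable of the fine shape in the world of the coarse shape** (coins of the fine cells). -/
theorem hf_rf {κ : Type*} [DecidableEq κ] (hh : 0 < h) (pl : Cell → Option κ) (p : ℤ × ℤ) :
    hf (rf S M hM) h pl p = ∑ j : Fin 3, tau ^ (j : ℕ) *
      ((PB (EE S (M * h)) (bk (2 * (h : ℤ)) pl) fun ω =>
        (GW S (M * h) p ω).Reachable (eW (lt p)) (yy S (M * h) p j) : ℝ) : ℂ) := by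
  unfold hf pj
  simp only [EE_rf S hM hh, GW_rf S hM hh, yy_rf S hM hh]

end

end Pool.Agent.H74.W
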