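import Mathlib
import Pool.Agent.H98.W.Chord
import Pool.Agent.H35.W.Geo

set_option autoImplicit false

/-! Route W, D9: extension of a bounded holomorphic function across horizontal chords, if the values at
vertically opposite points are close. -/

open Complex Metric Set Topology Filter

noncomputable section

namespace Pool.Agent.H74.W

open Pool.Agent

/-- vertical comparison at a point of a chord -/
def VCmp (H : ℂ → ℂ) (z0 : ℂ) : Prop := ∀ ε > (0 : ℝ), ∃ δ > (0 : ℝ), ∀ z ∈ ball z0 δ, ∀ z' ∈ ball z0 δ,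
  z.re = z'.re → z.im < z0.im → z0.im < z'.im → ‖H z - H z'‖ ≤ ε

lemma dist_le_re_im (a b : ℂ) : dist a b ≤ |a.re - b.re| + |a.im - b.im| := by
  rw [dist_eq_norm]
  have := Complex.norm_le_abs_re_add_abs_im (a - b)
  simpa using this

lemma re_le_dist (a b : ℂ) : |a.re - b.re| ≤ dist a b := by
  rw [dist_eq_norm]
  have := Complex.abs_re_le_norm (a - b)
  simpa using this

/-- oscillation near a point of a chord -/
lemma osc_chord {H : ℂ → ℂ} {A : Set ℂ} (hA : IsOpen A) {z0 : ℂ} {r : ℝ} (hr : 0 < r)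
    (hsub : ∀ z ∈ ball z0 r, z.im ≠ z0.im → z ∈ A) (hc : ContinuousOn H A) (hv : VCmp H z0) :
    ∀ ε > (0 : ℝ), ∃ ρ > (0 : ℝ), ∃ c : ℂ, ∀ z ∈ A, z ∈ ball z0 ρ → ‖H z - c‖ ≤ ε := by
  intro ε hε
  obtain ⟨δ1, hδ1, h1⟩ := hv (ε / 4) (by linarith)
  set δ : ℝ := min δ1 r with hδ
  have hδ0 : 0 < δ := lt_min hδ1 hr
  have hδ1' : δ ≤ δ1 := min_le_left _ _
  have hδr : δ ≤ r := min_le_right _ _
  set s : ℝ := δ / 2 with hs
  have hs0 : 0 < s := by rw [hs]; linarith
  set t0 : ℂ := ⟨z0.re, z0.im + s⟩ with ht0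
  have ht0A : t0 ∈ A := by
    apply hsub
    · rw [mem_ball]
      refine lt_of_le_of_lt (dist_le_re_im _ _) ?_
      simp only [ht0, sub_self, abs_zero, zero_add, add_sub_cancel_left, abs_of_pos hs0]
      linarith
    · simp only [ht0]
      linarith
  have hcont : ContinuousAt H t0 := hc.continuousAt (hA.mem_nhds ht0A)
  obtain ⟨δ2, hδ2, h2⟩ := Metric.continuousAt_iff.1 hcont (ε / 4) (by linarith)
  set ρ : ℝ := min (δ / 2) δ2 with hρ
  have hρ0 : 0 < ρ := lt_min (by linarith) hδ2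
  have hρ1 : ρ ≤ δ / 2 := min_le_left _ _
  have hρ2 : ρ ≤ δ2 := min_le_right _ _
  -- points off the line
  have off : ∀ z ∈ ball z0 ρ, z.im ≠ z0.im → ‖H z - H t0‖ ≤ 3 * (ε / 4) := by
    intro z hz hne
    have hzd : dist z z0 < ρ := hz
    have hre : |z.re - z0.re| < ρ := lt_of_le_of_lt (re_le_dist _ _) hzd
    set t : ℂ := ⟨z.re, z0.im + s⟩ with ht
    set b : ℂ := ⟨z.re, z0.im - s⟩ with hb
    have ht1 : t ∈ ball z0 δ1 := by
      rw [mem_ball]
      refine lt_of_le_of_lt (dist_le_re_im _ _) ?_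
      simp only [ht, add_sub_cancel_left, abs_of_pos hs0]
      linarith
    have hb1 : b ∈ ball z0 δ1 := by
      rw [mem_ball]
      refine lt_of_le_of_lt (dist_le_re_im _ _) ?_
      have e : z0.im - s - z0.im = -s := by ring
      simp only [hb, e, abs_neg, abs_of_pos hs0]
      linarith
    have hz1 : z ∈ ball z0 δ1 := by
      rw [mem_ball]; linarith
    have htt : ‖H t - H t0‖ ≤ ε / 4 := by
      have h3 : dist t t0 < δ2 := by
        refine lt_of_le_of_lt (dist_le_re_im _ _) ?_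
        simp only [ht, ht0, sub_self, abs_zero, add_zero]
        linarith
      have := h2 h3
      rw [dist_eq_norm] at this
      exact this.le
    rcases lt_or_gt_of_ne hne with h | h
    · have h4 : ‖H z - H t‖ ≤ ε / 4 := h1 z hz1 t ht1 rfl h (by simp only [ht]; linarith)
      calc ‖H z - H t0‖ = ‖(H z - H t) + (H t - H t0)‖ := by ring_nf
        _ ≤ ‖H z - H t‖ + ‖H t - H t0‖ := norm_add_le _ _
        _ ≤ 3 * (ε / 4) := by linarith
    · have h4 : ‖H b - H z‖ ≤ ε / 4 := h1 b hb1 z hz1 rfl (by simp only [hb]; linarith) h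
      have h5 : ‖H b - H t‖ ≤ ε / 4 :=
        h1 b hb1 t ht1 rfl (by simp only [hb]; linarith) (by simp only [ht]; linarith)
      calc ‖H z - H t0‖ = ‖-(H b - H z) + (H b - H t) + (H t - H t0)‖ := by ring_nf
        _ ≤ ‖-(H b - H z)‖ + ‖H b - H t‖ + ‖H t - H t0‖ := norm_add₃_le
        _ ≤ 3 * (ε / 4) := by rw [norm_neg]; linarith
  refine ⟨ρ, hρ0, H t0, fun z hzA hz => ?_⟩
  by_cases hne : z.im ≠ z0.im
  · have := off z hz hne
    linarith
  · -- a point of the line
    have hza : ContinuousAt H z := hc.continuousAt (hA.mem_nhds hzA)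
    obtain ⟨η, hη, h3⟩ := Metric.continuousAt_iff.1 hza (ε / 4) (by linarith)
    have hgap : 0 < ρ - dist z z0 := by
      have : dist z z0 < ρ := hz
      linarith
    set u : ℝ := min (η / 2) ((ρ - dist z z0) / 2) with hu
    have hu0 : 0 < u := lt_min (by linarith) (by linarith)
    have hu1 : u ≤ η / 2 := min_le_left _ _
    have hu2 : u ≤ (ρ - dist z z0) / 2 := min_le_right _ _
    set z' : ℂ := ⟨z.re, z.im + u⟩ with hz'
    have hd : dist z' z ≤ u := by
      refine (dist_le_re_im _ _).trans ?_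
      simp only [hz', sub_self, abs_zero, zero_add, add_sub_cancel_left, abs_of_pos hu0]
      exact le_rfl
    have h4 := h3 (lt_of_le_of_lt hd (by linarith : u < η))
    rw [dist_eq_norm] at h4
    have h5 := off z' (by
      rw [mem_ball]
      calc dist z' z0 ≤ dist z' z + dist z z0 := dist_triangle _ _ _
        _ < ρ := by linarith) (by
      push Not at hne
      simp only [hz']
      rw [hne]
      linarith)
    calc ‖H z - H t0‖ = ‖-(H z' - H z) + (H z' - H t0)‖ := by ring_nf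
      _ ≤ ‖-(H z' - H z)‖ + ‖H z' - H t0‖ := norm_add_le _ _
      _ ≤ ε := by rw [norm_neg]; linarith

/-- off finitely many horizontal lines and points -/
lemma exists_shift (S : Finset (ℂ × ℂ)) (hS : ∀ s ∈ S, s.1.im = s.2.im) (F : Finset ℂ) (z : ℂ) {r : ℝ}
    (hr : 0 < r) : ∃ t : ℝ, 0 < t ∧ t < r ∧ (⟨z.re, z.im + t⟩ : ℂ) ∉ H98.W.segU S ∪ F := by
  classical
  obtain ⟨t, ht, hn⟩ := (Set.Ioo_infinite hr).exists_notMem_finset
    ((S.image fun s => s.1.im - z.im) ∪ (F.image fun f => f.im - z.im))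
  refine ⟨t, ht.1, ht.2, ?_⟩
  rintro (h | h)
  · rw [H98.W.mem_segU] at h
    obtain ⟨s, hs, hzs⟩ := h
    apply hn
    rw [Finset.mem_union]
    left
    refine Finset.mem_image.2 ⟨s, hs, ?_⟩
    rw [segment_eq_image'] at hzs
    obtain ⟨u, _, hu⟩ := hzs
    have := congrArg Complex.im hu
    simp [hS s hs] at this
    rw [hS s hs, this]
    ring
  · apply hn
    rw [Finset.mem_union]
    right
    refine Finset.mem_image.2 ⟨_, h, ?_⟩
    simp

/-- the complement of the chords and points is dense -/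
lemma sub_closure {V : Set ℂ} (hV : IsOpen V) {S : Finset (ℂ × ℂ)} (hS : ∀ s ∈ S, s.1.im = s.2.im)
    (F : Finset ℂ) : V ⊆ closure (V \ (H98.W.segU S ∪ F)) := by
  intro z hz
  rw [Metric.mem_closure_iff]
  intro ε hε
  obtain ⟨r, hr, hrV⟩ := Metric.isOpen_iff.1 hV z hz
  obtain ⟨t, ht0, ht1, ht⟩ := exists_shift S hS F z (lt_min hε hr)
  have hd' : dist (⟨z.re, z.im + t⟩ : ℂ) z ≤ t := by
    refine (dist_le_re_im _ _).trans ?_
    simp [abs_of_pos ht0]
  refine ⟨_, ⟨hrV ?_, ht⟩, ?_⟩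
  · rw [mem_ball]
    exact lt_of_le_of_lt hd' (ht1.trans_le (min_le_right _ _))
  · rw [dist_comm]
    exact lt_of_le_of_lt hd' (ht1.trans_le (min_le_left _ _))

/-- near a point of a chord the chords are contained in one horizontal line -/
lemma horiz_loc' {S : Finset (ℂ × ℂ)} (hS : ∀ s ∈ S, s.1.im = s.2.im) (z0 : ℂ) :
    ∃ R > 0, ∀ z ∈ ball z0 R, z.im ≠ z0.im → z ∉ H98.W.segU S := by
  obtain ⟨R, hR, h⟩ := H35.W.horiz_local hS z0
  refine ⟨R, hR, fun z hz hne => h z hz ?_⟩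
  rw [Complex.div_I]
  simp only [neg_re, mul_re, I_re, mul_zero, I_im, mul_one, zero_sub, neg_neg, sub_im]
  exact sub_ne_zero.2 hne

/-- **Extension across horizontal chords.** -/
theorem extend_chords {V : Set ℂ} (hV : IsOpen V) {S : Finset (ℂ × ℂ)} (hS : ∀ s ∈ S, s.1.im = s.2.im)
    (F : Finset ℂ) {H : ℂ → ℂ} {B : ℝ} (hd : DifferentiableOn ℂ H (V \ (H98.W.segU S ∪ F)))
    (hb : ∀ z ∈ V \ (H98.W.segU S ∪ F), ‖H z‖ ≤ B)
    (hv : ∀ z0 ∈ V, z0 ∈ H98.W.segU S → z0 ∉ F → VCmp H z0) :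
    ∃ G : ℂ → ℂ, DifferentiableOn ℂ G V ∧ (∀ z ∈ V, ‖G z‖ ≤ B) ∧
      EqOn G H (V \ (H98.W.segU S ∪ F)) := by
  classical
  set A : Set ℂ := V \ (H98.W.segU S ∪ F) with hAdef
  have hA : IsOpen A := hV.sdiff ((H98.W.isClosed_segU S).union F.finite_toSet.isClosed)
  have hAV : A ⊆ V := sdiff_subset
  have hcl : V ⊆ closure A := sub_closure hV hS F
  have hne : ∀ z ∈ V, (𝓝[A] z).NeBot := fun z hz => mem_closure_iff_nhdsWithin_neBot.1 (hcl hz)
  have hlim : ∀ z ∈ V \ F, ∃ v, Tendsto H (𝓝[A] z) (𝓝 v) := by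
    rintro z0 ⟨hz0, hz0F⟩
    by_cases hzS : z0 ∈ H98.W.segU S
    · obtain ⟨R, hR, hRS⟩ := horiz_loc' hS z0
      obtain ⟨r1, hr1, hr1V⟩ := Metric.isOpen_iff.1 hV z0 hz0
      obtain ⟨r2, hr2, hr2F⟩ := Metric.isOpen_iff.1 F.finite_toSet.isClosed.isOpen_compl z0 hz0F
      have hosc := osc_chord (H := H) hA (z0 := z0) (r := min R (min r1 r2))
        (lt_min hR (lt_min hr1 hr2)) (by
          intro z hz hne
          have hz' : dist z z0 < min R (min r1 r2) := hz
          refine ⟨hr1V (lt_of_lt_of_le hz' ((min_le_right _ _).trans (min_le_left _ _))), ?_⟩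
          rintro (h | h)
          · exact hRS z (lt_of_lt_of_le hz' (min_le_left _ _)) hne h
          · exact hr2F (lt_of_lt_of_le hz' ((min_le_right _ _).trans (min_le_right _ _))) h)
        hd.continuousOn (hv z0 hz0 hzS hz0F)
      have := hne z0 hz0
      apply cauchy_map_iff_exists_tendsto.1
      rw [Metric.cauchy_iff]
      refine ⟨inferInstance, fun ε hε => ?_⟩
      obtain ⟨ρ, hρ, c, h⟩ := hosc (ε / 3) (by linarith)
      refine ⟨H '' (A ∩ ball z0 ρ), image_mem_map (inter_mem_nhdsWithin _ (ball_mem_nhds _ hρ)), ?_⟩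
      rintro _ ⟨a, ha, rfl⟩ _ ⟨b, hb', rfl⟩
      have e1 := h a ha.1 ha.2
      have e2 := h b hb'.1 hb'.2
      rw [← dist_eq_norm] at e1 e2
      calc dist (H a) (H b) ≤ dist (H a) c + dist (H b) c := dist_triangle_right _ _ _
        _ < ε := by linarith
    · have hzA : z0 ∈ A := ⟨hz0, fun h => h.elim hzS hz0F⟩
      exact ⟨H z0, (hd.continuousOn.continuousAt (hA.mem_nhds hzA)).mono_left nhdsWithin_le_nhds⟩
  set E : ℂ → ℂ := extendFrom A H with hE
  have hEc : ContinuousOn E (V \ F) :=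
    continuousOn_extendFrom (fun z hz => hcl hz.1) hlim
  have hEA : EqOn E H A := by
    intro z hz
    exact extendFrom_eq (hcl (hAV hz)) ((hd.continuousOn.continuousAt (hA.mem_nhds hz)).mono_left
      nhdsWithin_le_nhds)
  have hEb : ∀ z ∈ V \ F, ‖E z‖ ≤ B := by
    intro z hz
    have := hne z hz.1
    obtain ⟨v, hv'⟩ := hlim z hz
    have e : E z = v := extendFrom_eq (hcl hz.1) hv'
    rw [e]
    apply le_of_tendsto hv'.norm
    filter_upwards [self_mem_nhdsWithin] with w hw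
    exact hb w hw
  obtain ⟨G, hG1, hG2⟩ := H98.W.glue_segments_points (f := E) S F hV hEc (by
      intro z hz h
      have hzA : z ∈ A := by
        refine ⟨hz.1, ?_⟩
        rintro (h' | h')
        · rw [H98.W.mem_segU] at h'
          obtain ⟨s, hs, hzs⟩ := h'
          exact h s hs hzs
        · exact hz.2 h'
      apply (hd.differentiableAt (hA.mem_nhds hzA)).congr_of_eventuallyEq
      filter_upwards [hA.mem_nhds hzA] with w hw
      exact hEA hw) (by
      intro c _ _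
      exact ⟨1, one_pos, B, fun z hz _ => hEb z hz⟩)
  have hGA : EqOn G H A := fun z hz =>
    (hG2 ⟨hAV hz, fun h => hz.2 (Or.inr h)⟩).trans (hEA hz)
  refine ⟨G, hG1, fun z hz => ?_, hGA⟩
  have := hne z hz
  have h5 : Tendsto G (𝓝[A] z) (𝓝 (G z)) :=
    (hG1.continuousOn.continuousAt (hV.mem_nhds hz)).mono_left nhdsWithin_le_nhds
  apply le_of_tendsto h5.norm
  filter_upwards [self_mem_nhdsWithin] with w hw
  rw [hGA hw]
  exact hb w hw

end Pool.Agent.H74.W
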