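import Mathlib
import Pool.Agent.H35.W.Wl
import Pool.Agent.H35.W.Fin

set_option autoImplicit false

/-! Route W, D9: local limits of box averages along ultrafilters, comparison of two points on a vertical
line, side condition. -/

open Complex Metric Set Topology Filter

noncomputable section

namespace Pool.Agent.H74.W

open Pool.Agent.H44.W (av WLim)
open Pool.Agent.H35.W (npt npt_close lat_add' norm_lat_box norm_av_sub_le)
open Pool.Agent.Q1.M4 (lat)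

variable {R : ℕ → ℝ} {F : Filter ℕ} {Ω : Set ℂ}

lemma wlim_pt [NeBot F] (hR : Tendsto R F atTop) (hΩ : IsOpen Ω) {f : ℕ → ℤ × ℤ → ℂ} {G : ℂ → ℂ}
    (h : WLim R F Ω f G) (hG : ContinuousOn G Ω) {z : ℂ} (hz : z ∈ Ω) {η : ℝ} (hη : 0 < η) :
    ∃ δ0 > (0 : ℝ), ∀ δ : ℝ, 0 < δ → δ < δ0 → ∀ᶠ j in F,
      ‖av ⌊δ * R j⌋₊ (f j) (npt (R j) z) - G z‖ ≤ η := by
  obtain ⟨r1, hr1, hr1s⟩ := Metric.nhds_basis_closedBall.mem_iff.1 (hΩ.mem_nhds hz)
  obtain ⟨δ0, hδ0, h1⟩ := h _ hr1s (isCompact_closedBall z r1) (η / 2) (by linarith)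
  refine ⟨δ0, hδ0, fun δ hδ hδ1 => ?_⟩
  have h2 := h1 δ hδ hδ1
  have hzl : Tendsto (fun j => lat (npt (R j) z) / (R j : ℂ)) F (𝓝 z) := by
    rw [Metric.tendsto_nhds]
    intro ε' hε'
    have e1 := hR.eventually_gt_atTop (2 / ε')
    have e2 := hR.eventually_gt_atTop 0
    filter_upwards [e1, e2] with j j2 j1
    calc dist (lat (npt (R j) z) / (R j : ℂ)) z ≤ 2 / R j := npt_close j1 z
      _ < ε' := by
        rw [div_lt_iff₀ j1]
        rw [div_lt_iff₀ hε'] at j2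
        linarith
  have hGl : Tendsto (fun j => G (lat (npt (R j) z) / (R j : ℂ))) F (𝓝 (G z)) :=
    ((hG.continuousAt (hΩ.mem_nhds hz)).tendsto).comp hzl
  have e3 := (Metric.tendsto_nhds.1 hGl) (η / 2) (by linarith)
  have e4 := (Metric.tendsto_nhds.1 hzl) r1 hr1
  filter_upwards [h2, e3, e4] with j j1 j2 j3
  have j4 := j1 (npt (R j) z) j3.le
  rw [dist_eq_norm] at j2
  calc ‖av ⌊δ * R j⌋₊ (f j) (npt (R j) z) - G z‖ =
      ‖(av ⌊δ * R j⌋₊ (f j) (npt (R j) z) - G (lat (npt (R j) z) / (R j : ℂ))) +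
        (G (lat (npt (R j) z) / (R j : ℂ)) - G z)‖ := by ring_nf
    _ ≤ _ := norm_add_le _ _
    _ ≤ η := by linarith

lemma box_near (hR : Tendsto R F atTop) (z : ℂ) {ρ δ : ℝ} (hδ : 0 < δ) (hδ2 : δ ≤ ρ / 8) :
    ∀ᶠ j in F, 0 < R j ∧ 0 < ⌊δ * R j⌋₊ ∧ ∀ k < ⌊δ * R j⌋₊, ∀ l < ⌊δ * R j⌋₊,
      dist (lat (npt (R j) z + ((k : ℤ), (l : ℤ))) / (R j : ℂ)) z < ρ := by
  have hρ0 : 0 < ρ := by linarith
  have hbig : ∀ᶠ j in F, 0 < R j ∧ 2 / R j < ρ / 4 ∧ 1 ≤ δ * R j := by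
    have e1 := hR.eventually_gt_atTop 0
    have e2 := hR.eventually_gt_atTop (8 / ρ)
    have e3 := hR.eventually_ge_atTop (1 / δ)
    filter_upwards [e1, e2, e3] with j j1 j2 j3
    refine ⟨j1, ?_, ?_⟩
    · rw [div_lt_iff₀ j1]
      rw [div_lt_iff₀ hρ0] at j2
      nlinarith
    · rw [div_le_iff₀ hδ] at j3
      linarith
  filter_upwards [hbig] with j j3
  obtain ⟨hR0, hR1, hR2⟩ := j3
  refine ⟨hR0, Nat.floor_pos.2 hR2, fun k hk l hl => ?_⟩
  have hv0 : dist (lat (npt (R j) z) / (R j : ℂ)) z < ρ / 4 :=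
    lt_of_le_of_lt (npt_close hR0 z) hR1
  have e3 : lat (npt (R j) z + ((k : ℤ), (l : ℤ))) / (R j : ℂ) =
      lat (npt (R j) z) / (R j : ℂ) + lat ((k : ℤ), (l : ℤ)) / (R j : ℂ) := by
    rw [lat_add', add_div]
  rw [e3]
  calc dist (lat (npt (R j) z) / (R j : ℂ) + lat ((k : ℤ), (l : ℤ)) / (R j : ℂ)) z
      ≤ ‖lat ((k : ℤ), (l : ℤ)) / (R j : ℂ)‖ + dist (lat (npt (R j) z) / (R j : ℂ)) z := by
        rw [dist_eq_norm, dist_eq_norm]
        calc ‖lat (npt (R j) z) / (R j : ℂ) + lat ((k : ℤ), (l : ℤ)) / (R j : ℂ) - z‖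
            = ‖lat ((k : ℤ), (l : ℤ)) / (R j : ℂ) + (lat (npt (R j) z) / (R j : ℂ) - z)‖ := by
              congr 1; ring
          _ ≤ _ := norm_add_le _ _
    _ < ρ / 4 + ρ / 4 := by
        apply add_lt_add_of_le_of_lt _ hv0
        rw [norm_div, Complex.norm_real, Real.norm_eq_abs, abs_of_pos hR0, div_le_iff₀ hR0]
        have e4 := norm_lat_box hk hl
        have e5 : ((⌊δ * R j⌋₊ : ℕ) : ℝ) ≤ δ * R j := Nat.floor_le (by positivity)
        nlinarith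
    _ ≤ ρ := by linarith

lemma av_shift (m : ℕ) (f : ℤ × ℤ → ℂ) (v d : ℤ × ℤ) : av m (fun p => f (p + d)) v = av m f (v + d) := by
  unfold av
  congr 1
  refine Finset.sum_congr rfl fun k _ => Finset.sum_congr rfl fun l _ => ?_
  simp only [add_right_comm]

lemma av_sub' (m : ℕ) (f g : ℤ × ℤ → ℂ) (v : ℤ × ℤ) :
    av m (fun v => f v - g v) v = av m f v - av m g v := by
  unfold av
  rw [← mul_sub, ← Finset.sum_sub_distrib]
  congr 1
  refine Finset.sum_congr rfl fun k _ => ?_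
  rw [← Finset.sum_sub_distrib]

/-- **Comparison of two points on a vertical line.** -/
theorem pair_cmp [NeBot F] (hR : Tendsto R F atTop) {Ω' : Set ℂ} (hΩ : IsOpen Ω) (hΩ' : IsOpen Ω')
    {f : ℕ → ℤ × ℤ → ℂ} {G G' : ℂ → ℂ} (h : WLim R F Ω f G) (h' : WLim R F Ω' f G')
    (hG : ContinuousOn G Ω) (hG' : ContinuousOn G' Ω') {z z' : ℂ} (hz : z ∈ Ω) (hz' : z' ∈ Ω')
    (hre : z.re = z'.re) {r ε : ℝ} (hr : 0 < r)
    (hf : ∀ᶠ j in F, ∀ p p' : ℤ × ℤ, p.1 = p'.1 → dist (lat p / (R j : ℂ)) z < r →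
      dist (lat p' / (R j : ℂ)) z' < r → ‖f j p - f j p'‖ ≤ ε) : ‖G z - G' z'‖ ≤ ε := by
  apply le_of_forall_pos_le_add
  intro η hη
  obtain ⟨δ1, hδ1, k1⟩ := wlim_pt hR hΩ h hG hz (η := η / 2) (by linarith)
  obtain ⟨δ2, hδ2, k2⟩ := wlim_pt hR hΩ' h' hG' hz' (η := η / 2) (by linarith)
  obtain ⟨δ, hδ, hd1, hd2, hd3⟩ : ∃ δ > 0, δ < δ1 ∧ δ < δ2 ∧ δ ≤ r / 8 :=
    ⟨min (min (δ1 / 2) (δ2 / 2)) (r / 8), lt_min (lt_min (by linarith) (by linarith)) (by linarith),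
      lt_of_le_of_lt ((min_le_left _ _).trans (min_le_left _ _)) (by linarith),
      lt_of_le_of_lt ((min_le_left _ _).trans (min_le_right _ _)) (by linarith), min_le_right _ _⟩
  obtain ⟨j, j1, j2, j3, j4, j5⟩ := ((k1 δ hδ hd1).and ((k2 δ hδ hd2).and ((box_near hR z hδ hd3).and
    ((box_near hR z' hδ hd3).and hf)))).exists
  set m := ⌊δ * R j⌋₊ with hm
  set v := npt (R j) z with hv
  set v' := npt (R j) z' with hv'
  have hvv : v.1 = v'.1 := by
    simp only [hv, hv', npt, hre]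
  have e1 : ‖av m (f j) v - av m (f j) v'‖ ≤ ε := by
    have e2 : av m (fun p => f j p - f j (p + (v' - v))) v = av m (f j) v - av m (f j) v' := by
      rw [av_sub' m (f j) (fun p => f j (p + (v' - v))) v, av_shift, add_sub_cancel]
    rw [← e2]
    have e3 := norm_av_sub_le (m := m) j3.2.1 (f := fun p => f j p - f j (p + (v' - v))) (v := v) (c := 0)
      (ε := ε) (by
        intro k hk l hl
        rw [sub_zero]
        have e4 : v + ((k : ℤ), (l : ℤ)) + (v' - v) = v' + ((k : ℤ), (l : ℤ)) := by abel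
        rw [e4]
        apply j5
        · simp only [Prod.fst_add, hvv]
        · exact j3.2.2 k hk l hl
        · exact j4.2.2 k hk l hl)
    rwa [sub_zero] at e3
  calc ‖G z - G' z'‖ = ‖-(av m (f j) v - G z) + (av m (f j) v - av m (f j) v') +
        (av m (f j) v' - G' z')‖ := by ring_nf
    _ ≤ ‖-(av m (f j) v - G z)‖ + ‖av m (f j) v - av m (f j) v'‖ + ‖av m (f j) v' - G' z'‖ :=
        norm_add₃_le
    _ ≤ ε + η := by rw [norm_neg]; linarith

/-- **Side condition for the limit.** -/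
theorem line_lim [NeBot F] (hR : Tendsto R F atTop) (hΩ : IsOpen Ω)
    {f : ℕ → ℤ × ℤ → ℂ} {G : ℂ → ℂ} (h : WLim R F Ω f G) (hG : ContinuousOn G Ω) {z : ℂ} (hz : z ∈ Ω)
    {a b : ℂ} (hb : b ≠ 0) {r ε : ℝ} (hr : 0 < r)
    (hf : ∀ᶠ j in F, ∀ p : ℤ × ℤ, dist (lat p / (R j : ℂ)) z < r →
      ∃ s : ℝ, ‖f j p - (a + s * b)‖ ≤ ε) : |((G z - a) / b).im| ≤ ε / ‖b‖ := by
  apply le_of_forall_pos_le_add
  intro η hη
  have hbn : 0 < ‖b‖ := norm_pos_iff.2 hb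
  obtain ⟨δ1, hδ1, k1⟩ := wlim_pt hR hΩ h hG hz (η := η * ‖b‖) (by positivity)
  obtain ⟨δ, hδ, hd1, hd3⟩ : ∃ δ > 0, δ < δ1 ∧ δ ≤ r / 8 :=
    ⟨min (δ1 / 2) (r / 8), lt_min (by linarith) (by linarith),
      lt_of_le_of_lt (min_le_left _ _) (by linarith), min_le_right _ _⟩
  obtain ⟨j, j1, j3, j5⟩ := ((k1 δ hδ hd1).and ((box_near hR z hδ hd3).and hf)).exists
  set m := ⌊δ * R j⌋₊ with hm
  set v := npt (R j) z with hv
  classical
  choose! s hs using j5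
  set sb : ℝ := (1 / ((m : ℝ) * m)) * ∑ k ∈ Finset.range m, ∑ l ∈ Finset.range m,
    s (v + ((k : ℤ), (l : ℤ))) with hsb
  have hm0 : (m : ℂ) ≠ 0 := by exact_mod_cast j3.2.1.ne'
  have e2 : av m (fun p => f j p - (a + s p * b)) v = av m (f j) v - (a + sb * b) := by
    rw [av_sub' m (f j) (fun p => a + s p * b) v]
    congr 1
    unfold av
    simp only [Finset.sum_add_distrib, Finset.sum_const, Finset.card_range, nsmul_eq_mul, hsb]
    push_cast
    simp only [← Finset.sum_mul]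
    field_simp
  have e3 : ‖av m (f j) v - (a + sb * b)‖ ≤ ε := by
    rw [← e2]
    have e4 := norm_av_sub_le (m := m) j3.2.1 (f := fun p => f j p - (a + s p * b)) (v := v) (c := 0)
      (ε := ε) (by
        intro k hk l hl
        rw [sub_zero]
        exact hs _ (j3.2.2 k hk l hl))
    rwa [sub_zero] at e4
  have e5 : (G z - a) / b = -(av m (f j) v - G z) / b + (av m (f j) v - (a + sb * b)) / b + sb := by
    field_simp
    ring
  rw [e5]
  simp only [add_im, ofReal_im, add_zero]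
  calc |(-(av m (f j) v - G z) / b).im + ((av m (f j) v - (a + sb * b)) / b).im|
      ≤ |(-(av m (f j) v - G z) / b).im| + |((av m (f j) v - (a + sb * b)) / b).im| := abs_add_le _ _
    _ ≤ ‖-(av m (f j) v - G z) / b‖ + ‖(av m (f j) v - (a + sb * b)) / b‖ :=
        add_le_add (Complex.abs_im_le_norm _) (Complex.abs_im_le_norm _)
    _ ≤ η + ε / ‖b‖ := by
        rw [norm_div, norm_div, norm_neg]
        apply add_le_add
        · rw [div_le_iff₀ hbn]; exact j1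
        · exact div_le_div_of_nonneg_right e3 hbn.le
    _ = ε / ‖b‖ + η := by ring

lemma WLim.mono_set {f : ℕ → ℤ × ℤ → ℂ} {g : ℂ → ℂ} {Ω' : Set ℂ} (h : WLim R F Ω f g) (hs : Ω' ⊆ Ω) :
    WLim R F Ω' f g := fun K hK hKc => h K (hK.trans hs) hKc

end Pool.Agent.H74.W
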