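import Mathlib
import Pool.Agent.H19.RH.Refl

set_option autoImplicit false

/-! Route W, D9: maximum principle in the upper half plane with finitely many exceptional boundary points. -/

open Complex Metric Set Topology Filter

noncomputable section

namespace Pool.Agent.H74.W

open Pool.Agent.H19.RH (UP isOpen_UP nhdsUP_neBot)

lemma preconn_UP : IsPreconnected UP := by
  have : Convex ℝ UP := by
    have h : UP = {z : ℂ | 0 < z.im} := rfl
    rw [h]
    exact convex_halfSpace_im_gt 0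
  exact this.isPreconnected

/-- maximum principle with limsup conditions at all boundary points and at infinity -/
theorem max_half {f : ℂ → ℂ} (hd : DifferentiableOn ℂ f UP) {M : ℝ}
    (hl : ∀ ε > 0, ∀ y : ℝ, ∀ᶠ z in 𝓝[UP] (y : ℂ), ‖f z‖ ≤ M + ε)
    (hi : ∀ ε > 0, ∃ R : ℝ, ∀ z ∈ UP, R ≤ ‖z‖ → ‖f z‖ ≤ M + ε) :
    ∀ z ∈ UP, ‖f z‖ ≤ M := by
  intro z1 hz1
  apply le_of_forall_pos_le_add
  intro ε hε
  by_contra hlt
  rw [not_le] at hlt
  set K : Set ℂ := {z | z ∈ UP ∧ ‖f z1‖ ≤ ‖f z‖} with hK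
  have hKc : IsClosed K := by
    rw [isClosed_iff_frequently]
    intro z hz
    have him : 0 ≤ z.im := by
      have h1 : IsClosed {w : ℂ | 0 ≤ w.im} := isClosed_le continuous_const continuous_im
      have h2 : ∃ᶠ y in 𝓝 z, y ∈ {w : ℂ | 0 ≤ w.im} := hz.mono fun w hw => (le_of_lt (show 0 < w.im from hw.1) : (0 : ℝ) ≤ w.im)
      exact h1.mem_of_frequently_of_tendsto h2 tendsto_id
    rcases him.eq_or_lt with h0 | h0
    · exfalso
      have hzr : z = ((z.re : ℝ) : ℂ) := by apply Complex.ext <;> simp [h0.symm]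
      have h1 := hl ε hε z.re
      rw [← hzr, eventually_nhdsWithin_iff] at h1
      obtain ⟨w, hw1, hw2⟩ := (hz.and_eventually h1).exists
      have := hw2 hw1.1
      linarith [hw1.2]
    · refine ⟨h0, ?_⟩
      have hc : ContinuousAt (fun w => ‖f w‖) z :=
        (hd.differentiableAt (isOpen_UP.mem_nhds h0)).continuousAt.norm
      have h1 : IsClosed {r : ℝ | ‖f z1‖ ≤ r} := isClosed_le continuous_const continuous_id
      have h2 : ∃ᶠ w in 𝓝 z, ‖f w‖ ∈ {r : ℝ | ‖f z1‖ ≤ r} := hz.mono fun w hw => hw.2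
      exact h1.mem_of_frequently_of_tendsto h2 hc.tendsto
  have hKb : Bornology.IsBounded K := by
    obtain ⟨R, hR⟩ := hi ε hε
    rw [isBounded_iff_forall_norm_le]
    refine ⟨R, fun z hz => ?_⟩
    by_contra h
    rw [not_le] at h
    have := hR z hz.1 h.le
    linarith [hz.2]
  have hKcpt : IsCompact K := Metric.isCompact_of_isClosed_isBounded hKc hKb
  have hKne : K.Nonempty := ⟨z1, hz1, le_rfl⟩
  have hfc : ContinuousOn (fun w => ‖f w‖) K := fun w hw =>
    ((hd.differentiableAt (isOpen_UP.mem_nhds hw.1)).continuousAt.norm).continuousWithinAt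
  obtain ⟨z2, hz2, hmax⟩ := hKcpt.exists_isMaxOn hKne hfc
  have hmax' : IsMaxOn (norm ∘ f) UP z2 := by
    intro w hw
    by_cases h : ‖f z1‖ ≤ ‖f w‖
    · exact hmax ⟨hw, h⟩
    · show ‖f w‖ ≤ ‖f z2‖
      have := hz2.2
      linarith
  have hconst := Complex.eqOn_of_isPreconnected_of_isMaxOn_norm preconn_UP isOpen_UP hd hz2.1 hmax'
  have hne : (𝓝[UP] ((0 : ℝ) : ℂ)).NeBot := nhdsUP_neBot (by simp)
  obtain ⟨w, hw1, hw2⟩ := ((hl ε hε 0).and self_mem_nhdsWithin).exists
  have h1 := hconst hw2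
  simp only [Function.const_apply] at h1
  rw [h1] at hw1
  linarith [hz2.2]

/-- the factor which vanishes at the exceptional points and at infinity -/
def fac (E : Finset ℝ) (z : ℂ) : ℂ := (∏ e ∈ E, (z - e) / (z + I)) * (1 / (z + I))

lemma add_I_im {z : ℂ} (hz : 0 ≤ z.im) : 1 ≤ ‖z + I‖ := by
  have h : (z + I).im = z.im + 1 := by simp
  calc (1 : ℝ) ≤ |(z + I).im| := by rw [h, abs_of_nonneg (by linarith)]; linarith
    _ ≤ ‖z + I‖ := Complex.abs_im_le_norm _

lemma add_I_ne {z : ℂ} (hz : 0 ≤ z.im) : z + I ≠ 0 := by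
  intro h
  have := add_I_im hz
  rw [h, norm_zero] at this
  linarith

lemma ratio_le {z : ℂ} (hz : 0 ≤ z.im) (e : ℝ) : ‖(z - e) / (z + I)‖ ≤ 2 + |e| := by
  have h1 := add_I_im hz
  rw [norm_div, div_le_iff₀ (by linarith)]
  calc ‖z - e‖ = ‖(z + I) - (I + e)‖ := by congr 1; ring
    _ ≤ ‖z + I‖ + ‖I + (e : ℂ)‖ := norm_sub_le _ _
    _ ≤ ‖z + I‖ + (1 + |e|) := by
        gcongr
        refine (norm_add_le _ _).trans ?_
        rw [norm_I, Complex.norm_real, Real.norm_eq_abs]
    _ ≤ (2 + |e|) * ‖z + I‖ := by nlinarith [abs_nonneg e]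

lemma prod_le {z : ℂ} (hz : 0 ≤ z.im) (E : Finset ℝ) :
    ‖∏ e ∈ E, (z - e) / (z + I)‖ ≤ ∏ e ∈ E, (2 + |e|) := by
  rw [norm_prod]
  exact Finset.prod_le_prod (fun _ _ => norm_nonneg _) fun e _ => ratio_le hz e

lemma fac_le {z : ℂ} (hz : 0 ≤ z.im) (E : Finset ℝ) : ‖fac E z‖ ≤ ∏ e ∈ E, (2 + |e|) := by
  unfold fac
  rw [norm_mul]
  have h1 := prod_le hz E
  have h2 : ‖1 / (z + I)‖ ≤ 1 := by
    rw [norm_div, norm_one]
    exact div_le_one_of_le₀ (add_I_im hz) (norm_nonneg _)
  calc _ ≤ (∏ e ∈ E, (2 + |e|)) * 1 := by gcongr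
    _ = _ := mul_one _

lemma fac_ne {z : ℂ} (hz : 0 < z.im) (E : Finset ℝ) : fac E z ≠ 0 := by
  unfold fac
  refine mul_ne_zero (Finset.prod_ne_zero_iff.2 fun e _ => ?_) ?_
  · refine div_ne_zero ?_ (add_I_ne hz.le)
    intro h
    have := congrArg Complex.im h
    simp at this
    linarith
  · exact one_div_ne_zero (add_I_ne hz.le)

lemma fac_diff (E : Finset ℝ) : DifferentiableOn ℂ (fac E) {z : ℂ | z + I ≠ 0} := by
  intro z hz
  have hz' : z + I ≠ 0 := hz
  refine DifferentiableAt.differentiableWithinAt ?_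
  unfold fac
  refine DifferentiableAt.mul ?_ ?_
  · have : (fun z : ℂ => ∏ e ∈ E, (z - e) / (z + I)) = ∏ e ∈ E, fun z : ℂ => (z - e) / (z + I) := by
      ext w; simp
    rw [this]
    refine DifferentiableAt.finsetProd fun e _ => ?_
    exact (differentiableAt_id.sub_const _).div (differentiableAt_id.add_const _) hz'
  · exact (differentiableAt_const _).div (differentiableAt_id.add_const _) hz'

lemma fac_cont {z : ℂ} (hz : 0 ≤ z.im) (E : Finset ℝ) : ContinuousAt (fac E) z := by
  have hopen : IsOpen {z : ℂ | z + I ≠ 0} := isOpen_ne_fun (by fun_prop) continuous_const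
  exact ((fac_diff E).differentiableAt (hopen.mem_nhds (add_I_ne hz))).continuousAt

/-- **Maximum principle**, bounded functions, finitely many exceptional boundary points. -/
theorem max_half_exc {f : ℂ → ℂ} (hd : DifferentiableOn ℂ f UP) {B : ℝ} (hb : ∀ z ∈ UP, ‖f z‖ ≤ B)
    {M : ℝ} (hM : 0 < M) (E : Finset ℝ)
    (hl : ∀ ε > 0, ∀ y : ℝ, y ∉ E → ∀ᶠ z in 𝓝[UP] (y : ℂ), ‖f z‖ ≤ M + ε) :
    ∀ z ∈ UP, ‖f z‖ ≤ M := by
  have hB0 : 0 ≤ B := (norm_nonneg _).trans (hb I (by show 0 < I.im; simp))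
  set K : ℝ := ∏ e ∈ E, (2 + |e|) with hK
  have hK1 : 0 < K := Finset.prod_pos fun e _ => by positivity
  -- the n-th power times the factor
  have key : ∀ n : ℕ, ∀ z ∈ UP, ‖f z‖ ^ n * ‖fac E z‖ ≤ M ^ n * K := by
    intro n
    have h := max_half (f := fun z => f z ^ n * fac E z) (M := M ^ n * K)
      ((hd.pow n).mul ((fac_diff E).mono fun z hz => add_I_ne (le_of_lt hz))) ?_ ?_
    · intro z hz
      have := h z hz
      rwa [norm_mul, norm_pow] at this
    · intro ε hε y
      by_cases hy : y ∈ E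
      · -- the factor vanishes
        have h0 : fac E (y : ℂ) = 0 := by
          unfold fac
          rw [Finset.prod_eq_zero hy (by simp), zero_mul]
        have hc : Tendsto (fun z => ‖fac E z‖) (𝓝[UP] (y : ℂ)) (𝓝 0) := by
          have h1 := (fac_cont (z := (y : ℂ)) (by simp) E).tendsto.norm
          rw [h0, norm_zero] at h1
          exact h1.mono_left nhdsWithin_le_nhds
        have h2 : Tendsto (fun z => B ^ n * ‖fac E z‖) (𝓝[UP] (y : ℂ)) (𝓝 (B ^ n * 0)) :=
          hc.const_mul _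
        rw [mul_zero] at h2
        filter_upwards [h2.eventually_lt_const hε, self_mem_nhdsWithin] with z h3 hz
        rw [norm_mul, norm_pow]
        have h4 : ‖f z‖ ^ n ≤ B ^ n := pow_le_pow_left₀ (norm_nonneg _) (hb z hz) n
        have h5 : 0 ≤ M ^ n * K := by positivity
        nlinarith [norm_nonneg (fac E z)]
      · -- small error
        obtain ⟨ε', hε', h1⟩ : ∃ ε' > 0, (M + ε') ^ n * K ≤ M ^ n * K + ε := by
          have hc : Tendsto (fun t : ℝ => (M + t) ^ n * K) (𝓝[>] 0) (𝓝 ((M + 0) ^ n * K)) := by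
            have : Continuous fun t : ℝ => (M + t) ^ n * K := by fun_prop
            exact (this.tendsto 0).mono_left nhdsWithin_le_nhds
          rw [add_zero] at hc
          have h2 : ∀ᶠ t : ℝ in 𝓝[>] 0, (M + t) ^ n * K < M ^ n * K + ε :=
            hc.eventually_lt_const (by linarith)
          obtain ⟨t, ht1, ht2⟩ := (h2.and self_mem_nhdsWithin).exists
          exact ⟨t, ht2, ht1.le⟩
        filter_upwards [hl ε' hε' y hy, self_mem_nhdsWithin] with z h2 hz
        rw [norm_mul, norm_pow]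
        refine le_trans ?_ h1
        have h3 : ‖f z‖ ^ n ≤ (M + ε') ^ n := pow_le_pow_left₀ (norm_nonneg _) h2 n
        have h4 := fac_le (E := E) (le_of_lt (show 0 < z.im from hz))
        have h5 : 0 ≤ (M + ε') ^ n := by positivity
        calc _ ≤ (M + ε') ^ n * ‖fac E z‖ := by gcongr
          _ ≤ _ := by gcongr
    · intro ε hε
      refine ⟨B ^ n * K / ε + 1, fun z hz hR => ?_⟩
      have hz' : 0 ≤ z.im := le_of_lt hz
      rw [norm_mul, norm_pow]
      have h1 : ‖z‖ - 1 ≤ ‖z + I‖ := by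
        have := norm_sub_norm_le z (-I)
        rw [norm_neg, norm_I, sub_neg_eq_add] at this
        exact this
      have h2 : B ^ n * K / ε ≤ ‖z + I‖ := by linarith
      have h3 := add_I_im hz'
      have h4 : ‖fac E z‖ ≤ K * (1 / ‖z + I‖) := by
        unfold fac
        rw [norm_mul, norm_div (1 : ℂ), norm_one]
        have := prod_le hz' E
        gcongr
      have h5 : ‖f z‖ ^ n ≤ B ^ n := pow_le_pow_left₀ (norm_nonneg _) (hb z hz) n
      have h6 : B ^ n * (K * (1 / ‖z + I‖)) ≤ ε := by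
        rw [show B ^ n * (K * (1 / ‖z + I‖)) = B ^ n * K / ‖z + I‖ by ring]
        rw [div_le_iff₀ (by linarith)]
        rw [div_le_iff₀ hε] at h2
        linarith
      have h7 : 0 ≤ M ^ n * K := by positivity
      calc _ ≤ B ^ n * (K * (1 / ‖z + I‖)) := by gcongr
        _ ≤ _ := by linarith
  intro z hz
  by_contra h
  rw [not_le] at h
  have hr : 1 < ‖f z‖ / M := by rwa [lt_div_iff₀ hM, one_mul]
  have hf0 : 0 < ‖fac E z‖ := norm_pos_iff.2 (fac_ne hz E)
  obtain ⟨n, hn⟩ := pow_unbounded_of_one_lt (K / ‖fac E z‖) hr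
  have h1 := key n z hz
  rw [div_pow, div_lt_div_iff₀ hf0 (by positivity)] at hn
  nlinarith

/-- **A bounded holomorphic function in the half plane whose imaginary part vanishes at the boundary is
constant.** -/
theorem const_of_im {f : ℂ → ℂ} (hd : DifferentiableOn ℂ f UP) {B : ℝ} (hb : ∀ z ∈ UP, ‖f z‖ ≤ B)
    (E : Finset ℝ) (hl : ∀ y : ℝ, y ∉ E → Tendsto (fun z => (f z).im) (𝓝[UP] (y : ℂ)) (𝓝 0)) :
    ∃ k : ℝ, ∀ z ∈ UP, f z = k := by
  -- one sided bound
  have side : ∀ g : ℂ → ℂ, DifferentiableOn ℂ g UP → (∀ z ∈ UP, ‖g z‖ ≤ B) →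
      (∀ y : ℝ, y ∉ E → Tendsto (fun z => (g z).im) (𝓝[UP] (y : ℂ)) (𝓝 0)) →
      ∀ z ∈ UP, 0 ≤ (g z).im := by
    intro g hgd hgb hgl z hz
    have hn : ∀ w, ‖Complex.exp (I * g w)‖ = Real.exp (-(g w).im) := by
      intro w
      rw [Complex.norm_exp]
      congr 1
      simp
    have h := max_half_exc (f := fun w => Complex.exp (I * g w)) (M := 1) (B := Real.exp B)
      ((hgd.const_mul I).cexp) ?_ one_pos E ?_ z hz
    · rw [hn] at h
      rw [Real.exp_le_one_iff] at h
      linarith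
    · intro w hw
      rw [hn]
      apply Real.exp_le_exp.2
      have := Complex.abs_im_le_norm (g w)
      have h2 := neg_le_abs (g w).im
      linarith [hgb w hw]
    · intro ε hε y hy
      have h1 : Tendsto (fun w => ‖Complex.exp (I * g w)‖) (𝓝[UP] (y : ℂ)) (𝓝 1) := by
        simp only [hn]
        have h2 := (Real.continuous_exp.tendsto (-0)).comp (hgl y hy).neg
        rw [neg_zero, Real.exp_zero] at h2
        exact h2
      exact (h1.eventually_lt_const (by linarith)).mono fun w hw => hw.le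
  have h1 := side f hd hb hl
  have h2 := side (fun z => -f z) hd.neg (fun z hz => by rw [norm_neg]; exact hb z hz) (by
    intro y hy
    have := (hl y hy).neg
    simpa using this)
  have him : ∀ z ∈ UP, (f z).im = 0 := by
    intro z hz
    have a1 := h1 z hz
    have a2 := h2 z hz
    simp only [neg_im] at a2
    linarith
  -- constant
  have hg : ∀ z ∈ UP, ‖Complex.exp (I * f z)‖ = 1 := by
    intro z hz
    rw [Complex.norm_exp]
    simp [him z hz]
  have hI : I ∈ UP := by show 0 < I.im; simp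
  have hmax : IsMaxOn (norm ∘ fun z => Complex.exp (I * f z)) UP I := by
    intro w hw
    show ‖Complex.exp (I * f w)‖ ≤ ‖Complex.exp (I * f I)‖
    rw [hg w hw, hg I hI]
  have hconst := Complex.eqOn_of_isPreconnected_of_isMaxOn_norm preconn_UP isOpen_UP
    ((hd.const_mul I).cexp) hI hmax
  have hder : UP.EqOn (deriv f) 0 := by
    intro z hz
    have hfz : DifferentiableAt ℂ f z := hd.differentiableAt (isOpen_UP.mem_nhds hz)
    have e1 : HasDerivAt (fun w => Complex.exp (I * f w)) (Complex.exp (I * f z) * (I * deriv f z)) z :=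
      (hfz.hasDerivAt.const_mul I).cexp
    have e2 : HasDerivAt (fun w => Complex.exp (I * f w)) 0 z := by
      have e3 : (fun w => Complex.exp (I * f w)) =ᶠ[𝓝 z] fun _ => Complex.exp (I * f I) := by
        filter_upwards [isOpen_UP.mem_nhds hz] with w hw
        exact hconst hw
      exact (hasDerivAt_const z _).congr_of_eventuallyEq e3
    have e4 := e1.unique e2
    rcases mul_eq_zero.1 e4 with h | h
    · exact absurd h (Complex.exp_ne_zero _)
    · rcases mul_eq_zero.1 h with h | h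
      · exact absurd h I_ne_zero
      · exact h
  obtain ⟨d, hd'⟩ := IsOpen.exists_is_const_of_deriv_eq_zero isOpen_UP preconn_UP hd hder
  refine ⟨d.re, fun z hz => ?_⟩
  rw [hd' z hz]
  apply Complex.ext
  · simp
  · have := him z hz
    rw [hd' z hz] at this
    simp [this]

end Pool.Agent.H74.W
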