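import Mathlib
import Pool.Agent.H74.W.Max
import Pool.Agent.H74.W.Tri4

set_option autoImplicit false

/-! Route W, D9: uniqueness for the Smirnov boundary problem in the half plane, weak form: the boundary
conditions are only asked for the distance to the line, no boundary values. -/

open Complex Metric Set Topology Filter MeasureTheory

noncomputable section

namespace Pool.Agent.H74.W

open H87.FM (CH)
open Pool.Agent.H19.RH (UP isOpen_UP nhdsUP_neBot)
open Pool.Agent.H13.Q1.Four (cardy)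

lemma im_cube {g : ℂ → ℂ} {l : Filter ℂ} {B : ℝ} (hb : ∀ᶠ z in l, ‖g z‖ ≤ B)
    (h : Tendsto (fun z => (g z).im) l (𝓝 0)) : Tendsto (fun z => ((g z) ^ 3).im) l (𝓝 0) := by
  have e : ∀ z, ((g z) ^ 3).im = (g z).im * (3 * (g z).re ^ 2 - (g z).im ^ 2) := by
    intro z
    rw [pow_succ, pow_two]
    simp only [mul_im, mul_re]
    ring
  simp only [e]
  apply Filter.Tendsto.zero_mul_isBoundedUnder_le h
  refine ⟨4 * B ^ 2, ?_⟩
  rw [eventually_map]
  filter_upwards [hb] with z hz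
  have h1 : |(g z).re| ≤ B := (Complex.abs_re_le_norm _).trans hz
  have h2 : |(g z).im| ≤ B := (Complex.abs_im_le_norm _).trans hz
  have h3 : (g z).re ^ 2 ≤ B ^ 2 := by
    rw [← sq_abs]
    exact pow_le_pow_left₀ (abs_nonneg _) h1 2
  have h4 : (g z).im ^ 2 ≤ B ^ 2 := by
    rw [← sq_abs]
    exact pow_le_pow_left₀ (abs_nonneg _) h2 2
  show ‖3 * (g z).re ^ 2 - (g z).im ^ 2‖ ≤ 4 * B ^ 2
  rw [Real.norm_eq_abs, abs_le]
  constructor <;> nlinarith [sq_nonneg (g z).re, sq_nonneg (g z).im]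

/-- **Uniqueness in the half plane, weak form.** -/
theorem half_unique_w {D : ℂ → ℂ} (hd : DifferentiableOn ℂ D UP) {C : ℝ} (hb : ∀ z ∈ UP, ‖D z‖ ≤ C)
    (E : Finset ℝ) {c : ℂ} (hc : c ≠ 0) {b0 b1 : ℝ} (h01 : b0 < b1)
    (h3 : ∀ y : ℝ, y ∉ E → ∃ w : ℂ, w ^ 3 = 1 ∧
      Tendsto (fun z => (D z / (c * w)).im) (𝓝[UP] (y : ℂ)) (𝓝 0))
    (hl : ∀ y : ℝ, y ∉ E → y < b0 → Tendsto (fun z => (D z / c).im) (𝓝[UP] (y : ℂ)) (𝓝 0))
    (hm : ∀ y : ℝ, y ∉ E → b0 < y → y < b1 →
      Tendsto (fun z => (D z / (c * om ^ 2)).im) (𝓝[UP] (y : ℂ)) (𝓝 0)) :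
    ∀ z ∈ UP, D z = 0 := by
  set f : ℂ → ℂ := fun z => (D z / c) ^ 3 with hf
  have hfd : DifferentiableOn ℂ f UP := (hd.div_const c).pow 3
  have hcn : 0 < ‖c‖ := norm_pos_iff.2 hc
  have hfb : ∀ z ∈ UP, ‖f z‖ ≤ (C / ‖c‖) ^ 3 := by
    intro z hz
    simp only [hf, norm_pow, norm_div]
    have h1 := hb z hz
    gcongr
  obtain ⟨k, hk⟩ := const_of_im hfd hfb E (by
    intro y hy
    obtain ⟨w, hw, h⟩ := h3 y hy
    have hw0 : w ≠ 0 := by rintro rfl; norm_num at hw
    have hwn : ‖w‖ = 1 := by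
      have : ‖w‖ ^ 3 = 1 := by rw [← norm_pow, hw, norm_one]
      exact (pow_eq_one_iff_of_nonneg (norm_nonneg _) (by norm_num)).1 this
    have h5 := im_cube (g := fun z => D z / (c * w)) (B := C / ‖c‖) (l := 𝓝[UP] (y : ℂ)) (by
      filter_upwards [self_mem_nhdsWithin] with z hz
      rw [norm_div, norm_mul, hwn, mul_one]
      have := hb z hz
      gcongr) h
    refine h5.congr fun z => ?_
    congr 1
    simp only [hf]
    rw [div_pow, div_pow, mul_pow, hw, mul_one])
  -- `D` is constant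
  have hconst : ∃ d : ℂ, ∀ z ∈ UP, D z = d := by
    by_cases hk0 : k = 0
    · refine ⟨0, fun z hz => ?_⟩
      have h1 := hk z hz
      rw [hk0, ofReal_zero] at h1
      have h2 : D z / c = 0 := pow_eq_zero_iff (n := 3) (by norm_num) |>.1 h1
      rcases div_eq_zero_iff.1 h2 with h | h
      · exact h
      · exact absurd h hc
    · have hder : UP.EqOn (deriv D) 0 := by
        intro z hz
        have hDz : DifferentiableAt ℂ D z := hd.differentiableAt (isOpen_UP.mem_nhds hz)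
        have h1 : HasDerivAt f (3 * (D z / c) ^ 2 * (deriv D z / c)) z := by
          have := (hDz.hasDerivAt.div_const c).fun_pow 3
          simpa using this
        have h2 : HasDerivAt f 0 z := by
          have h4 : f =ᶠ[𝓝 z] fun _ => (k : ℂ) := by
            filter_upwards [isOpen_UP.mem_nhds hz] with w hw
            exact hk w hw
          exact (hasDerivAt_const z (k : ℂ)).congr_of_eventuallyEq h4
        have h5 := h1.unique h2
        have h6 : D z / c ≠ 0 := by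
          intro h
          have := hk z hz
          simp only [hf] at this
          rw [h] at this
          apply hk0
          have h7 : (k : ℂ) = 0 := by rw [← this]; norm_num
          exact_mod_cast h7
        have h7 : deriv D z / c = 0 := by
          rcases mul_eq_zero.1 h5 with h | h
          · exact absurd h (mul_ne_zero (by norm_num) (pow_ne_zero 2 h6))
          · exact h
        rcases div_eq_zero_iff.1 h7 with h | h
        · exact h
        · exact absurd h hc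
      obtain ⟨d, hd'⟩ := IsOpen.exists_is_const_of_deriv_eq_zero isOpen_UP preconn_UP hd hder
      exact ⟨d, hd'⟩
  obtain ⟨d, hd'⟩ := hconst
  have hdl : ∀ (y : ℝ) (v : ℂ), Tendsto (fun z => (D z / v).im) (𝓝[UP] (y : ℂ)) (𝓝 0) →
      (d / v).im = 0 := by
    intro y v hL
    have hne : (𝓝[UP] (y : ℂ)).NeBot := nhdsUP_neBot (by simp)
    refine tendsto_nhds_unique (tendsto_const_nhds.congr' ?_) hL
    filter_upwards [self_mem_nhdsWithin] with z hz
    rw [hd' z hz]
  obtain ⟨y1, hy1, hy1E⟩ := (Set.Iio_infinite b0).exists_notMem_finset E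
  obtain ⟨y2, hy2, hy2E⟩ := (Set.Ioo_infinite h01).exists_notMem_finset E
  have e1 := hdl _ _ (hl y1 hy1E hy1)
  have e2 := hdl _ _ (hm y2 hy2E hy2.1 hy2.2)
  have hom2 : om ^ 2 ≠ 0 := pow_ne_zero _ (by
    intro h
    have := om_cube
    rw [h] at this
    norm_num at this)
  set p : ℂ := d / c with hp
  have hpr : p = (p.re : ℂ) := by
    apply Complex.ext
    · simp
    · rw [e1]; simp
  have e3 : d / (c * om ^ 2) = (p.re : ℂ) * om := by
    have h4 : d = p * c := by rw [hp, div_mul_cancel₀ _ hc]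
    rw [← hpr, div_eq_iff (mul_ne_zero hc hom2), h4]
    linear_combination (-(p * c)) * om_cube
  rw [e3] at e2
  have e4 : p.re = 0 := by
    simp only [mul_im, ofReal_re, ofReal_im, zero_mul, add_zero] at e2
    rcases mul_eq_zero.1 e2 with h | h
    · exact h
    · exact absurd h om_im_ne
  intro z hz
  rw [hd' z hz]
  have : p = 0 := by rw [hpr, e4]; simp
  rw [hp] at this
  rcases div_eq_zero_iff.1 this with h | h
  · exact h
  · exact absurd h hc

variable {a : Fin 3 → ℝ}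

/-- the affine image of the triangle map -/
def Gsol (a : Fin 3 → ℝ) (v0 v2 : ℂ) (z : ℂ) : ℂ := v0 - (v2 - v0) / (sd3 a) * (F3 a z - F3 a (a 0))

lemma Gsol_limit (h01 : a 0 < a 1) (h12 : a 1 < a 2) (v0 v2 : ℂ) (y : ℝ) :
    Tendsto (Gsol a v0 v2) (𝓝[UP] (y : ℂ)) (𝓝 (Gsol a v0 v2 y)) := by
  have ha := inj_of_lt h01 h12
  have h3 : ContinuousWithinAt (F3 a) CH (y : ℂ) := F3_cont a ha _ (show 0 ≤ (y : ℂ).im by simp)
  have h4 : Tendsto (F3 a) (𝓝[UP] (y : ℂ)) (𝓝 (F3 a y)) :=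
    h3.tendsto.mono_left (nhdsWithin_mono _ fun z hz => le_of_lt (show 0 < z.im from hz))
  exact ((h4.sub_const _).const_mul _).const_sub v0

/-- **The solution in the half plane**, weak boundary conditions. -/
theorem half_eq_w (h01 : a 0 < a 1) (h12 : a 1 < a 2) {H : ℂ → ℂ} (hd : DifferentiableOn ℂ H UP)
    {C : ℝ} (hb : ∀ z ∈ UP, ‖H z‖ ≤ C) (E : Finset ℝ) {v0 v1 v2 : ℂ} (hv : v1 - v0 = -om ^ 2 * (v2 - v0))
    (hv0 : v2 ≠ v0)
    (ho : ∀ y : ℝ, y ∉ E → y < a 0 ∨ a 2 < y →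
      Tendsto (fun z => ((H z - v0) / (v2 - v0)).im) (𝓝[UP] (y : ℂ)) (𝓝 0))
    (h1 : ∀ y : ℝ, y ∉ E → a 0 < y → y < a 1 →
      Tendsto (fun z => ((H z - v0) / (v1 - v0)).im) (𝓝[UP] (y : ℂ)) (𝓝 0))
    (h2 : ∀ y : ℝ, y ∉ E → a 1 < y → y < a 2 →
      Tendsto (fun z => ((H z - v1) / (v2 - v1)).im) (𝓝[UP] (y : ℂ)) (𝓝 0)) :
    ∀ z ∈ UP, H z = Gsol a v0 v2 z := by
  have ha := inj_of_lt h01 h12
  set s : ℝ := sd3 a with hs
  have hs0 : 0 < s := sd3_pos h01 h12
  have hsc : (s : ℂ) ≠ 0 := by exact_mod_cast hs0.ne'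
  set c : ℂ := v2 - v0 with hcdef
  have hc : c ≠ 0 := sub_ne_zero.2 hv0
  have hom0 : om ≠ 0 := by
    intro h
    have := om_cube
    rw [h] at this
    norm_num at this
  set G : ℂ → ℂ := Gsol a v0 v2 with hG
  have hGe : ∀ z, G z = v0 - c / s * (F3 a z - F3 a (a 0)) := fun z => rfl
  have hGd : DifferentiableOn ℂ G UP := by
    intro z hz
    have h3 := F3_diff a (z0 := z) hz
    exact (((h3.sub_const _).const_mul _).const_sub v0).differentiableWithinAt
  have hGlim : ∀ y : ℝ, Tendsto G (𝓝[UP] (y : ℂ)) (𝓝 (G y)) := Gsol_limit h01 h12 v0 v2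
  have hFb := F3_bdd a ha
  set D : ℂ → ℂ := fun z => H z - G z with hD
  have hDd : DifferentiableOn ℂ D UP := hd.sub hGd
  set B : ℝ := ∫ u, sg3 a u with hB
  have hDb : ∀ z ∈ UP, ‖D z‖ ≤ C + (‖v0‖ + ‖c / s‖ * (B + B)) := by
    intro z hz
    refine (norm_sub_le _ _).trans (add_le_add (hb z hz) ?_)
    rw [hGe]
    refine (norm_sub_le _ _).trans (add_le_add le_rfl ?_)
    rw [norm_mul]
    apply mul_le_mul_of_nonneg_left _ (norm_nonneg _)
    exact (norm_sub_le _ _).trans (add_le_add (hFb z) (hFb _))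
  -- passage from `H` to `D`
  have pass : ∀ (y : ℝ) (p v : ℂ), ((G y - p) / v).im = 0 →
      Tendsto (fun z => ((H z - p) / v).im) (𝓝[UP] (y : ℂ)) (𝓝 0) →
      Tendsto (fun z => (D z / v).im) (𝓝[UP] (y : ℂ)) (𝓝 0) := by
    intro y p v h3 h4
    have h5 : Tendsto (fun z => ((G z - p) / v).im) (𝓝[UP] (y : ℂ)) (𝓝 0) := by
      rw [← h3]
      exact (Complex.continuous_im.tendsto _).comp (((hGlim y).sub_const p).div_const v)
    have h6 := h4.sub h5
    rw [sub_zero] at h6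
    refine h6.congr fun z => ?_
    rw [← Complex.sub_im]
    congr 1
    simp only [hD]
    ring
  have sg : ∀ (y : ℝ) (v : ℂ), Tendsto (fun z => (D z / (-v)).im) (𝓝[UP] (y : ℂ)) (𝓝 0) →
      Tendsto (fun z => (D z / v).im) (𝓝[UP] (y : ℂ)) (𝓝 0) := by
    intro y v h
    have h1 := h.neg
    rw [neg_zero] at h1
    refine h1.congr fun z => ?_
    rw [div_neg, Complex.neg_im, neg_neg]
  have key1 : ∀ y : ℝ, y ∉ E → y < a 0 ∨ a 2 < y →
      Tendsto (fun z => (D z / c).im) (𝓝[UP] (y : ℂ)) (𝓝 0) := by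
    intro y hy hy'
    apply pass y v0 c _ (ho y hy hy')
    obtain ⟨ρ, hρ⟩ : ∃ ρ : ℝ, F3 a y - F3 a (a 0) = ρ := by
      rcases hy' with h | h
      · exact F3_line_left h01 h12 h
      · exact F3_line_right h01 h12 h
    have e : (G y - v0) / c = ((-(ρ / s) : ℝ) : ℂ) := by
      rw [hGe, hρ]
      push_cast
      field_simp
      ring
    rw [e, ofReal_im]
  have key2 : ∀ y : ℝ, y ∉ E → a 0 < y → y < a 1 →
      Tendsto (fun z => (D z / (c * om ^ 2)).im) (𝓝[UP] (y : ℂ)) (𝓝 0) := by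
    intro y hy hy0 hy1
    apply sg
    have hv' : -(c * om ^ 2) = v1 - v0 := by rw [hv]; ring
    rw [hv']
    apply pass y v0 _ _ (h1 y hy hy0 hy1)
    obtain ⟨ρ, hρ⟩ := F3_line_01 h01 h12 hy0 hy1
    have e : (G y - v0) / (v1 - v0) = ((ρ / s : ℝ) : ℂ) := by
      rw [hGe, hρ, hv]
      push_cast
      field_simp
      ring
    rw [e, ofReal_im]
  have key3 : ∀ y : ℝ, y ∉ E → a 1 < y → y < a 2 →
      Tendsto (fun z => (D z / (c * om)).im) (𝓝[UP] (y : ℂ)) (𝓝 0) := by
    intro y hy hy0 hy1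
    apply sg
    have h6 : v1 = v0 - om ^ 2 * c := by linear_combination hv
    have h7 : v2 = v0 + c := by rw [hcdef]; ring
    have hv' : -(c * om) = v2 - v1 := by rw [h6, h7]; linear_combination (-c) * om_sum
    rw [hv']
    apply pass y v1 _ _ (h2 y hy hy0 hy1)
    obtain ⟨ρ, hρ⟩ := F3_line_12 h01 h12 hy0 hy1
    have h4 := F3_01 h01 h12
    have h5 : F3 a y - F3 a (a 0) = om ^ 2 * s + om * ρ := by
      linear_combination hρ + h4
    have e : (G y - v1) / (v2 - v1) = ((ρ / s : ℝ) : ℂ) := by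
      rw [hGe, h5, ← hv', h6]
      push_cast
      field_simp
      ring
    rw [e, ofReal_im]
  have hzero := half_unique_w hDd hDb (E ∪ {a 0, a 1, a 2}) hc h01 ?_ ?_ ?_
  · intro z hz
    have := hzero z hz
    simp only [hD] at this
    exact sub_eq_zero.1 this
  · intro y hy
    simp only [Finset.mem_union, Finset.mem_insert, Finset.mem_singleton, not_or] at hy
    obtain ⟨hyE, hy0, hy1, hy2⟩ := hy
    rcases lt_trichotomy y (a 0) with h | h | h
    · exact ⟨1, by norm_num, by simpa using key1 y hyE (Or.inl h)⟩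
    · exact absurd h hy0
    rcases lt_trichotomy y (a 1) with h' | h' | h'
    · exact ⟨om ^ 2, by rw [← pow_mul, mul_comm, pow_mul, om_cube, one_pow], key2 y hyE h h'⟩
    · exact absurd h' hy1
    rcases lt_trichotomy y (a 2) with h'' | h'' | h''
    · exact ⟨om, om_cube, key3 y hyE h' h''⟩
    · exact absurd h'' hy2
    · exact ⟨1, by norm_num, by simpa using key1 y hyE (Or.inr h'')⟩
  · intro y hy hy'
    simp only [Finset.mem_union, not_or] at hy
    exact key1 y hy.1 (Or.inl hy')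
  · intro y hy hy0 hy1
    simp only [Finset.mem_union, not_or] at hy
    exact key2 y hy.1 hy0 hy1

/-- value to the right of the corners -/
lemma Gsol_right (h01 : a 0 < a 1) (h12 : a 1 < a 2) (v0 v2 : ℂ) {x : ℝ} (hx : a 2 < x) :
    Gsol a v0 v2 x =
      v2 + (v0 - v2) * (cardy ((a 1 - a 0) * (x - a 2) / ((a 2 - a 0) * (x - a 1))) : ℝ) := by
  unfold Gsol
  have hsc : (sd3 a : ℂ) ≠ 0 := by exact_mod_cast (sd3_pos h01 h12).ne'
  have h5 := F3_right h01 h12 hx
  have h6 := F3_02 h01 h12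
  rw [h5, show F3 a (a 2) = F3 a (a 0) - sd3 a by linear_combination -h6]
  field_simp
  ring

end Pool.Agent.H74.W
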