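import Mathlib
import Pool.Agent.H74.W.Uniq
import Pool.Agent.H74.W.Tri6

set_option autoImplicit false

/-! Route W, D9: Cardy's value on a polygon, weak boundary conditions: near the arc `j` the function is near
the line through `τ^j` and `τ^(j+1)`; nothing is assumed at the vertices. -/

open Complex Metric Set Topology Filter MeasureTheory

noncomputable section

namespace Pool.Agent.H74.W

open Pool.Agent.Q1.M4
open Pool.Agent.H19.RH
open Pool.Agent.H19.RH.Cht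
open Pool.Agent.H69.Car (IsHalf HC HO)
open Pool.Agent.H13.Q1.Four (cardy)
open Pool.Agent.H35.W (Cl OnSides arcs)

variable {P : PType} {x y : ℤ → ℝ} {φ : ℂ → ℂ} {m2 m3 m4 : ℕ}

/-- **Weak side condition** at the arcs: near the arc `j` close to the line through `τ^j`, `τ^(j+1)`. -/
def WSides (V : Set ℂ) (A : Fin 3 → Set ℂ) (H : ℂ → ℂ) : Prop :=
  ∀ j : Fin 3, ∀ z0 ∈ A j, ∀ ε > (0 : ℝ), ∃ δ > (0 : ℝ), ∀ z ∈ ball z0 δ, z ∈ V →
    ∃ s : ℝ, ‖H z - (tau ^ (j : ℕ) + s * (tau ^ ((j : ℕ) + 1) - tau ^ (j : ℕ)))‖ ≤ ε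

lemma im_div_le {u p v : ℂ} (hv : v ≠ 0) {s ε : ℝ} (h : ‖u - (p + s * v)‖ ≤ ε) :
    |((u - p) / v).im| ≤ ε / ‖v‖ := by
  have e : (u - p) / v = (u - (p + s * v)) / v + s := by
    field_simp
    ring
  rw [e]
  simp only [add_im, ofReal_im, add_zero]
  refine (Complex.abs_im_le_norm _).trans ?_
  rw [norm_div]
  exact div_le_div_of_nonneg_right h (norm_nonneg _)

/-- boundary limit of the distance to the line -/
lemma comp_im_limit (C : Cht P x y φ) {H : ℂ → ℂ} {z0 : ℂ} {t : ℝ} (ht : φ t = z0) {p v : ℂ} (hv : v ≠ 0)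
    (hS : ∀ ε > (0 : ℝ), ∃ δ > (0 : ℝ), ∀ z ∈ ball z0 δ, z ∈ Om P.Q x y →
      ∃ s : ℝ, ‖H z - (p + s * v)‖ ≤ ε) :
    Tendsto (fun z => ((H (φ z) - p) / v).im) (𝓝[UP] (t : ℂ)) (𝓝 0) := by
  rw [Metric.tendsto_nhds]
  intro ε hε
  have hvn : 0 < ‖v‖ := norm_pos_iff.2 hv
  obtain ⟨δ, hδ, h⟩ := hS (ε / 2 * ‖v‖) (by positivity)
  have h1 : ∀ᶠ z in 𝓝[UP] (t : ℂ), φ z ∈ ball z0 δ := by
    have := (C.chart_limit t).eventually (ball_mem_nhds (φ t) hδ)
    rw [← ht]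
    exact this
  filter_upwards [h1, self_mem_nhdsWithin] with z hz hz'
  obtain ⟨s, hs⟩ := h _ hz (C.up_mem hz')
  rw [Real.dist_eq, sub_zero]
  have := im_div_le hv hs
  have e : ε / 2 * ‖v‖ / ‖v‖ = ε / 2 := by field_simp
  rw [e] at this
  linarith

/-- the same with the direction reversed (the line through `p` and `p + v`, based at `p + v`) -/
lemma line_swap {H : ℂ → ℂ} {V : Set ℂ} {z0 p v : ℂ} (hS : ∀ ε > (0 : ℝ), ∃ δ > (0 : ℝ), ∀ z ∈ ball z0 δ,
    z ∈ V → ∃ s : ℝ, ‖H z - (p + s * v)‖ ≤ ε) : ∀ ε > (0 : ℝ), ∃ δ > (0 : ℝ), ∀ z ∈ ball z0 δ,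
    z ∈ V → ∃ s : ℝ, ‖H z - ((p + v) + s * (-v))‖ ≤ ε := by
  intro ε hε
  obtain ⟨δ, hδ, h⟩ := hS ε hε
  refine ⟨δ, hδ, fun z hz hzV => ?_⟩
  obtain ⟨s, hs⟩ := h z hz hzV
  refine ⟨1 - s, ?_⟩
  have : (p + v) + ((1 - s : ℝ) : ℂ) * (-v) = p + s * v := by push_cast; ring
  rw [this]
  exact hs

/-- **Cardy's value on a polygon, weak boundary conditions.** -/
theorem arcs_value_w (C : Cht P x y φ) (h02 : 0 < m2) (h23 : m2 < m3) (h34 : m3 < m4) (h4N : m4 < P.N)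
    {H : ℂ → ℂ} {F : Finset ℂ} (hd : DifferentiableOn ℂ H (Om P.Q x y)) {C0 : ℝ}
    (hb : ∀ z ∈ Om P.Q x y, ‖H z‖ ≤ C0) (hS : WSides (Om P.Q x y) (arcs P x y F m2 m3) H) :
    Tendsto H (𝓝[Om P.Q x y] (pt x y (P.vert m4)))
      (𝓝 (tau ^ 2 + (1 - tau ^ 2) * (cardy (lam P x y m2 m3 m4 φ) : ℝ))) := by
  classical
  have hN := two_le_N P
  have r2 : (0 : ℝ) < m2 := by exact_mod_cast h02
  have r23 : (m2 : ℝ) < m3 := by exact_mod_cast h23
  have r34 : (m3 : ℝ) < m4 := by exact_mod_cast h34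
  have r4N : (m4 : ℝ) + 1 ≤ P.N := by exact_mod_cast h4N
  have mem : ∀ k : ℕ, k + 1 ≤ P.N → ((P.N : ℝ) + k) ∈ Ioo (bt P) (bt P + P.N) := by
    intro k hk
    have : (k : ℝ) + 1 ≤ P.N := by exact_mod_cast hk
    have hk0 : (0 : ℝ) ≤ k := Nat.cast_nonneg k
    unfold bt
    constructor <;> linarith
  have memN : (P.N : ℝ) ∈ Ioo (bt P) (bt P + P.N) := by simpa using mem 0 (by omega)
  have mem2 := mem m2 (by omega)
  have mem3 := mem m3 (by omega)
  have mem4 := mem m4 (by omega)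
  set a : Fin 3 → ℝ := ![sg P x y φ P.N, sg P x y φ (P.N + m2), sg P x y φ (P.N + m3)] with ha
  have a0 : a 0 = sg P x y φ P.N := rfl
  have a1 : a 1 = sg P x y φ (P.N + m2) := rfl
  have a2 : a 2 = sg P x y φ (P.N + m3) := rfl
  have hmono := C.sg_mono
  have h01 : a 0 < a 1 := by
    rw [a0, a1]
    exact hmono memN mem2 (by linarith)
  have h12 : a 1 < a 2 := by
    rw [a1, a2]
    exact hmono mem2 mem3 (by linarith)
  set x0 : ℝ := sg P x y φ (P.N + m4) with hx0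
  have hx : a 2 < x0 := by
    rw [a2, hx0]
    exact hmono mem3 mem4 (by linarith)
  obtain ⟨E, hEm⟩ : ∃ E : Finset ℝ, ∀ t : ℝ, t ∉ E → φ t ∉ F := by
    have hinj : InjOn (fun t : ℝ => φ t) ((fun t : ℝ => φ t) ⁻¹' (F : Set ℂ)) :=
      fun s _ t _ h => C.half.inj_real h
    refine ⟨F.preimage (fun t : ℝ => φ t) hinj, fun t ht h => ht ?_⟩
    rw [Finset.mem_preimage]
    exact h
  have hHd : DifferentiableOn ℂ (fun z => H (φ z)) UP := by
    have h1 : DifferentiableOn ℂ φ UP := C.half.diff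
    exact hd.comp h1 fun z hz => C.up_mem hz
  have hHb : ∀ z ∈ UP, ‖H (φ z)‖ ≤ C0 := fun z hz => hb _ (C.up_mem hz)
  have lt_iff : ∀ {u v : ℝ}, u ∈ Ioo (bt P) (bt P + P.N) → v ∈ Ioo (bt P) (bt P + P.N) →
      (sg P x y φ u < sg P x y φ v ↔ u < v) := fun hu hv => hmono.lt_iff_lt hu hv
  have hcrv4 : pt x y (P.vert m4) = crv P x y (P.N + m4) := by
    have h := crv_add_N P (x := x) (y := y) (u := (m4 : ℝ)) (Nat.cast_nonneg _)
    rw [add_comm] at h
    rw [h, crv_eq P (n := m4) le_rfl (by linarith)]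
    simp [P.sidePt_zero]
  have hφ0 : φ x0 = pt x y (P.vert m4) := by
    rw [hcrv4, hx0]
    exact C.sg_spec mem4
  -- a point with parameter `u - N` in `[0, N)`
  have side_of : ∀ {t : ℝ}, t ∉ E → ∀ {v : ℝ} {p q : ℕ}, φ t = crv P x y v → (p : ℝ) < v → v < q →
      ∀ (j : Fin 3), (∀ n, p ≤ n → n < q →
        (if j = 0 then n < m2 else if j = 1 then m2 ≤ n ∧ n < m3 else m3 ≤ n ∧ n < P.N)) →
      φ t ∈ arcs P x y F m2 m3 j := by
    intro t ht v p q hv hp' hq j hj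
    have hv0 : 0 ≤ v := (Nat.cast_nonneg p).trans hp'.le
    have h1 : (⌊v⌋₊ : ℝ) ≤ v := Nat.floor_le hv0
    have h2 : v < ⌊v⌋₊ + 1 := Nat.lt_floor_add_one v
    have h3 : p ≤ ⌊v⌋₊ := Nat.le_floor hp'.le
    have h4 : ⌊v⌋₊ < q := by
      have : (⌊v⌋₊ : ℝ) < q := lt_of_le_of_lt h1 hq
      exact_mod_cast this
    have h5 := hEm t ht
    rw [hv] at h5 ⊢
    exact crv_mem_arcs h1 h2.le (hj _ h3 h4) h5
  have hv : tau ^ 1 - tau ^ 0 = -om ^ 2 * (tau ^ 2 - tau ^ 0) := by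
    rw [tau_eq]
    linear_combination (om ^ 3 + 1) * om_cube
  have hv0 : tau ^ 2 ≠ tau ^ 0 := by
    rw [tau_sq, pow_zero]
    exact om_ne_one
  have h10 : tau ^ 1 - tau ^ 0 ≠ 0 := by
    rw [pow_one, pow_zero]
    exact sub_ne_zero.2 tau_ne_one
  have t0 : tau ≠ 0 := by
    intro h
    have := tau_cube
    rw [h] at this
    norm_num at this
  have h21 : tau ^ 2 - tau ^ 1 ≠ 0 := by
    have : tau ^ 2 - tau ^ 1 = tau * (tau ^ 1 - tau ^ 0) := by ring
    rw [this]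
    exact mul_ne_zero t0 h10
  have key := half_eq_w (a := a) h01 h12 hHd hHb E hv hv0 ?_ ?_ ?_
  · -- the limit at the vertex
    rw [Metric.tendsto_nhdsWithin_nhds]
    intro ε hε
    have hGl := Gsol_limit h01 h12 (tau ^ 0) (tau ^ 2) x0
    rw [Metric.tendsto_nhdsWithin_nhds] at hGl
    obtain ⟨η, hη, hG⟩ := hGl ε hε
    obtain ⟨δ, hδ, hinv⟩ := inv_cont C.half (real_HC x0) hη
    refine ⟨δ, hδ, fun {w} hw hwd => ?_⟩
    rw [← C.half.image] at hw
    obtain ⟨ζ, hζ, rfl⟩ := hw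
    have hζ' : ζ ∈ UP := hζ
    have e1 : H (φ ζ) = Gsol a (tau ^ 0) (tau ^ 2) ζ := key ζ hζ'
    have e2 : Gsol a (tau ^ 0) (tau ^ 2) x0 =
        tau ^ 2 + (1 - tau ^ 2) * (cardy (lam P x y m2 m3 m4 φ) : ℝ) := by
      rw [Gsol_right h01 h12 _ _ hx, pow_zero]
      congr 3
      unfold lam cc cc.sg'
      rw [a0, a1, a2, hx0]
      congr 1
      push_cast
      ring_nf
    rw [e1, ← e2]
    apply hG hζ'
    apply hinv ζ _ (by rw [hφ0]; exact hwd)
    exact le_of_lt (show 0 < ζ.im from hζ')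
  · intro t ht ht'
    obtain ⟨u, hu, hut⟩ := C.sg_surj t
    have hφt : φ t = crv P x y u := by rw [← hut]; exact C.sg_spec hu
    have hmem : φ t ∈ arcs P x y F m2 m3 2 := by
      rcases ht' with h | h
      · rw [a0, ← hut, lt_iff hu memN] at h
        have h5 := hu.1
        unfold bt at h5
        refine side_of ht hφt (p := m3) (q := P.N) (by linarith) h 2 ?_
        intro n h1 h2
        simpa using ⟨h1, h2⟩
      · rw [a2, ← hut, lt_iff mem3 hu] at h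
        have h5 := hu.2
        unfold bt at h5
        have h6 : φ t = crv P x y (u - P.N) := by
          rw [hφt, ← crv_add_N P (by linarith : 0 ≤ u - P.N), sub_add_cancel]
        refine side_of ht h6 (p := m3) (q := P.N) (by linarith) (by linarith) 2 ?_
        intro n h1 h2
        simpa using ⟨h1, h2⟩
    have h7 := line_swap (hS 2 _ hmem)
    have e : tau ^ ((2 : Fin 3) : ℕ) + (tau ^ (((2 : Fin 3) : ℕ) + 1) - tau ^ ((2 : Fin 3) : ℕ)) =
        tau ^ 0 := by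
      have h3 : tau ^ (((2 : Fin 3) : ℕ) + 1) = 1 := tau_cube
      rw [h3]; ring
    have e' : -(tau ^ (((2 : Fin 3) : ℕ) + 1) - tau ^ ((2 : Fin 3) : ℕ)) = tau ^ 2 - tau ^ 0 := by
      have h3 : tau ^ (((2 : Fin 3) : ℕ) + 1) = 1 := tau_cube
      rw [h3]
      show -(1 - tau ^ 2) = _
      ring
    rw [e, e'] at h7
    exact comp_im_limit C rfl (sub_ne_zero.2 hv0) h7
  · intro t ht ht0 ht1
    obtain ⟨u, hu, hut⟩ := C.sg_surj t
    have hφt : φ t = crv P x y u := by rw [← hut]; exact C.sg_spec hu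
    rw [a0, ← hut, lt_iff memN hu] at ht0
    rw [a1, ← hut, lt_iff hu mem2] at ht1
    have h6 : φ t = crv P x y (u - P.N) := by
      rw [hφt, ← crv_add_N P (by linarith : 0 ≤ u - P.N), sub_add_cancel]
    have hmem : φ t ∈ arcs P x y F m2 m3 0 := by
      refine side_of ht h6 (p := 0) (q := m2) (by simpa using ht0) (by linarith) 0 ?_
      intro n _ h2
      simpa using h2
    exact comp_im_limit C rfl h10 (hS 0 _ hmem)
  · intro t ht ht0 ht1
    obtain ⟨u, hu, hut⟩ := C.sg_surj t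
    have hφt : φ t = crv P x y u := by rw [← hut]; exact C.sg_spec hu
    rw [a1, ← hut, lt_iff mem2 hu] at ht0
    rw [a2, ← hut, lt_iff hu mem3] at ht1
    have h6 : φ t = crv P x y (u - P.N) := by
      rw [hφt, ← crv_add_N P (by linarith : 0 ≤ u - P.N), sub_add_cancel]
    have hmem : φ t ∈ arcs P x y F m2 m3 1 := by
      refine side_of ht h6 (p := m2) (q := m3) (by linarith) (by linarith) 1 ?_
      intro n h1 h2
      simpa using ⟨h1, h2⟩
    exact comp_im_limit C rfl h21 (hS 1 _ hmem)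

end Pool.Agent.H74.W
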