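import Mathlib
import Pool.Agent.H74.W.Ext
import Pool.Agent.H74.W.Val
import Pool.Agent.H74.W.Lim
import Pool.Agent.H35.W.Glue3
import Pool.Agent.H44.W.Close

set_option autoImplicit false

/-! Route W, D9: the abstract top. A family of bounded lattice functions on a rectilinear polygon with
horizontal chords: local analyticity of the limits, comparison across the chords, side condition, one
comparison point near the vertex `m4`; conclusion: Cardy's formula. -/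

open Complex Metric Set Topology Filter

noncomputable section

namespace Pool.Agent.H74.W

open Pool.Agent
open Pool.Agent.H44.W (av WLim)
open Pool.Agent.H35.W (ultra_limit locUnif aeq_interior arcs)
open Pool.Agent.Q1.M4 (lat PType Om pt isOpen_Om)
open Pool.Agent.H19.RH (Cht lam)
open Pool.Agent.H13.Q1.Four (cardy)

variable {κ : Type*}

/-- local limit value of box averages along an ultrafilter -/
def LocW (f : ℕ → ℤ × ℤ → ℂ) (R : ℕ → ℝ) (U : Ultrafilter ℕ) (z v : ℂ) : Prop :=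
  ∃ r > 0, ∃ g : ℂ → ℂ, DifferentiableOn ℂ g (ball z r) ∧ WLim R (U : Filter ℕ) (ball z r) f g ∧ g z = v

variable {f : ℕ → ℤ × ℤ → ℂ} {R : ℕ → ℝ} {U : Ultrafilter ℕ} {z v v' : ℂ}

lemma LocW.unique (hR : Tendsto R U atTop) (h : LocW f R U z v) (h' : LocW f R U z v') : v = v' := by
  obtain ⟨r, hr, g, hg, hw, rfl⟩ := h
  obtain ⟨r', hr', g', hg', hw', rfl⟩ := h'
  have s1 : ball z (min r r') ⊆ ball z r := ball_subset_ball (min_le_left _ _)
  have s2 : ball z (min r r') ⊆ ball z r' := ball_subset_ball (min_le_right _ _)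
  exact Pool.Agent.H44.W.WLim.unique hR isOpen_ball (hg.mono s1).continuousOn (hg'.mono s2).continuousOn
    (WLim.mono_set hw s1) (WLim.mono_set hw' s2) (mem_ball_self (lt_min hr hr'))

open Classical in
/-- the limit function -/
def gW (f : ℕ → ℤ × ℤ → ℂ) (R : ℕ → ℝ) (U : Ultrafilter ℕ) (z : ℂ) : ℂ :=
  if h : ∃ v, LocW f R U z v then h.choose else 0

lemma gW_eq (hR : Tendsto R U atTop) (h : LocW f R U z v) : gW f R U z = v := by
  have h1 : ∃ v, LocW f R U z v := ⟨v, h⟩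
  unfold gW
  rw [dif_pos h1]
  exact LocW.unique hR h1.choose_spec h

lemma gW_ball (hR : Tendsto R U atTop) {g : ℂ → ℂ} {z0 : ℂ} {r : ℝ}
    (hg : DifferentiableOn ℂ g (ball z0 r)) (h : WLim R (U : Filter ℕ) (ball z0 r) f g) :
    EqOn (gW f R U) g (ball z0 r) := by
  intro z hz
  have hs : ball z (r - dist z z0) ⊆ ball z0 r := ball_subset_ball' (by linarith)
  have hr : 0 < r - dist z z0 := by
    have : dist z z0 < r := hz
    linarith
  exact gW_eq hR ⟨_, hr, g, hg.mono hs, WLim.mono_set h hs, rfl⟩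

lemma gW_bound (hR : Tendsto R U atTop) {B : ℝ} (hB : ∀ j p, ‖f j p‖ ≤ B) (z : ℂ) :
    ‖gW f R U z‖ ≤ B := by
  have hB0 : 0 ≤ B := (norm_nonneg _).trans (hB 0 0)
  by_cases h : ∃ v, LocW f R U z v
  · obtain ⟨v, hv⟩ := h
    rw [gW_eq hR hv]
    obtain ⟨r, hr, g, hg, hw, rfl⟩ := hv
    have := Pool.Agent.H35.W.WLim.near' hR isOpen_ball hw hg.continuousOn (mem_ball_self hr) hr
      (c := fun _ => 0) (c0 := 0) tendsto_const_nhds (ε := B)
      (Eventually.of_forall fun j v _ _ => by simpa using hB j v)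
    simpa using this
  · unfold gW
    rw [dif_neg h, norm_zero]
    exact hB0

lemma im_line {u a b : ℂ} (hb : b ≠ 0) {ε : ℝ} (h : |((u - a) / b).im| ≤ ε / ‖b‖) :
    ∃ s : ℝ, ‖u - (a + s * b)‖ ≤ ε := by
  have hbn : 0 < ‖b‖ := norm_pos_iff.2 hb
  set w : ℂ := (u - a) / b with hw
  refine ⟨w.re, ?_⟩
  have e1 : u - (a + w.re * b) = (w - w.re) * b := by
    have : u = a + w * b := by rw [hw]; field_simp; ring
    rw [this]; ring
  have e2 : w - w.re = w.im * I := by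
    apply Complex.ext <;> simp
  rw [e1, e2, norm_mul, norm_mul, norm_I, mul_one, Complex.norm_real, Real.norm_eq_abs]
  calc |w.im| * ‖b‖ ≤ ε / ‖b‖ * ‖b‖ := mul_le_mul_of_nonneg_right h hbn.le
    _ = ε := by field_simp

/-- **Abstract top of S4.** -/
theorem top_abs {l : Filter κ} {P : PType} {x y : ℤ → ℝ} {φ : ℂ → ℂ} {m2 m3 m4 : ℕ}
    (C : Cht P x y φ) (h02 : 0 < m2) (h23 : m2 < m3) (h34 : m3 < m4) (h4N : m4 < P.N)
    {S : Finset (ℂ × ℂ)} (hS : ∀ s ∈ S, s.1.im = s.2.im) (F : Finset ℂ)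
    {f : κ → ℕ → ℤ × ℤ → ℂ} {R : κ → ℕ → ℝ} {q : κ → ℕ → ℝ}
    (hR : ∀ᶠ k in l, Tendsto (R k) atTop atTop) {B : ℝ} (hB : ∀ k h p, ‖f k h p‖ ≤ B)
    (hq : ∀ k h, 0 ≤ q k h ∧ q k h ≤ 1)
    (hH : ∀ z0 ∈ Om P.Q x y, z0 ∉ H98.W.segU S → z0 ∉ F → ∃ r > (0 : ℝ), ∀ᶠ k in l,
      ∀ U : Ultrafilter ℕ, (U : Filter ℕ) ≤ atTop → ∃ g : ℂ → ℂ, DifferentiableOn ℂ g (ball z0 r) ∧
        WLim (R k) (U : Filter ℕ) (ball z0 r) (f k) g)
    (hC : ∀ z0 ∈ Om P.Q x y, z0 ∈ H98.W.segU S → z0 ∉ F → ∀ ε > (0 : ℝ), ∃ δ > (0 : ℝ),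
      ∀ z ∈ ball z0 δ, ∀ z' ∈ ball z0 δ, z.re = z'.re → z.im < z0.im → z0.im < z'.im →
      ∃ r > (0 : ℝ), ∀ᶠ k in l, ∀ᶠ h : ℕ in atTop, ∀ p p' : ℤ × ℤ, p.1 = p'.1 →
        dist (lat p / (R k h : ℂ)) z < r → dist (lat p' / (R k h : ℂ)) z' < r →
        ‖f k h p - f k h p'‖ ≤ ε)
    (hSd : ∀ j : Fin 3, ∀ z0 ∈ arcs P x y F m2 m3 j, ∀ ε > (0 : ℝ), ∃ δ > (0 : ℝ), ∀ z ∈ ball z0 δ,
      z ∈ Om P.Q x y → z ∉ H98.W.segU S → ∃ r > (0 : ℝ), ∀ᶠ k in l, ∀ᶠ h : ℕ in atTop,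
      ∀ p : ℤ × ℤ, dist (lat p / (R k h : ℂ)) z < r → ∃ s : ℝ,
        ‖f k h p - (tau ^ (j : ℕ) + s * (tau ^ ((j : ℕ) + 1) - tau ^ (j : ℕ)))‖ ≤ ε)
    (h4 : ∀ ε > (0 : ℝ), ∀ δ > (0 : ℝ), ∃ z ∈ Om P.Q x y, z ∉ H98.W.segU S ∧
      dist z (pt x y (P.vert m4)) < δ ∧ ∃ r > (0 : ℝ), ∀ᶠ k in l, ∀ᶠ h : ℕ in atTop,
      ∀ p : ℤ × ℤ, dist (lat p / (R k h : ℂ)) z < r →
        ‖f k h p - ((q k h : ℂ) + (1 - (q k h : ℂ)) * tau ^ 2)‖ ≤ ε) :
    ∀ ε > (0 : ℝ), ∀ᶠ k in l, ∀ᶠ h : ℕ in atTop, |q k h - cardy (lam P x y m2 m3 m4 φ)| ≤ ε := by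
  classical
  intro ε hε
  by_contra hcon
  set c : ℝ := cardy (lam P x y m2 m3 m4 φ) with hc
  set V : Set ℂ := Om P.Q x y with hVdef
  have hV : IsOpen V := isOpen_Om _ _ _
  set Bad : Set κ := {k | ¬ ∀ᶠ h : ℕ in atTop, |q k h - c| ≤ ε} with hBad
  have hne : NeBot (l ⊓ 𝓟 Bad) := by
    rw [← frequently_mem_iff_neBot]
    exact not_eventually.1 hcon
  set W : Ultrafilter κ := Ultrafilter.of (l ⊓ 𝓟 Bad) with hW
  have hWl : (W : Filter κ) ≤ l := (Ultrafilter.of_le _).trans inf_le_left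
  have hWB : ∀ᶠ k in (W : Filter κ), k ∈ Bad :=
    (Ultrafilter.of_le (l ⊓ 𝓟 Bad)).trans inf_le_right (mem_principal_self Bad)
  -- ultrafilters on the meshes
  have hUex : ∀ k, ∃ U : Ultrafilter ℕ, (U : Filter ℕ) ≤ atTop ∧
      (k ∈ Bad → ∀ᶠ h in (U : Filter ℕ), ε ≤ |q k h - c|) := by
    intro k
    by_cases hk : k ∈ Bad
    · have h1 : NeBot (atTop ⊓ 𝓟 {h : ℕ | ε ≤ |q k h - c|}) := by
        rw [← frequently_mem_iff_neBot]
        have h2 : ∃ᶠ h : ℕ in atTop, ¬ |q k h - c| ≤ ε := not_eventually.1 hk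
        exact h2.mono fun h h3 => (not_le.1 h3).le
      exact ⟨Ultrafilter.of _, (Ultrafilter.of_le _).trans inf_le_left, fun _ =>
        (Ultrafilter.of_le (atTop ⊓ 𝓟 {h : ℕ | ε ≤ |q k h - c|})).trans inf_le_right
          (mem_principal_self _)⟩
    · exact ⟨Ultrafilter.of atTop, Ultrafilter.of_le _, fun h => absurd h hk⟩
  choose U hU1 hU2 using hUex
  have hRW : ∀ᶠ k in (W : Filter κ), Tendsto (R k) (U k) atTop := by
    filter_upwards [hWl hR] with k hk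
    exact hk.mono_left (hU1 k)
  -- limits of `q`
  have hqn : ∀ k h, ‖(q k h : ℂ)‖ ≤ 1 := by
    intro k h
    rw [Complex.norm_real, Real.norm_eq_abs, abs_le]
    constructor
    · linarith [(hq k h).1]
    · exact (hq k h).2
  have hwex : ∀ k, ∃ w : ℂ, Tendsto (fun h => (q k h : ℂ)) (U k : Filter ℕ) (𝓝 w) := fun k =>
    ultra_limit (U k) (C := 1) (Eventually.of_forall fun h => hqn k h)
  choose w hw using hwex
  have hwn : ∀ k, ‖w k‖ ≤ 1 := fun k => le_of_tendsto (hw k).norm (Eventually.of_forall fun h => hqn k h)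
  obtain ⟨ω, hω⟩ := ultra_limit W (f := w) (C := 1) (Eventually.of_forall hwn)
  have hωc : ε ≤ ‖ω - c‖ := by
    apply ge_of_tendsto (hω.sub_const (c : ℂ)).norm
    filter_upwards [hWB] with k hk
    apply ge_of_tendsto ((hw k).sub_const (c : ℂ)).norm
    filter_upwards [hU2 k hk] with h hh
    rw [← ofReal_sub, Complex.norm_real, Real.norm_eq_abs]
    exact hh
  -- the limit function
  have hgb : ∀ z, ∀ᶠ k in (W : Filter κ), ‖gW (f k) (R k) (U k) z‖ ≤ B := by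
    intro z
    filter_upwards [hRW] with k hk
    exact gW_bound hk (hB k) z
  have hHex : ∀ z, ∃ v, Tendsto (fun k => gW (f k) (R k) (U k) z) (W : Filter κ) (𝓝 v) := fun z =>
    ultra_limit W (hgb z)
  choose H hHt using hHex
  have hHb : ∀ z, ‖H z‖ ≤ B := fun z => le_of_tendsto (hHt z).norm (hgb z)
  set A : Set ℂ := V \ (H98.W.segU S ∪ F) with hA
  have hAo : IsOpen A := hV.sdiff ((H98.W.isClosed_segU S).union F.finite_toSet.isClosed)
  -- local data
  have hloc : ∀ z0 ∈ A, ∃ r > (0 : ℝ), ∀ᶠ k in (W : Filter κ), Tendsto (R k) (U k) atTop ∧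
      ∃ g : ℂ → ℂ, DifferentiableOn ℂ g (ball z0 r) ∧
        WLim (R k) (U k : Filter ℕ) (ball z0 r) (f k) g ∧ EqOn (gW (f k) (R k) (U k)) g (ball z0 r) := by
    intro z0 hz0
    obtain ⟨r, hr, h1⟩ := hH z0 hz0.1 (fun h => hz0.2 (Or.inl h)) (fun h => hz0.2 (Or.inr h))
    refine ⟨r, hr, ?_⟩
    filter_upwards [hWl h1, hRW] with k hk hk'
    obtain ⟨g, hg1, hg2⟩ := hk (U k) (hU1 k)
    exact ⟨hk', g, hg1, hg2, gW_ball hk' hg1 hg2⟩
  -- analyticity
  have hHd : DifferentiableOn ℂ H A := by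
    intro z0 hz0
    obtain ⟨r, hr, h1⟩ := hloc z0 hz0
    have hd : ∀ᶠ k in (W : Filter κ), DifferentiableOn ℂ (gW (f k) (R k) (U k)) (ball z0 r) := by
      filter_upwards [h1] with k hk
      obtain ⟨-, g, hg1, -, hg3⟩ := hk
      exact hg1.congr hg3
    have hb : ∀ᶠ k in (W : Filter κ), ∀ z ∈ ball z0 r, ‖gW (f k) (R k) (U k) z‖ ≤ B := by
      filter_upwards [hRW] with k hk z _
      exact gW_bound hk (hB k) z
    have haeq : ∀ z1 ∈ ball z0 r, H35.W.AEqAt (W : Filter κ) (ball z0 r)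
        (fun k => gW (f k) (R k) (U k)) z1 := by
      intro z1 hz1
      have hz1' : dist z1 z0 < r := hz1
      have hs : ball z1 (r - dist z1 z0) ⊆ ball z0 r := ball_subset_ball' (by linarith)
      apply aeq_interior (R := r - dist z1 z0) (C := B) (by linarith)
      · filter_upwards [hd] with k hk
        exact hk.mono hs
      · filter_upwards [hb] with k hk z hz
        exact hk z (hs hz)
    obtain ⟨-, hlu⟩ := locUnif (G := H) haeq (fun z _ => hHt z)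
    have := hlu.differentiableOn hd isOpen_ball
    exact (this.differentiableAt (isOpen_ball.mem_nhds (mem_ball_self hr))).differentiableWithinAt
  -- chords
  have hv : ∀ z0 ∈ V, z0 ∈ H98.W.segU S → z0 ∉ F → VCmp H z0 := by
    intro z0 hz0 hz0S hz0F ε' hε'
    obtain ⟨δ, hδ, h1⟩ := hC z0 hz0 hz0S hz0F ε' hε'
    obtain ⟨r0, hr0, hr0S⟩ := horiz_loc' hS z0
    obtain ⟨r1, hr1, hr1V⟩ := Metric.isOpen_iff.1 hV z0 hz0
    obtain ⟨r2, hr2, hr2F⟩ := Metric.isOpen_iff.1 F.finite_toSet.isClosed.isOpen_compl z0 hz0F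
    set δ' : ℝ := min (min δ r0) (min r1 r2) with hδ'
    have hd1 : δ' ≤ δ := (min_le_left _ _).trans (min_le_left _ _)
    have hd2 : δ' ≤ r0 := (min_le_left _ _).trans (min_le_right _ _)
    have hd3 : δ' ≤ r1 := (min_le_right _ _).trans (min_le_left _ _)
    have hd4 : δ' ≤ r2 := (min_le_right _ _).trans (min_le_right _ _)
    have hmem : ∀ z ∈ ball z0 δ', z.im ≠ z0.im → z ∈ A := by
      intro z hz hzi
      refine ⟨hr1V (ball_subset_ball hd3 hz), ?_⟩
      rintro (h | h)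
      · exact hr0S z (ball_subset_ball hd2 hz) hzi h
      · exact hr2F (ball_subset_ball hd4 hz) h
    refine ⟨δ', lt_min (lt_min hδ hr0) (lt_min hr1 hr2), fun z hz z' hz' hre hlt hlt' => ?_⟩
    obtain ⟨r, hr, h2⟩ := h1 z (ball_subset_ball hd1 hz) z' (ball_subset_ball hd1 hz') hre hlt hlt'
    obtain ⟨ρ, hρ, h3⟩ := hloc z (hmem z hz hlt.ne)
    obtain ⟨ρ', hρ', h3'⟩ := hloc z' (hmem z' hz' hlt'.ne')
    apply le_of_tendsto ((hHt z).sub (hHt z')).norm
    filter_upwards [hWl h2, h3, h3'] with k k2 k3 k3'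
    obtain ⟨hRk, g, hg1, hg2, hg3⟩ := k3
    obtain ⟨-, g', hg1', hg2', hg3'⟩ := k3'
    rw [hg3 (mem_ball_self hρ), hg3' (mem_ball_self hρ')]
    exact pair_cmp hRk isOpen_ball isOpen_ball hg2 hg2' hg1.continuousOn hg1'.continuousOn
      (mem_ball_self hρ) (mem_ball_self hρ') hre hr (hU1 k k2)
  obtain ⟨G, hGd, hGb, hGH⟩ := extend_chords hV hS F hHd (fun z _ => hHb z) hv
  have hcl : V ⊆ closure A := sub_closure hV hS F
  -- side condition
  have t0 : tau ≠ 0 := by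
    intro h
    have := tau_cube
    rw [h] at this
    norm_num at this
  have hGS : WSides V (arcs P x y F m2 m3) G := by
    intro j z0 hz0 ε' hε'
    set a : ℂ := tau ^ (j : ℕ) with ha
    set b : ℂ := tau ^ ((j : ℕ) + 1) - tau ^ (j : ℕ) with hb
    have hb0 : b ≠ 0 := H35.W.side_ne t0 tau_ne_one j
    obtain ⟨δ, hδ, h1⟩ := hSd j z0 hz0 ε' hε'
    refine ⟨δ, hδ, fun z hz hzV => ?_⟩
    apply im_line hb0
    -- first for points of `A`
    have key : ∀ z1 ∈ A, z1 ∈ ball z0 δ → |((G z1 - a) / b).im| ≤ ε' / ‖b‖ := by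
      intro z1 hz1 hz1b
      rw [hGH hz1]
      obtain ⟨r, hr, h2⟩ := h1 z1 hz1b hz1.1 (fun h => hz1.2 (Or.inl h))
      obtain ⟨ρ, hρ, h3⟩ := hloc z1 hz1
      have hlim : Tendsto (fun k => |((gW (f k) (R k) (U k) z1 - a) / b).im|) (W : Filter κ)
          (𝓝 |((H z1 - a) / b).im|) := by
        apply Tendsto.abs
        exact (Complex.continuous_im.tendsto _).comp (((hHt z1).sub_const a).div_const b)
      apply le_of_tendsto hlim
      filter_upwards [hWl h2, h3] with k k2 k3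
      obtain ⟨hRk, g, hg1, hg2, hg3⟩ := k3
      rw [hg3 (mem_ball_self hρ)]
      exact line_lim hRk isOpen_ball hg2 hg1.continuousOn (mem_ball_self hρ) hb0 hr (hU1 k k2)
    have hnb : (𝓝[A] z).NeBot := mem_closure_iff_nhdsWithin_neBot.1 (hcl hzV)
    have hlim : Tendsto (fun z1 => |((G z1 - a) / b).im|) (𝓝[A] z) (𝓝 |((G z - a) / b).im|) := by
      apply Tendsto.abs
      exact (Complex.continuous_im.tendsto _).comp
        ((((hGd.continuousOn.continuousAt (hV.mem_nhds hzV)).mono_left nhdsWithin_le_nhds).sub_const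
          a).div_const b)
    apply le_of_tendsto hlim
    filter_upwards [self_mem_nhdsWithin, mem_nhdsWithin_of_mem_nhds (isOpen_ball.mem_nhds hz)] with
      z1 hz1 hz1b
    exact key z1 hz1 hz1b
  have hval := arcs_value_w C h02 h23 h34 h4N hGd hGb hGS
  -- the vertex
  have h1t : (1 : ℂ) - tau ^ 2 ≠ 0 := by
    rw [tau_sq]
    exact sub_ne_zero.2 om_ne_one.symm
  have hfin : ∀ η > (0 : ℝ), ‖(1 - tau ^ 2) * (ω - c)‖ ≤ 2 * η := by
    intro η hη
    rw [Metric.tendsto_nhdsWithin_nhds] at hval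
    obtain ⟨δ, hδ, h5⟩ := hval η hη
    obtain ⟨z, hzV, hzS, hzd, r, hr, h6⟩ := h4 η hη δ hδ
    -- a point of `A` near `z`
    obtain ⟨z1, hz1A, hz1⟩ : ∃ z1 ∈ A, dist z z1 < min (r / 2) (δ - dist z (pt x y (P.vert m4))) :=
      Metric.mem_closure_iff.1 (hcl hzV) _ (lt_min (by linarith) (by linarith))
    have hz1r : dist z z1 < r / 2 := hz1.trans_le (min_le_left _ _)
    have hz1d : dist z1 (pt x y (P.vert m4)) < δ := by
      have := hz1.trans_le (min_le_right _ _)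
      calc dist z1 (pt x y (P.vert m4)) ≤ dist z1 z + dist z (pt x y (P.vert m4)) := dist_triangle _ _ _
        _ < δ := by rw [dist_comm z1 z]; linarith
    obtain ⟨ρ, hρ, h3⟩ := hloc z1 hz1A
    have e1 : ‖H z1 - (ω + (1 - ω) * tau ^ 2)‖ ≤ η := by
      have hlim : Tendsto (fun k => gW (f k) (R k) (U k) z1 - (w k + (1 - w k) * tau ^ 2))
          (W : Filter κ) (𝓝 (H z1 - (ω + (1 - ω) * tau ^ 2))) :=
        (hHt z1).sub (hω.add ((hω.const_sub 1).mul_const _))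
      apply le_of_tendsto hlim.norm
      filter_upwards [hWl h6, h3] with k k2 k3
      obtain ⟨hRk, g, hg1, hg2, hg3⟩ := k3
      rw [hg3 (mem_ball_self hρ)]
      apply Pool.Agent.H35.W.WLim.near' hRk isOpen_ball hg2 hg1.continuousOn (mem_ball_self hρ)
        (r := r / 2) (by linarith) (c := fun h => (q k h : ℂ) + (1 - (q k h : ℂ)) * tau ^ 2)
        ((hw k).add (((hw k).const_sub 1).mul_const _))
      filter_upwards [hU1 k k2] with h hh p _ hp
      apply hh p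
      calc dist (lat p / (R k h : ℂ)) z ≤ dist (lat p / (R k h : ℂ)) z1 + dist z1 z :=
            dist_triangle _ _ _
        _ < r := by rw [dist_comm z1 z]; linarith
    have e2 := h5 hz1A.1 hz1d
    rw [hGH hz1A, dist_eq_norm] at e2
    have e3 : (1 - tau ^ 2) * (ω - c) = -(H z1 - (ω + (1 - ω) * tau ^ 2)) +
        (H z1 - (tau ^ 2 + (1 - tau ^ 2) * (c : ℂ))) := by ring
    rw [e3]
    calc _ ≤ ‖-(H z1 - (ω + (1 - ω) * tau ^ 2))‖ + ‖H z1 - (tau ^ 2 + (1 - tau ^ 2) * (c : ℂ))‖ :=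
          norm_add_le _ _
      _ ≤ 2 * η := by rw [norm_neg]; linarith
  have h7 : ‖(1 - tau ^ 2) * (ω - c)‖ ≤ 0 := by
    apply le_of_forall_pos_le_add
    intro η hη
    have := hfin (η / 2) (by linarith)
    linarith
  rw [norm_le_zero_iff, mul_eq_zero] at h7
  rcases h7 with h7 | h7
  · exact h1t h7
  · rw [h7, norm_zero] at hωc
    linarith

end Pool.Agent.H74.W
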