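import Mathlib
import Pool.Agent.H74.W.World
import Pool.Agent.H74.W.TopA

set_option autoImplicit false
open Finset Filter Topology Metric

/-! # Route W, D9: `StPl` from the four statements on the glued world -/

noncomputable section

namespace Pool.Agent.H74.W

open Pool.Agent
open Pool.Agent.Q1.M4 (Cell PType lat Om pt)
open Pool.Agent.H21.FM (Shape qn)
open Pool.Agent.H13.W (chG StNP)
open Pool.Agent.H5.C3 (Gen)
open Pool.Agent.H19.RH (Cht lam)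
open Pool.Agent.H13.Q1.Four (cardy)
open Pool.Agent.H58.W (plV PB_nonneg PB_le_one)
open Pool.Agent.H50.W (rf qpl qpl_nonneg qpl_le_one)
open Pool.Agent.H14.FM (ic)
open Pool.Agent.H35.W (arcs)

/-- the sides of the chords as segments -/
def chS (Q : Finset Cell) : Finset (ℂ × ℂ) :=
  (chG Q).image fun c => ((⟨c.1, c.2⟩ : ℂ), (⟨c.1 + 1, c.2⟩ : ℂ))

lemma mem_hseg {a b y : ℝ} (h : a ≤ b) {z : ℂ} :
    z ∈ segment ℝ (⟨a, y⟩ : ℂ) ⟨b, y⟩ ↔ z.im = y ∧ a ≤ z.re ∧ z.re ≤ b := by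
  rw [segment_eq_image']
  constructor
  · rintro ⟨t, ⟨h0, h1⟩, rfl⟩
    simp only [Complex.add_im, Complex.add_re, Complex.real_smul, Complex.mul_im, Complex.mul_re,
      Complex.ofReal_re, Complex.ofReal_im, Complex.sub_re, Complex.sub_im]
    refine ⟨by ring, by nlinarith, by nlinarith⟩
  · rintro ⟨h1, h2, h3⟩
    rcases h.eq_or_lt with h4 | h4
    · refine ⟨0, ⟨le_rfl, zero_le_one⟩, ?_⟩
      apply Complex.ext <;> simp <;> linarith
    · have h5 : 0 < b - a := by linarith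
      refine ⟨(z.re - a) / (b - a), ⟨div_nonneg (by linarith) h5.le, (div_le_one h5).2 (by linarith)⟩, ?_⟩
      set t : ℝ := (z.re - a) / (b - a) with ht
      have h6 : t * (b - a) = z.re - a := by rw [ht]; field_simp
      apply Complex.ext
      · simp only [Complex.add_re, Complex.real_smul, Complex.mul_re, Complex.ofReal_re,
          Complex.ofReal_im, Complex.sub_re, zero_mul, sub_zero]
        linarith
      · simp only [Complex.add_im, Complex.real_smul, Complex.mul_im, Complex.ofReal_re,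
          Complex.ofReal_im, Complex.sub_im, zero_mul, sub_self, mul_zero, add_zero]
        exact h1.symm

lemma mem_chS {Q : Finset Cell} {z : ℂ} : z ∈ H98.W.segU (chS Q) ↔ z ∈ chU Q := by
  rw [H98.W.mem_segU]
  unfold chS chU
  constructor
  · rintro ⟨s, hs, hz⟩
    obtain ⟨c, hc, rfl⟩ := Finset.mem_image.1 hs
    rw [mem_hseg (by linarith)] at hz
    exact ⟨c, hc, hz⟩
  · rintro ⟨c, hc, hz⟩
    exact ⟨_, Finset.mem_image_of_mem _ hc, (mem_hseg (by linarith)).2 hz⟩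

lemma chS_horiz {Q : Finset Cell} : ∀ s ∈ chS Q, s.1.im = s.2.im := by
  intro s hs
  obtain ⟨c, _, rfl⟩ := Finset.mem_image.1 hs
  rfl

lemma norm_tau_pow (j : ℕ) : ‖tau ^ j‖ = 1 := by
  have h : ‖tau‖ ^ 3 = 1 := by rw [← norm_pow, tau_cube, norm_one]
  have h1 : ‖tau‖ = 1 := (pow_eq_one_iff_of_nonneg (norm_nonneg _) (by norm_num)).1 h
  rw [norm_pow, h1, one_pow]

lemma norm_hf_le {κ : Type*} [DecidableEq κ] (S : Shape) (h : ℕ) (pl : Cell → Option κ) (p : ℤ × ℤ) :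
    ‖hf S h pl p‖ ≤ 3 := by
  unfold hf
  refine (norm_sum_le _ _).trans ?_
  have : ∀ j : Fin 3, ‖tau ^ (j : ℕ) * (pj S h pl p j : ℂ)‖ ≤ 1 := by
    intro j
    have h0 : 0 ≤ pj S h pl p j := PB_nonneg _ _ _
    rw [norm_mul, norm_tau_pow, one_mul, Complex.norm_real, Real.norm_eq_abs, abs_of_nonneg h0]
    exact PB_le_one _ _ _
  calc ∑ j : Fin 3, ‖tau ^ (j : ℕ) * (pj S h pl p j : ℂ)‖ ≤ ∑ _j : Fin 3, (1 : ℝ) :=
        Finset.sum_le_sum fun j _ => this j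
    _ = 3 := by simp

lemma norm_HF_le (S : Shape) (b : ℤ) (k : ℕ × ℕ) (h : ℕ) (p : ℤ × ℤ) : ‖HF S b k h p‖ ≤ 3 := by
  unfold HF
  split_ifs
  · exact norm_hf_le _ _ _ _
  · simp

lemma qF_mem (S : Shape) (b : ℤ) (k : ℕ × ℕ) (h : ℕ) : 0 ≤ qF S b k h ∧ qF S b k h ≤ 1 := by
  unfold qF
  split_ifs
  · exact ⟨qpl_nonneg _ _ _, qpl_le_one _ _ _⟩
  · exact ⟨le_rfl, zero_le_one⟩

lemma eventually_lK {p : ℕ × ℕ → Prop} : (∀ᶠ k in lK, p k) ↔ ∀ᶠ N in atTop, ∀ᶠ M in atTop, p (N, M) :=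
  Filter.eventually_curry_iff

lemma tendsto_RR : ∀ᶠ k in lK, Tendsto (RR k) atTop atTop := by
  rw [eventually_lK]
  filter_upwards [eventually_ge_atTop 1] with N hN
  filter_upwards [eventually_ge_atTop 1] with M hM
  have h1 : (0 : ℝ) < (N : ℝ) * M := by
    have a : (1 : ℝ) ≤ N := by exact_mod_cast hN
    have b : (1 : ℝ) ≤ M := by exact_mod_cast hM
    positivity
  unfold RR
  simp only
  have h2 : Tendsto (fun h : ℕ => (h : ℝ)) atTop atTop := tendsto_natCast_atTop_atTop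
  exact (h2.const_mul_atTop (by norm_num : (0 : ℝ) < 2)).atTop_mul_const h1

/-- `StPl` for one shape -/
def PlAt (S : Shape) : Prop := ∀ φ : ℂ → ℂ, Cht S.P ic ic φ → ∀ b : ℤ,
  (∀ c ∈ chG S.P.Q, c.1 < b) → ∀ N1 : ℕ, 0 < N1 → ∀ ε > (0 : ℝ), ∃ m0 : ℕ, ∀ m ≥ m0,
    ∃ M0 : ℕ, ∀ M' ≥ M0, ∀ hM : 0 < N1 * m * M', ∃ h0 : ℕ, ∀ h ≥ h0,
      |qpl (rf S (N1 * m * M') hM) h (plV (chG S.P.Q) b (N1 * m) M') -
        cardy (lam S.P ic ic S.m2 S.m3 S.m4 φ)| ≤ ε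

/-- `StPl` for the shapes whose last mark is a right convex corner -/
def StPlR : Prop := ∀ S : Shape, Gen S.P.Q → RgtM S → PlAt S

/-- `StShapeG` for the shapes whose last mark is a right convex corner -/
def StShapeGR : Prop := ∀ S : Shape, Gen S.P.Q → RgtM S → ∀ φ : ℂ → ℂ, Cht S.P ic ic φ → ∀ ε > 0,
  ∃ M : ℕ, 0 < M ∧ ∀ᶠ h : ℕ in atTop,
    |qn S (M * h) - cardy (lam S.P ic ic S.m2 S.m3 S.m4 φ)| ≤ ε

/-- **Top of S4.** -/
theorem stPlR_of (hS : StHol) (hC : StChd) (hB : StSide) (h4 : StCor) : StPlR := by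
  classical
  intro S hG hr φ hφ b hb N1 hN1 ε hε
  obtain ⟨F1, h1⟩ := hS S hG b hb
  obtain ⟨F2, h2⟩ := hC S hG b hb
  obtain ⟨F3, h3⟩ := hB S hG b hb
  have key := top_abs (l := lK) hφ S.h02 S.h23 S.h34 S.P.hmN (S := chS S.P.Q) chS_horiz
    (F1 ∪ F2 ∪ F3) (f := HF S b) (R := RR) (q := qF S b) tendsto_RR (B := 3) (norm_HF_le S b)
    (qF_mem S b) ?_ ?_ ?_ ?_ ε hε
  · rw [eventually_lK, eventually_atTop] at key
    obtain ⟨N0, hN0⟩ := key
    refine ⟨N0, fun m hm => ?_⟩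
    have h5 : N0 ≤ N1 * m := hm.trans (Nat.le_mul_of_pos_left m hN1)
    obtain ⟨M0, hM0⟩ := eventually_atTop.1 (hN0 _ h5)
    refine ⟨M0, fun M' hM' hM => ?_⟩
    obtain ⟨h0, hh0⟩ := eventually_atTop.1 (hM0 M' hM')
    refine ⟨h0, fun h hh => ?_⟩
    have h6 := hh0 h hh
    unfold qF at h6
    rwa [dif_pos hM] at h6
  · intro z0 hz0 hz0S hz0F
    rw [mem_chS] at hz0S
    simp only [Finset.mem_union, not_or] at hz0F
    exact h1 z0 hz0 hz0S hz0F.1.1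
  · intro z0 hz0 hz0S hz0F
    rw [mem_chS] at hz0S
    simp only [Finset.mem_union, not_or] at hz0F
    exact h2 z0 hz0S hz0F.1.2
  · intro j z0 hz0 ε' hε'
    obtain ⟨δ, hδ, h5⟩ := h3 j z0 ⟨fun h => hz0.1 (Finset.mem_union_right _ h), hz0.2⟩ ε' hε'
    refine ⟨δ, hδ, fun z hz hzV hzS => ?_⟩
    rw [mem_chS] at hzS
    exact h5 z hz hzV hzS
  · intro ε' hε' δ hδ
    obtain ⟨z, hz, hzS, h5⟩ := h4 S hG hr b hb ε' hε' δ hδ
    exact ⟨z, hz, fun h => hzS (mem_chS.1 h), h5⟩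

/-- **Top of W-D** for one shape (13's `stShapeG_of`). -/
theorem shapeG_at (hNP : StNP) {S : Shape} (hS : Gen S.P.Q) (hPl : PlAt S) {φ : ℂ → ℂ}
    (hφ : Cht S.P ic ic φ) {ε : ℝ} (hε : 0 < ε) : ∃ M : ℕ, 0 < M ∧ ∀ᶠ h : ℕ in atTop,
    |qn S (M * h) - cardy (lam S.P ic ic S.m2 S.m3 S.m4 φ)| ≤ ε := by
  obtain ⟨b, hb, hE, hN⟩ := hNP S hS
  obtain ⟨N1, hN1, m1, hm1⟩ := H58.W.np S (chG S.P.Q) b hb hE hN (half_pos hε)
  obtain ⟨m2, hm2⟩ := hPl φ hφ b hb N1 hN1 (ε / 2) (half_pos hε)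
  set m := max (max m1 m2) 1 with hm
  have hmp : 0 < m := lt_of_lt_of_le one_pos (le_max_right _ _)
  obtain ⟨M1, hM1⟩ := hm1 m ((le_max_left _ _).trans (le_max_left _ _))
  obtain ⟨M2, hM2⟩ := hm2 m ((le_max_right _ _).trans (le_max_left _ _))
  set M' := max (max M1 M2) 1 with hM'
  have hMp : 0 < M' := lt_of_lt_of_le one_pos (le_max_right _ _)
  have hM : 0 < N1 * m * M' := Nat.mul_pos (Nat.mul_pos hN1 hmp) hMp
  obtain ⟨h1, hh1⟩ := hM1 M' ((le_max_left _ _).trans (le_max_left _ _))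
  obtain ⟨h2, hh2⟩ := hM2 M' ((le_max_right _ _).trans (le_max_left _ _)) hM
  refine ⟨N1 * m * M', hM, ?_⟩
  filter_upwards [eventually_ge_atTop (max h1 h2)] with h hh
  have k1 := hh1 h ((le_max_left _ _).trans hh) hM
  have k2 := hh2 h ((le_max_right _ _).trans hh)
  have e := abs_sub_le (qn S (N1 * m * M' * h))
    (qpl (rf S (N1 * m * M') hM) h (plV (chG S.P.Q) b (N1 * m) M'))
    (cardy (lam S.P ic ic S.m2 S.m3 S.m4 φ))
  linarith

/-- **Top of W-D**: Cardy's formula for generic shapes with a right last mark. -/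
theorem stShapeGR_of (hNP : StNP) (hS : StHol) (hC : StChd) (hB : StSide) (h4 : StCor) : StShapeGR :=
  fun S hG hr _ hφ _ hε => shapeG_at hNP hG (stPlR_of hS hC hB h4 S hG hr) hφ hε

end Pool.Agent.H74.W
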