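import Mathlib
import Pool.Agent.H74.W.Lim

set_option autoImplicit false

/-! Route W, D9: `WLim` under a change of the unit (fine cells -> coarse cells) and under translations of the
lattice. -/

open Complex Metric Set Topology Filter

noncomputable section

namespace Pool.Agent.H74.W

open Pool.Agent.H44.W (av WLim)
open Pool.Agent.H35.W (lat_add')
open Pool.Agent.Q1.M4 (lat)

variable {R : ℕ → ℝ} {F : Filter ℕ} {Ω : Set ℂ} {f : ℕ → ℤ × ℤ → ℂ} {g : ℂ → ℂ}

/-- **Change of the unit**: one new unit = `M` old units. -/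
theorem WLim.scale (h : WLim R F Ω f g) {M : ℝ} (hM : 0 < M) :
    WLim (fun j => M * R j) F {z | (M : ℂ) * z ∈ Ω} f (fun z => g ((M : ℂ) * z)) := by
  intro K hK hKc ε hε
  have hM0 : (M : ℂ) ≠ 0 := by exact_mod_cast hM.ne'
  have hKc' : IsCompact ((fun z : ℂ => (M : ℂ) * z) '' K) := hKc.image (continuous_const.mul continuous_id)
  have hK' : (fun z : ℂ => (M : ℂ) * z) '' K ⊆ Ω := by
    rintro _ ⟨z, hz, rfl⟩
    exact hK hz
  obtain ⟨δ0, hδ0, h1⟩ := h _ hK' hKc' ε hε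
  refine ⟨δ0 / M, by positivity, fun δ hδ hδ1 => ?_⟩
  have h2 := h1 (δ * M) (by positivity) (by rwa [lt_div_iff₀ hM] at hδ1)
  filter_upwards [h2] with j hj v hv
  have e1 : (M : ℂ) * (lat v / ((M * R j : ℝ) : ℂ)) = lat v / (R j : ℂ) := by
    push_cast
    rcases eq_or_ne (R j : ℂ) 0 with h0 | h0
    · rw [h0]; simp
    · field_simp
  have e2 : δ * (M * R j) = δ * M * R j := by ring
  rw [e1, e2]
  apply hj
  rw [← e1]
  exact ⟨_, hv, rfl⟩

/-- change of the unit, for balls -/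
theorem WLim.scale_ball {z0 : ℂ} {r M : ℝ} (hM : 0 < M)
    (h : WLim R F (ball ((M : ℂ) * z0) (M * r)) f g) :
    WLim (fun j => M * R j) F (ball z0 r) f (fun z => g ((M : ℂ) * z)) := by
  refine WLim.mono_set (WLim.scale h hM) ?_
  intro z hz
  show (M : ℂ) * z ∈ ball _ _
  rw [mem_ball, dist_eq_norm, ← mul_sub, norm_mul, Complex.norm_real, Real.norm_eq_abs, abs_of_pos hM,
    ← dist_eq_norm]
  exact mul_lt_mul_of_pos_left hz hM

/-- the composed function is holomorphic on the ball -/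
lemma diff_scale {z0 : ℂ} {r M : ℝ} (hM : 0 < M) (hg : DifferentiableOn ℂ g (ball ((M : ℂ) * z0) (M * r))) :
    DifferentiableOn ℂ (fun z => g ((M : ℂ) * z)) (ball z0 r) := by
  refine hg.comp (differentiableOn_const _ |>.mul differentiableOn_id) ?_
  intro z hz
  show (M : ℂ) * z ∈ ball _ _
  rw [mem_ball, dist_eq_norm, ← mul_sub, norm_mul, Complex.norm_real, Real.norm_eq_abs, abs_of_pos hM,
    ← dist_eq_norm]
  exact mul_lt_mul_of_pos_left hz hM

/-- **Translation of the lattice** by the vectors `t j`, `t j / R j` close to `τ`. -/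
theorem WLim.shift (hΩ : IsOpen Ω) (h : WLim R F Ω f g)
    (hg : ContinuousOn g Ω) {t : ℕ → ℤ × ℤ} {τ : ℂ}
    (ht : Tendsto (fun j => lat (t j) / (R j : ℂ)) F (𝓝 τ)) :
    WLim R F {z | z + τ ∈ Ω} (fun j v => f j (v + t j)) (fun z => g (z + τ)) := by
  intro K hK hKc ε hε
  have hcont : Continuous fun z : ℂ => z + τ := continuous_id.add continuous_const
  have hKc' : IsCompact ((fun z : ℂ => z + τ) '' K) := hKc.image hcont
  have hK' : (fun z : ℂ => z + τ) '' K ⊆ Ω := by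
    rintro _ ⟨z, hz, rfl⟩
    exact hK hz
  obtain ⟨η, hη, hηs⟩ := hKc'.exists_cthickening_subset_open hΩ hK'
  set K2 : Set ℂ := cthickening η ((fun z : ℂ => z + τ) '' K) with hK2
  have hK2c : IsCompact K2 := hKc'.cthickening
  obtain ⟨δ0, hδ0, h1⟩ := h K2 hηs hK2c (ε / 2) (by linarith)
  -- uniform continuity on `K2`
  have huc := hK2c.uniformContinuousOn_of_continuous (hg.mono hηs)
  rw [Metric.uniformContinuousOn_iff] at huc
  obtain ⟨ρ, hρ, huc'⟩ := huc (ε / 2) (by linarith)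
  refine ⟨δ0, hδ0, fun δ hδ hδ1 => ?_⟩
  have h3 := (Metric.tendsto_nhds.1 ht) (min η ρ) (lt_min hη hρ)
  filter_upwards [h1 δ hδ hδ1, h3] with j hj hj3 v hv
  have e1 : lat (v + t j) / (R j : ℂ) = lat v / (R j : ℂ) + lat (t j) / (R j : ℂ) := by
    rw [lat_add', add_div]
  have hbase : lat v / (R j : ℂ) + τ ∈ (fun z : ℂ => z + τ) '' K := ⟨_, hv, rfl⟩
  have hdist : dist (lat (v + t j) / (R j : ℂ)) (lat v / (R j : ℂ) + τ) < min η ρ := by
    rw [e1, dist_add_left]
    exact hj3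
  have m1 : lat (v + t j) / (R j : ℂ) ∈ K2 :=
    mem_cthickening_of_dist_le _ _ _ _ hbase (hdist.le.trans (min_le_left _ _))
  have m2 : lat v / (R j : ℂ) + τ ∈ K2 := self_subset_cthickening _ hbase
  have e2 := hj (v + t j) m1
  have e3 := huc' _ m1 _ m2 (hdist.trans_le (min_le_right _ _))
  rw [dist_eq_norm] at e3
  rw [av_shift]
  calc ‖av ⌊δ * R j⌋₊ (f j) (v + t j) - g (lat v / (R j : ℂ) + τ)‖ =
      ‖(av ⌊δ * R j⌋₊ (f j) (v + t j) - g (lat (v + t j) / (R j : ℂ))) +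
        (g (lat (v + t j) / (R j : ℂ)) - g (lat v / (R j : ℂ) + τ))‖ := by ring_nf
    _ ≤ _ := norm_add_le _ _
    _ ≤ ε := by linarith

/-- two lattice functions which agree at the points over `Ω` -/
theorem WLim.congr_near (hR : Tendsto R F atTop) (hΩ : IsOpen Ω) {f' : ℕ → ℤ × ℤ → ℂ}
    (h : WLim R F Ω f g) (he : ∀ᶠ j in F, ∀ v : ℤ × ℤ, lat v / (R j : ℂ) ∈ Ω → f' j v = f j v) :
    WLim R F Ω f' g := by
  intro K hK hKc ε hε
  obtain ⟨δ0, hδ0, h1⟩ := h K hK hKc ε hε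
  obtain ⟨η, hη, hηs⟩ := hKc.exists_cthickening_subset_open hΩ hK
  refine ⟨min δ0 (η / 4), lt_min hδ0 (by linarith), fun δ hδ hδ1 => ?_⟩
  have h2 := h1 δ hδ (hδ1.trans_le (min_le_left _ _))
  have hδη : δ < η / 4 := hδ1.trans_le (min_le_right _ _)
  filter_upwards [h2, he, hR.eventually_gt_atTop 0] with j j1 j2 j3 v hv
  have e : av ⌊δ * R j⌋₊ (f' j) v = av ⌊δ * R j⌋₊ (f j) v := by
    unfold av
    congr 1
    refine Finset.sum_congr rfl fun k hk => Finset.sum_congr rfl fun l hl => ?_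
    apply j2
    apply hηs
    apply mem_cthickening_of_dist_le _ _ _ _ hv
    rw [lat_add', add_div, dist_eq_norm, add_sub_cancel_left, norm_div, Complex.norm_real,
      Real.norm_eq_abs, abs_of_pos j3, div_le_iff₀ j3]
    have e4 := Pool.Agent.H35.W.norm_lat_box (Finset.mem_range.1 hk) (Finset.mem_range.1 hl)
    have e5 : ((⌊δ * R j⌋₊ : ℕ) : ℝ) ≤ δ * R j := Nat.floor_le (by positivity)
    nlinarith
  rw [e]
  exact j1 v hv

end Pool.Agent.H74.W
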