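import Mathlib
import Pool.Agent.H74.W.World

set_option autoImplicit false
open Finset

/-! # Route W, D9: larger tile sets (thick wall layers)

If the far end exists in the world with the tiles `Λ`, then it is the same in every world with more tiles
(thicker layers, longer deleted rows behind the first layer) in which `z` and the far ends are still ends. -/

namespace Pool.Agent.H74.W

open Pool.Agent.H13.W Pool.Agent.H99.W

variable {Λ D Λ' D' : Set (ℤ × ℤ)} {w w' : Finset (ℤ × ℤ)}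

/-- monotonicity in the tile set -/
theorem SG_le (hΛ : Λ ⊆ Λ') (hD : ∀ e ∈ Λ, (e ∈ D ↔ e ∈ D')) (hw : ∀ e ∈ Λ, e ∉ D → (e ∈ w ↔ e ∈ w')) :
    SG Λ D w ≤ SG Λ' D' w' := by
  rw [SG_congr hD hw]
  rintro c d ⟨e, he, h⟩
  exact ⟨e, hΛ he, h⟩

/-- **The far end does not depend on the tiles behind the first layer.** -/
theorem far_eq_of_le (hΛ : Λ ⊆ Λ') (hD : ∀ e ∈ Λ, (e ∈ D ↔ e ∈ D'))
    (hw : ∀ e ∈ Λ, e ∉ D → (e ∈ w ↔ e ∈ w')) {z : ℤ × ℤ} {y : Fin 3 → ℤ × ℤ}
    (hex : ∃ j, (SG Λ D w).Reachable z (y j)) (hz : IsEnd (SG Λ' D' w') z)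
    (hy : ∀ j, IsEnd (SG Λ' D' w') (y j)) (hinj : Function.Injective y) (hne : ∀ j, z ≠ y j) (j : Fin 3) :
    (SG Λ D w).Reachable z (y j) ↔ (SG Λ' D' w').Reachable z (y j) := by
  have hle := SG_le hΛ hD hw
  refine ⟨fun h => h.mono hle, fun h => ?_⟩
  obtain ⟨i, hi⟩ := hex
  have h1 := hi.mono hle
  rcases ends_two SG_deg2 hz (hy i) (hy j) h1 h (hne i) with h2 | h2
  · exact absurd h2.symm (hne j)
  · have : j = i := hinj h2
    rw [this]; exact hi

end Pool.Agent.H74.W
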